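import Pool.Agent.SigB.Rec

/-!
Ultrafilters in a model of ZFC, and the sets which are small with respect to an ultrafilter.
-/

universe u

set_option linter.unusedSectionVars false

namespace Pool.Agent.SigB

variable {M : Type u} [Membership M M] [IsZFC M]

/-- `u` is an ultrafilter on `a`. -/
def UF (u a : M) : Prop :=
  (∀ X, X ∈ u → Sb X a) ∧ a ∈ u ∧ em ∉ u ∧ (∀ X Y, X ∈ u → Sb X Y → Sb Y a → Y ∈ u) ∧
    (∀ X Y, X ∈ u → Y ∈ u → it X Y ∈ u) ∧ ∀ X, Sb X a → X ∈ u ∨ df a X ∈ u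

theorem UF.dfn : Dfn (fun w : Fin 2 → M => UF (w 0) (w 1)) := by
  unfold UF; simp (maxDischargeDepth := 50)

@[simp] theorem dfn_UF {n : ℕ} {s t : (Fin n → M) → M} (hs : DT s) (ht : DT t) :
    Dfn (fun v => UF (s v) (t v)) := dfn2 UF.dfn hs ht

/-- Almost everywhere with respect to `u`. -/
def Ae (u a : M) (P : M → Prop) : Prop := ∃ X, X ∈ u ∧ ∀ x, x ∈ X → x ∈ a → P x

@[simp] theorem dfn_Ae {n : ℕ} {s t : (Fin n → M) → M} {P : (Fin n → M) → M → Prop} (hs : DT s)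
    (ht : DT t) (hP : Dfn (fun w : Fin (n + 1) → M => P (fun i => w i.succ) (w 0))) :
    Dfn (fun v => Ae (s v) (t v) (P v)) := by
  refine Dfn.ex (P := fun v X => X ∈ s v ∧ ∀ x, x ∈ X → x ∈ t v → P v x)
    (Dfn.and (Dfn.mem (DT.var 0) (hs.ren Fin.succ)) ?_)
  refine Dfn.all (P := fun (w : Fin (n + 1) → M) x =>
    x ∈ w 0 → x ∈ t (fun i => w i.succ) → P (fun i => w i.succ) x)
    (Dfn.imp (Dfn.mem (DT.var 0) (DT.var 1)) (Dfn.imp ?_ ?_))
  · exact Dfn.mem (DT.var 0) (ht.ren fun i => i.succ.succ)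
  · exact hP.ren (m := n + 2) (Fin.cases 0 fun i => i.succ.succ)

theorem Ae.mono {u a : M} {P Q : M → Prop} (h : Ae u a P) (hPQ : ∀ x, x ∈ a → P x → Q x) :
    Ae u a Q := by
  obtain ⟨X, hX, h⟩ := h
  exact ⟨X, hX, fun x hx hxa => hPQ x hxa (h x hx hxa)⟩

theorem Ae.and {u a : M} (hu : UF u a) {P Q : M → Prop} (h : Ae u a P) (h' : Ae u a Q) :
    Ae u a fun x => P x ∧ Q x := by
  obtain ⟨X, hX, h⟩ := h
  obtain ⟨Y, hY, h'⟩ := h'
  exact ⟨it X Y, hu.2.2.2.2.1 X Y hX hY, fun x hx hxa =>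
    ⟨h x (mem_it.1 hx).1 hxa, h' x (mem_it.1 hx).2 hxa⟩⟩

theorem Ae.exists {u a : M} (hu : UF u a) {P : M → Prop} (h : Ae u a P) :
    ∃ x, x ∈ a ∧ P x := by
  obtain ⟨X, hX, h⟩ := h
  by_contra hcon
  push Not at hcon
  have h2 : X = em := by
    refine ext' fun x => ?_
    simp only [not_mem_em, iff_false]
    intro hx
    have hxa := hu.1 X hX x hx
    exact hcon x hxa (h x hx hxa)
  rw [h2] at hX
  exact hu.2.2.1 hX

theorem Ae.of_forall {u a : M} (hu : UF u a) {P : M → Prop} (h : ∀ x, x ∈ a → P x) :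
    Ae u a P := ⟨a, hu.2.1, fun x _ hxa => h x hxa⟩

theorem ae_mem {u a : M} (hu : UF u a) {X : M} (hX : Sb X a) : X ∈ u ↔ Ae u a fun x => x ∈ X := by
  constructor
  · intro h
    exact ⟨X, h, fun x hx _ => hx⟩
  · rintro ⟨Y, hY, h⟩
    exact hu.2.2.2.1 Y X hY (fun x hx => h x hx (hu.1 Y hY x hx)) hX

theorem ae_sp {u a : M} (hu : UF u a) {P : M → Prop}
    (hP : Dfn (fun w : Fin 1 → M => P (w 0))) : sp a P ∈ u ↔ Ae u a P := by
  rw [ae_mem hu fun x hx => ((mem_sp hP).1 hx).1]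
  constructor
  · intro h
    exact h.mono fun x _ hx => ((mem_sp hP).1 hx).2
  · intro h
    exact h.mono fun x hxa hx => (mem_sp hP).2 ⟨hxa, hx⟩

theorem ae_not {u a : M} (hu : UF u a) {P : M → Prop}
    (hP : Dfn (fun w : Fin 1 → M => P (w 0))) : (Ae u a fun x => ¬ P x) ↔ ¬ Ae u a P := by
  constructor
  · intro h h'
    obtain ⟨x, -, h1, h2⟩ := (h.and hu h').exists hu
    exact h1 h2
  · intro h
    rcases hu.2.2.2.2.2 (sp a P) fun x hx => ((mem_sp hP).1 hx).1 with h1 | h1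
    · exact absurd ((ae_sp hu hP).1 h1) h
    · refine ⟨_, h1, fun x hx hxa hPx => ?_⟩
      exact (mem_df.1 hx).2 ((mem_sp hP).2 ⟨hxa, hPx⟩)

/-- `X` is small with respect to the ultrafilter `u` on `a`: every function from `a` to `X` is
almost everywhere constant. -/
def Sm (u a X : M) : Prop := ∀ f, f ∈ fs a X → ∃ y, y ∈ X ∧ Ae u a fun x => ap f x = y

theorem Sm.dfn : Dfn (fun w : Fin 3 → M => Sm (w 0) (w 1) (w 2)) := by
  unfold Sm; simp (maxDischargeDepth := 50)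

@[simp] theorem dfn_Sm {n : ℕ} {s t r : (Fin n → M) → M} (hs : DT s) (ht : DT t) (hr : DT r) :
    Dfn (fun v => Sm (s v) (t v) (r v)) := dfn3 Sm.dfn hs ht hr

/-- The almost everywhere value of a definable function with values in a small set. -/
theorem Sm.const {u a X : M} (h : Sm u a X) {F : M → M}
    (hF : DT (fun w : Fin 1 → M => F (w 0))) (hX : ∀ x, x ∈ a → F x ∈ X) :
    ∃ y, y ∈ X ∧ Ae u a fun x => F x = y := by
  obtain ⟨y, hy, h1⟩ := h (lam a F) (lam_mem_fs hF hX)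
  exact ⟨y, hy, h1.mono fun x hx h2 => by rwa [ap_lam hF hx] at h2⟩

/-- A definable relation between the elements of `a` and those of a small set. -/
theorem Sm.ex {u a X : M} (hu : UF u a) (h : Sm u a X) {P : M → M → Prop}
    (hP : Dfn (fun w : Fin 2 → M => P (w 0) (w 1)))
    (hX : Ae u a fun x => ∃ y, y ∈ X ∧ P y x) : ∃ y, y ∈ X ∧ Ae u a fun x => P y x := by
  have hP1 : Dfn (fun w : Fin 1 → M => ∃ y, y ∈ X ∧ P y (w 0)) := by
    refine Dfn.ex (P := fun (v : Fin 1 → M) y => y ∈ X ∧ P y (v 0)) (Dfn.and (by simp) ?_)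
    exact hP.ren (m := 2) ![0, 1]
  have hP2 : Dfn (fun w : Fin 2 → M => (∃ y, y ∈ X ∧ P y (w 0)) → P (w 1) (w 0)) :=
    Dfn.imp (hP1.ren (m := 2) ![0]) (hP.ren (m := 2) ![1, 0])
  obtain ⟨t₀, -, y₀, hy₀, -⟩ := hX.exists hu
  obtain ⟨f, hf, hf'⟩ := choice' (a := a) (b := X)
    (P := fun x y => (∃ y, y ∈ X ∧ P y x) → P y x) hP2 (fun x _ => by
    by_cases h1 : ∃ y, y ∈ X ∧ P y x
    · obtain ⟨y, hy, h2⟩ := h1
      exact ⟨y, hy, fun _ => h2⟩
    · exact ⟨y₀, hy₀, fun h2 => absurd h2 h1⟩)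
  obtain ⟨y, hy, h1⟩ := h f hf
  refine ⟨y, hy, (hX.and hu h1).mono ?_⟩
  rintro x hx ⟨h2, rfl⟩
  exact hf' x hx h2

theorem Sm.sub {u a X Y : M} (hu : UF u a) (h : Sm u a X) (hYX : Sb Y X) : Sm u a Y := by
  intro f hf
  rw [mem_fs] at hf
  obtain ⟨y, -, h1⟩ := h f (mem_fs.2 ⟨hf.1, fun x hx => hYX _ (hf.2 x hx)⟩)
  obtain ⟨x, hx, rfl⟩ := h1.exists hu
  exact ⟨_, hf.2 x hx, h1⟩

/-- The almost everywhere value of a definable function which is almost everywhere in a small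
set. -/
theorem Sm.const' {u a X : M} (hu : UF u a) (h : Sm u a X) {F : M → M}
    (hF : DT (fun w : Fin 1 → M => F (w 0))) (hX : Ae u a fun x => F x ∈ X) :
    ∃ y, y ∈ X ∧ Ae u a fun x => F x = y := by
  refine h.ex hu (P := fun y x => F x = y) ?_ (hX.mono fun x _ h1 => ⟨F x, h1, rfl⟩)
  exact Dfn.eq (hF.ren (m := 2) ![1]) (DT.var 0)

/-- A set which is mapped injectively into a small set is small. -/
theorem Sm.inj {u a X Y : M} (hu : UF u a) (h : Sm u a X) {F : M → M}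
    (hF : DT (fun w : Fin 1 → M => F (w 0))) (hX : ∀ y, y ∈ Y → F y ∈ X)
    (hinj : ∀ y y', y ∈ Y → y' ∈ Y → F y = F y' → y = y') : Sm u a Y := by
  intro f hf
  rw [mem_fs] at hf
  obtain ⟨x, -, h1⟩ := h.const (F := fun t => F (ap f t)) (dt1 hF (by simp))
    fun t ht => hX _ (hf.2 t ht)
  obtain ⟨t, ht, htx⟩ := h1.exists hu
  refine ⟨ap f t, hf.2 t ht, h1.mono fun t' ht' h' => ?_⟩
  exact hinj _ _ (hf.2 t' ht') (hf.2 t ht) (h'.trans htx.symm)

/-- The image of a small set is small. -/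
theorem Sm.image {u a X Y : M} (hu : UF u a) (h : Sm u a X) {F : M → M}
    (hF : DT (fun w : Fin 1 → M => F (w 0))) (hY : ∀ y, y ∈ Y → ∃ x, x ∈ X ∧ y = F x) :
    Sm u a Y := by
  intro f hf
  rw [mem_fs] at hf
  obtain ⟨x, -, h1⟩ := h.ex hu (P := fun x t => ap f t = F x)
    (Dfn.eq (by simp) (hF.ren (m := 2) ![0])) (Ae.of_forall hu fun t ht => hY _ (hf.2 t ht))
  obtain ⟨t, ht, htx⟩ := h1.exists hu
  refine ⟨F x, ?_, h1⟩
  rw [← htx]
  exact hf.2 t ht

/-- Completeness with respect to families indexed by small sets. -/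
theorem Sm.inter {u a X : M} (hu : UF u a) (h : Sm u a X) {P : M → M → Prop}
    (hP : Dfn (fun w : Fin 2 → M => P (w 0) (w 1))) (hX : ∀ y, y ∈ X → Ae u a fun x => P y x) :
    Ae u a fun x => ∀ y, y ∈ X → P y x := by
  have hP1 : Dfn (fun w : Fin 1 → M => ∀ y, y ∈ X → P y (w 0)) := by
    refine Dfn.all (P := fun (v : Fin 1 → M) y => y ∈ X → P y (v 0)) (Dfn.imp (by simp) ?_)
    exact hP.ren (m := 2) ![0, 1]
  by_contra hcon
  have h1 := (ae_not hu hP1).2 hcon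
  obtain ⟨y, hy, h2⟩ := h.ex hu (P := fun y x => ¬ P y x) hP.not (h1.mono fun x _ h1 => by
    by_contra h3
    push Not at h3
    exact h1 h3)
  exact (ae_not hu (dfn2 hP (DT.const y) (DT.var 0))).1 h2 (hX y hy)

theorem sm_pd {u a X Y : M} (hu : UF u a) (h : Sm u a X) (h' : Sm u a Y) :
    Sm u a (pd X Y) := by
  intro f hf
  rw [mem_fs] at hf
  obtain ⟨x, hx, h1⟩ := h.ex hu (P := fun x t => ∃ y, y ∈ Y ∧ ap f t = op x y)
    (by simp (maxDischargeDepth := 50)) (Ae.of_forall hu fun t ht => mem_pd.1 (hf.2 t ht))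
  obtain ⟨y, hy, h2⟩ := h'.ex hu (P := fun y t => ap f t = op x y)
    (by simp (maxDischargeDepth := 50)) h1
  exact ⟨op x y, op_mem_pd.2 ⟨hx, hy⟩, h2⟩

theorem sm_pw {u a X : M} (hu : UF u a) (h : Sm u a X) : Sm u a (pw X) := by
  intro f hf
  rw [mem_fs] at hf
  let B : M := sp X fun x => Ae u a fun t => x ∈ ap f t
  have hB : Dfn (fun w : Fin 1 → M => Ae u a fun t => w 0 ∈ ap f t) := by
    simp (maxDischargeDepth := 50)
  have h1 := h.inter hu (P := fun x t => x ∈ ap f t ↔ x ∈ B) (by simp (maxDischargeDepth := 50)) (by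
    intro x hx
    by_cases hxB : x ∈ B
    · exact ((mem_sp hB).1 hxB).2.mono fun t _ h3 => by simp only [h3, hxB]
    · have h2 : ¬ Ae u a fun t => x ∈ ap f t := fun h3 => hxB ((mem_sp hB).2 ⟨hx, h3⟩)
      refine ((ae_not hu (P := fun t => x ∈ ap f t) (by simp)).2 h2).mono fun t _ h3 => ?_
      simp only [h3, hxB])
  refine ⟨B, mem_pw.2 fun x hx => ((mem_sp hB).1 hx).1, h1.mono fun t ht h2 => ?_⟩
  refine ext' fun x => ?_
  by_cases hx : x ∈ X
  · exact h2 x hx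
  · constructor
    · intro h3
      exact absurd (mem_pw.1 (hf.2 t ht) x h3) hx
    · intro h3
      exact absurd ((mem_sp hB).1 h3).1 hx

theorem sm_fs {u a X Y : M} (hu : UF u a) (h : Sm u a X) (h' : Sm u a Y) :
    Sm u a (fs X Y) := by
  refine Sm.sub hu (sm_pw hu (sm_pd hu h h')) fun f hf => mem_pw.2 fun z hz => ?_
  rw [mem_fs] at hf
  obtain ⟨x, hx, rfl⟩ := hf.1.mem_iff.1 hz
  exact op_mem_pd.2 ⟨hx, hf.2 x hx⟩

/-- The union of a small family of small sets is small. -/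
theorem Sm.union {u a X Y : M} (hu : UF u a) (h : Sm u a X) {G : M → M}
    (hG : DT (fun w : Fin 1 → M => G (w 0))) (hGs : ∀ x, x ∈ X → Sm u a (G x))
    (hY : ∀ y, y ∈ Y → ∃ x, x ∈ X ∧ y ∈ G x) : Sm u a Y := by
  intro f hf
  rw [mem_fs] at hf
  obtain ⟨x, hx, h1⟩ := h.ex hu (P := fun x t => ap f t ∈ G x)
    (Dfn.mem (by simp) (hG.ren (m := 2) ![0])) (Ae.of_forall hu fun t ht => hY _ (hf.2 t ht))
  obtain ⟨y, -, h2⟩ := (hGs x hx).const' hu (F := fun t => ap f t) (by simp) h1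
  obtain ⟨t, ht, rfl⟩ := h2.exists hu
  exact ⟨ap f t, hf.2 t ht, h2⟩

theorem sm_em {u a : M} (hu : UF u a) : Sm u a em := by
  intro f hf
  rw [mem_fs] at hf
  obtain ⟨t, ht, -⟩ := (Ae.of_forall hu (P := fun _ => True) fun _ _ => trivial).exists hu
  exact absurd (hf.2 t ht) (not_mem_em _)

theorem sm_un {u a X Y : M} (hu : UF u a) (h : Sm u a X) (h' : Sm u a Y) :
    Sm u a (un X Y) := by
  intro f hf
  rw [mem_fs] at hf
  by_cases h1 : Ae u a fun t => ap f t ∈ X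
  · obtain ⟨y, hy, h2⟩ := h.const' hu (F := fun t => ap f t) (by simp) h1
    exact ⟨y, mem_un.2 (Or.inl hy), h2⟩
  · have h3 := (ae_not hu (P := fun t => ap f t ∈ X) (by simp)).2 h1
    obtain ⟨y, hy, h2⟩ := h'.const' hu (F := fun t => ap f t) (by simp)
      (h3.mono fun t ht h4 => (mem_un.1 (hf.2 t ht)).resolve_left h4)
    exact ⟨y, mem_un.2 (Or.inr hy), h2⟩

theorem sm_pr {u a : M} (hu : UF u a) (x y : M) : Sm u a (pr x y) := by
  intro f hf
  rw [mem_fs] at hf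
  by_cases h : Ae u a fun t => ap f t = x
  · exact ⟨x, by simp, h⟩
  · refine ⟨y, by simp, ((ae_not hu (P := fun t => ap f t = x) (by simp)).2 h).mono ?_⟩
    exact fun t ht h1 => (mem_pr.1 (hf.2 t ht)).resolve_left h1

theorem sm_sc {u a X : M} (hu : UF u a) (h : Sm u a X) : Sm u a (sc X) :=
  sm_un hu h (sm_pr hu X X)

/-- `u` is a `κ`-complete nonprincipal ultrafilter on the ordinal `κ`. -/
def Meas (u κ : M) : Prop :=
  UF u κ ∧ (∀ x, x ∈ κ → pr x x ∉ u) ∧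
    ∀ α g, α ∈ κ → g ∈ fs α u → sp κ (fun x => ∀ i, i ∈ α → x ∈ ap g i) ∈ u

theorem Meas.dfn : Dfn (fun w : Fin 2 → M => Meas (w 0) (w 1)) := by
  unfold Meas; simp (maxDischargeDepth := 50)

@[simp] theorem dfn_Meas {n : ℕ} {s t : (Fin n → M) → M} (hs : DT s) (ht : DT t) :
    Dfn (fun v => Meas (s v) (t v)) := dfn2 Meas.dfn hs ht

theorem Meas.ne {u κ : M} (h : Meas u κ) {y : M} (hy : y ∈ κ) : Ae u κ fun x => x ≠ y := by
  by_contra hcon
  have h1 : Ae u κ fun x => x = y := by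
    by_contra h2
    exact hcon ((ae_not h.1 (by simp)).2 h2)
  refine h.2.1 y hy ((ae_mem h.1 ?_).2 (h1.mono fun x _ h2 => by simp [h2]))
  intro z hz
  simp only [mem_pr, or_self] at hz
  rw [hz]
  exact hy

/-- Smaller ordinals are small. -/
theorem Meas.small {u κ α : M} (hκ : Ord κ) (h : Meas u κ) (hα : α ∈ κ) : Sm u κ α := by
  intro f hf
  rw [mem_fs] at hf
  by_contra hcon
  push Not at hcon
  have hd : DT (fun w : Fin 1 → M => sp κ fun t => ap f t ≠ w 0) := by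
    simp (maxDischargeDepth := 50)
  have hd' : ∀ x, Dfn (fun w : Fin 1 → M => ap f (w 0) ≠ x) := fun x => by
    simp (maxDischargeDepth := 50)
  have h1 : ∀ x, x ∈ α → sp κ (fun t => ap f t ≠ x) ∈ u := fun x hx =>
    (ae_sp h.1 (hd' x)).2 ((ae_not h.1 (P := fun t => ap f t = x) (by simp)).2 (hcon x hx))
  have h2 := h.2.2 α (lam α fun x => sp κ fun t => ap f t ≠ x) hα (lam_mem_fs hd h1)
  rw [ae_sp h.1 (by simp (maxDischargeDepth := 50))] at h2
  obtain ⟨t, ht, h3⟩ := h2.exists h.1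
  have h4 := h3 _ (hf.2 t ht)
  rw [ap_lam hd (hf.2 t ht), mem_sp (hd' _)] at h4
  exact h4.2 rfl

/-- The ordinal `κ` itself is not small. -/
theorem Meas.not_small {u κ : M} (h : Meas u κ) : ¬ Sm u κ κ := by
  intro hs
  obtain ⟨y, hy, h1⟩ := hs.const (F := fun t => t) (by simp) fun _ h => h
  obtain ⟨x, -, h2, h3⟩ := (h1.and h.1 (h.ne hy)).exists h.1
  exact h3 h2

/-- A small ordinal is smaller. -/
theorem Meas.lt_of_small {u κ α : M} (hκ : Ord κ) (h : Meas u κ) (hα : Ord α)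
    (hs : Sm u κ α) : α ∈ κ := by
  rcases hα.tri hκ with h1 | h1 | h1
  · exact h1
  · rw [h1] at hs
    exact absurd hs h.not_small
  · exact absurd (hs.sub h.1 (hα.1 κ h1)) h.not_small

/-- Tail sets are large. -/
theorem Meas.tail {u κ b : M} (hκ : Ord κ) (h : Meas u κ) (hb : b ∈ κ) :
    Ae u κ fun a => b ∈ a := by
  have h1 : Sm u κ (sc b) := sm_sc h.1 (h.small hκ hb)
  have h2 := h1.inter h.1 (P := fun y x => x ≠ y) (by simp (maxDischargeDepth := 50)) (by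
    intro y hy
    refine h.ne ?_
    rcases mem_sc.1 hy with h3 | h3
    · exact hκ.1 b hb y h3
    · rw [h3]; exact hb)
  refine h2.mono fun x hx h3 => ?_
  rcases (hκ.mem hb).tri (hκ.mem hx) with h4 | h4 | h4
  · exact h4
  · exact absurd h4.symm (h3 b (by simp))
  · exact absurd rfl (h3 x (by simp [h4]))

end Pool.Agent.SigB
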