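import Pool.Agent.SigB.Defs

/-!
The universe `ZFSet` is a model of ZFC in the sense of `IsZFC` (a check of the definition; it is
not used in the proofs).
-/

universe u

namespace Pool.Agent.SigB

instance : IsZFC ZFSet.{u} where
  ext x y h := ZFSet.ext h
  found x hx := by
    obtain ⟨y, hy⟩ := hx
    have hne : x ≠ ∅ := by
      rintro rfl
      exact ZFSet.notMem_empty y hy
    obtain ⟨y, hy, h⟩ := ZFSet.regularity x hne
    refine ⟨y, hy, fun z hz hzx => ?_⟩
    have : z ∈ x ∩ y := ZFSet.mem_inter.2 ⟨hzx, hz⟩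
    rw [h] at this
    exact ZFSet.notMem_empty z this
  pairing x y := ⟨{x, y}, by simp, by simp⟩
  union x := ⟨ZFSet.sUnion x, fun y z hz hy => ZFSet.mem_sUnion.2 ⟨y, hy, hz⟩⟩
  power x := ⟨ZFSet.powerset x, fun y hy => ZFSet.mem_powerset.2 fun z hz => hy z hz⟩
  infinity := by
    refine ⟨ZFSet.omega, ⟨∅, ZFSet.omega_zero, ZFSet.notMem_empty⟩, fun y hy => ?_⟩
    refine ⟨insert y y, ZFSet.omega_succ hy, fun z => ?_⟩
    rw [ZFSet.mem_insert_iff, or_comm]
  separation φ a := ⟨ZFSet.sep (fun x => φ.Sat ![x]) a, fun x => by rw [ZFSet.mem_sep]⟩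
  replacement φ a h := by
    classical
    choose! f hf hu using h
    have : ZFSet.Definable₁ f := Classical.allZFSetDefinable _
    refine ⟨ZFSet.image f a, fun x hx => ?_⟩
    refine ⟨f x, ?_, hf x hx⟩
    rw [ZFSet.mem_image]
    exact ⟨x, hx, rfl⟩
  choice a h h' := by
    classical
    choose! f hf using h
    have : ZFSet.Definable₁ f := Classical.allZFSetDefinable _
    refine ⟨ZFSet.image f a, fun x hx => ?_⟩
    refine ⟨f x, ⟨hf x hx, ?_⟩, ?_⟩
    · beta_reduce
      rw [ZFSet.mem_image]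
      exact ⟨x, hx, rfl⟩
    · rintro y ⟨h1, h2⟩
      rw [ZFSet.mem_image] at h2
      obtain ⟨x', hx', rfl⟩ := h2
      by_cases hxx : x' = x
      · rw [hxx]
      · exact absurd h1 (h' x' x hx' hx hxx _ (hf x' hx'))

end Pool.Agent.SigB
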