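import Pool.Agent.SigB.Count

/-!
The blocks of iterated measures inside a model of ZFC.
-/

universe u

set_option linter.unusedSectionVars false

namespace Pool.Agent.SigB

open Filter

variable {M : Type u} [Membership M M] [IsZFC M]

/-- The block from `c n` to `θ`. -/
noncomputable def Bl (c n θ : M) : M := df θ (ap c n)

theorem Bl.dt : DT (fun w : Fin 3 → M => Bl (w 0) (w 1) (w 2)) := by
  unfold Bl; simp (maxDischargeDepth := 50)

@[simp] theorem dt_Bl {n : ℕ} {s t r : (Fin n → M) → M} (hs : DT s) (ht : DT t) (hr : DT r) :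
    DT (fun v => Bl (s v) (t v) (r v)) := dt3 Bl.dt hs ht hr

/-- The union of the blocks from level `n` on. -/
noncomputable def Tl (K c θ n : M) : M :=
  sp K fun α => n ∈ sc (lv c α) ∧ α ∉ ap c (lv c α) ∧ α ∈ ap θ (lv c α)

theorem mem_Tl {K c θ n α : M} : α ∈ Tl K c θ n ↔
    α ∈ K ∧ n ∈ sc (lv c α) ∧ α ∉ ap c (lv c α) ∧ α ∈ ap θ (lv c α) := by
  unfold Tl
  exact mem_sp (by simp (maxDischargeDepth := 50))

theorem Tl.dt : DT (fun w : Fin 4 → M => Tl (w 0) (w 1) (w 2) (w 3)) := by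
  unfold Tl; simp (maxDischargeDepth := 50)

@[simp] theorem dt_Tl {n : ℕ} {s t r q : (Fin n → M) → M} (hs : DT s) (ht : DT t) (hr : DT r)
    (hq : DT q) : DT (fun v => Tl (s v) (t v) (r v) (q v)) := dt4 Tl.dt hs ht hr hq

section

variable {K c W : M} (H : Hyp K c W)
include H

theorem Hyp.Bl_sb {n θ : M} (hn : n ∈ (om : M)) (hθ : θ ∈ ap c (sc n)) : Sb (Bl c n θ) K := by
  intro x hx
  exact H.sb_K (sc_mem_om hn) _ ((H.co _ (sc_mem_om hn)).1 _ hθ _ (mem_df.1 hx).1)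

theorem Hyp.lv_Bl {n θ α : M} (hn : n ∈ (om : M)) (hθ : θ ∈ ap c (sc n)) (hα : α ∈ Bl c n θ) :
    lv c α = n := by
  have h := mem_df.1 hα
  exact H.lv_eq hn h.2 ((H.co _ (sc_mem_om hn)).1 _ hθ _ h.1)

omit H in
theorem Tl_sb {θ n : M} : Sb (Tl K c θ n) K := fun _ hx => (mem_Tl.1 hx).1

theorem Hyp.Tl_eq {θ n : M} (hn : n ∈ (om : M)) (hθ : ap θ n ∈ ap c (sc n)) :
    Tl K c θ n = un (Bl c n (ap θ n)) (Tl K c θ (sc n)) := by
  refine ext' fun α => ?_
  rw [mem_un, mem_Tl, mem_Tl]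
  constructor
  · rintro ⟨h1, h2, h3, h4⟩
    rcases mem_sc.1 h2 with h5 | h5
    · right
      exact ⟨h1, sc_le H (H.lv_spec h1).1 h5, h3, h4⟩
    · left
      rw [h5]
      exact mem_df.2 ⟨h4, h3⟩
  · rintro (h | ⟨h1, h2, h3, h4⟩)
    · have h1 := H.lv_Bl hn hθ h
      have h2 := mem_df.1 h
      refine ⟨H.Bl_sb hn hθ α h, ?_, ?_, ?_⟩
      · rw [h1]; simp
      · rw [h1]; exact h2.2
      · rw [h1]; exact h2.1
    · refine ⟨h1, ?_, h3, h4⟩
      have h5 := (H.lv_spec h1).1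
      refine mem_sc.2 (Or.inl ?_)
      rcases mem_sc.1 h2 with h6 | h6
      · exact (om_ord.mem h5).1 _ h6 _ (by simp)
      · rw [← h6]; simp

/-- Indices of higher blocks are not below `c n`. -/
theorem Hyp.Tl_not {θ n α : M} (hα : α ∈ Tl K c θ n) : α ∉ ap c n := by
  obtain ⟨h1, h2, h3, h4⟩ := mem_Tl.1 hα
  intro h5
  exact h3 (H.sb (H.lv_spec h1).1 h2 α h5)

theorem Hyp.lt_of {n i j : M} (hn : n ∈ (om : M)) (hi : i ∈ ap c n) (hj : j ∈ K)
    (hjn : j ∉ ap c n) : i ∈ j := by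
  have hiO := H.ord.mem (H.sb_K hn i hi)
  have hjO := H.ord.mem hj
  rcases hiO.tri hjO with h | h | h
  · exact h
  · rw [h] at hi; exact absurd hi hjn
  · exact absurd ((H.co _ hn).1 _ hi _ h) hjn

theorem Hyp.tl_comp {θ n : M} (hn : n ∈ (om : M)) (hθ : ap θ n ∈ ap c (sc n)) {x : M}
    (hx : Sb x K) :
    Emb K (AA K c) (UU K c W) (Tl K c θ n) x =
      Emb K (AA K c) (UU K c W) (Tl K c θ (sc n))
        (Emb K (AA K c) (UU K c W) (Bl c n (ap θ n)) x) := by
  have S := H.sys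
  have hn1 := sc_mem_om hn
  rw [H.Tl_eq hn hθ]
  refine Emb_comp S (J₁ := Bl c n (ap θ n)) (J₂ := Tl K c θ (sc n)) (B := ap c n)
    (H.Bl_sb hn hθ) Tl_sb ?_ ?_ ?_ ?_ ?_ hx
  · intro i j hi hj
    exact H.lt_of hn1 ((H.co _ hn1).1 _ hθ _ (mem_df.1 hi).1) (Tl_sb j hj) (H.Tl_not hj)
  · intro i hi
    rw [H.ap_AA (H.Bl_sb hn hθ i hi), H.lv_Bl hn hθ hi]
    exact Sb.refl _
  · intro j hj
    exact H.small_c hn (Tl_sb j hj) (H.Tl_not hj)
  · intro j hj
    exact (H.small hn1 hθ (Tl_sb j hj) (H.Tl_not hj)).sub (S.uf j (Tl_sb j hj))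
      fun x hx => (mem_df.1 hx).1
  · intro g hg
    exact H.Co_mem_K (H.Bl_sb hn hθ) hg

/-- The elements of a block belong to the image of `c n`. -/
theorem Hyp.mem_Emb_Bl {n θ α : M} (hn : n ∈ (om : M)) (hθ : θ ∈ ap c (sc n))
    (hα : α ∈ Bl c n θ) : α ∈ Emb K (AA K c) (UU K c W) (Bl c n θ) (ap c n) := by
  have S := H.sys
  have hJ := H.Bl_sb hn hθ
  have hne := FF_neBot S
  have hθO : Ord θ := (H.co _ (sc_mem_om hn)).mem hθ
  -- the coordinate functions
  let g : M → M := fun α => lam (Om K (AA K c)) fun ω => ap ω α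
  have hgdt : DT (fun w : Fin 1 → M => g (w 0)) :=
    dt_lam (F := fun (v : Fin 1 → M) ω => ap ω (v 0)) (by simp (maxDischargeDepth := 50))
      (by simp (maxDischargeDepth := 50))
  have hgap : ∀ α ω, ω ∈ Om K (AA K c) → ap (g α) ω = ap ω α := fun α ω hω =>
    ap_lam (by simp (maxDischargeDepth := 50)) hω
  have hval : ∀ α, α ∈ Bl c n θ → ∀ ω, ω ∈ Om K (AA K c) → ap ω α ∈ ap c n := by
    intro α hα ω hω
    have h1 := (mem_Om.1 hω).2 α (hJ α hα)
    rwa [H.ap_AA (hJ α hα), H.lv_Bl hn hθ hα] at h1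
  have hg : ∀ α, α ∈ Bl c n θ → g α ∈ FS K (AA K c) K (Bl c n θ) := by
    intro α hα
    refine mem_FS.2 ⟨lam_mem_fs (by simp (maxDischargeDepth := 50)) fun ω hω =>
      H.sb_K hn _ (hval α hα ω hω), pr α α, ?_, fi_single α, ?_⟩
    · intro x hx
      have : x = α := by simpa using hx
      rw [this]; exact hα
    · intro x y hx hy hxy
      rw [hgap α x hx, hgap α y hy]
      exact hxy α (by simp)
  have hmem : ∀ α, α ∈ Bl c n θ → ap (Co K (AA K c) (UU K c W) K (Bl c n θ)) (g α) ∈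
      Emb K (AA K c) (UU K c W) (Bl c n θ) (ap c n) := by
    intro α hα
    refine mem_Emb.2 ⟨g α, hg α hα, ?_, rfl⟩
    filter_upwards [ev_Om K (AA K c) (UU K c W)] with ω hω
    rw [hgap α ω hω]
    exact hval α hα ω hω
  have hM := H.meas n hn
  have hO := H.co n hn
  have hsub : ∀ α, α ∈ K → α ∈ Bl c n θ →
      Sb α (ap (Co K (AA K c) (UU K c W) K (Bl c n θ)) (g α)) := by
    refine H.ord.ind (P := fun α => α ∈ Bl c n θ →
      Sb α (ap (Co K (AA K c) (UU K c W) K (Bl c n θ)) (g α))) ?_ ?_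
    · refine Dfn.imp (by simp (maxDischargeDepth := 50)) ?_
      exact dfn_Sb (DT.var 0) (dt_ap (DT.const _) (dt1 hgdt (DT.var 0)))
    · intro α hαK ih hα β hβ
      have hβK : β ∈ K := H.ord.1 _ hαK _ hβ
      have hCo := Co_ord S hJ (hg α hα)
      have hαne : ∀ γ, γ ∈ α → ∀ ω, ω ∈ Om K (AA K c) → ∀ a, ap (up K ω α a) γ = ap ω γ := by
        intro γ hγ ω hω a
        exact ap_up_ne (H.ord.1 _ hαK _ hγ) (fun h => by rw [h] at hγ; exact not_mem_self _ hγ)
      by_cases hβn : β ∈ ap c n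
      · -- the constant function
        have h1 : ∀ᶠ ω in FF K (AA K c) (UU K c W), β ∈ ap ω α := by
          refine (ev_step_iff S (P := fun ω => β ∈ ap ω α) (by simp (maxDischargeDepth := 50))
            (s := em) (i := α) hαK (fun x hx => absurd hx (not_mem_em x)) fi_em ?_).2 ?_
          · intro x y _ _ hxy
            show β ∈ ap x α ↔ β ∈ ap y α
            rw [hxy α (by simp)]
          · refine Filter.Eventually.of_forall fun ω => ?_
            rw [H.ap_AA hαK, H.ap_UU hαK, H.lv_Bl hn hθ hα]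
            refine (hM.tail hO hβn).mono fun a ha h => ?_
            rw [ap_up_same hαK]; exact h
        have h2 : Emb K (AA K c) (UU K c W) (Bl c n θ) β ∈
            ap (Co K (AA K c) (UU K c W) K (Bl c n θ)) (g α) := by
          rw [← cst_K S hJ hβK]
          refine (Co_mem_iff S hJ S.ord.1 (cst_mem hβK) (hg α hα)).2 ?_
          filter_upwards [h1, ev_Om K (AA K c) (UU K c W)] with ω a hω
          rw [ap_cst hω, hgap α ω hω]; exact a
        rcases ((H.ord.mem hβK).sb_iff (Emb_ord S hJ (H.ord.mem hβK))).1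
          (sb_Emb S hJ hβK) with h3 | h3
        · exact hCo.1 _ h2 _ h3
        · rw [h3]; exact h2
      · have hβB : β ∈ Bl c n θ := mem_df.2 ⟨hθO.1 _ (mem_df.1 hα).1 _ hβ, hβn⟩
        have h1 : ∀ᶠ ω in FF K (AA K c) (UU K c W), ap ω β ∈ ap ω α := by
          refine (ev_step_iff S (P := fun ω => ap ω β ∈ ap ω α)
            (by simp (maxDischargeDepth := 50)) (s := pr β β) (i := α) hαK ?_
            (fi_single β) ?_).2 ?_
          · intro x hx
            have : x = β := by simpa using hx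
            rw [this]; exact hβ
          · intro x y _ _ hxy
            show ap x β ∈ ap x α ↔ ap y β ∈ ap y α
            rw [hxy α (by simp), hxy β (by simp)]
          · filter_upwards [ev_Om K (AA K c) (UU K c W)] with ω hω
            rw [H.ap_AA hαK, H.ap_UU hαK, H.lv_Bl hn hθ hα]
            refine (hM.tail hO (hval β hβB ω hω)).mono fun a ha h => ?_
            rw [ap_up_same hαK, hαne β hβ ω hω]; exact h
        have h2 : ap (Co K (AA K c) (UU K c W) K (Bl c n θ)) (g β) ∈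
            ap (Co K (AA K c) (UU K c W) K (Bl c n θ)) (g α) := by
          refine (Co_mem_iff S hJ S.ord.1 (hg β hβB) (hg α hα)).2 ?_
          filter_upwards [h1, ev_Om K (AA K c) (UU K c W)] with ω a hω
          rw [hgap α ω hω, hgap β ω hω]; exact a
        rcases ((H.ord.mem hβK).sb_iff (Co_ord S hJ (hg β hβB))).1 (ih β hβ hβB) with h3 | h3
        · exact hCo.1 _ h2 _ h3
        · rw [h3]; exact h2
  have h1 := hsub α (hJ α hα) hα
  have h2 := hmem α hα
  have hE := Emb_ord S hJ hO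
  rcases ((H.ord.mem (hJ α hα)).sb_iff (Co_ord S hJ (hg α hα))).1 h1 with h3 | h3
  · exact hE.1 _ h2 _ h3
  · rw [h3]; exact h2

/-- Every element of `c (n + 1)` belongs to the image of `c n` for some block. -/
theorem Hyp.exists_Bl {n δ : M} (hn : n ∈ (om : M)) (hδ : δ ∈ ap c (sc n)) :
    ∃ θ, θ ∈ ap c (sc n) ∧ δ ∈ Emb K (AA K c) (UU K c W) (Bl c n θ) (ap c n) := by
  have hn1 := sc_mem_om hn
  have hδO : Ord δ := (H.co _ hn1).mem hδ
  by_cases h : δ ∈ ap c n
  · refine ⟨δ, hδ, ?_⟩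
    have h1 := sb_Emb H.sys (H.Bl_sb hn hδ) (H.mem_K hn)
    exact h1 δ h
  · have hM := H.meas _ hn1
    have hO := H.co _ hn1
    have h1 : sc δ ∈ ap c (sc n) :=
      hM.lt_of_small hO (ord_sc hδO) (sm_sc hM.1 (hM.small hO hδ))
    exact ⟨sc δ, h1, H.mem_Emb_Bl hn h1 (mem_df.2 ⟨by simp, h⟩)⟩

/-- A set fixed by all blocks of level `n` is determined below `c (n + 1)` by its part
below `c n`. -/
theorem Hyp.determined {n x x' : M} (hn : n ∈ (om : M))
    (hx : ∀ θ, θ ∈ ap c (sc n) → Emb K (AA K c) (UU K c W) (Bl c n θ) x = x)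
    (hx' : ∀ θ, θ ∈ ap c (sc n) → Emb K (AA K c) (UU K c W) (Bl c n θ) x' = x')
    (h : it x (ap c n) = it x' (ap c n)) : it x (ap c (sc n)) = it x' (ap c (sc n)) := by
  have S := H.sys
  have key : ∀ x x' : M, 
      (∀ θ, θ ∈ ap c (sc n) → Emb K (AA K c) (UU K c W) (Bl c n θ) x = x) →
      (∀ θ, θ ∈ ap c (sc n) → Emb K (AA K c) (UU K c W) (Bl c n θ) x' = x') →
      it x (ap c n) = it x' (ap c n) → ∀ y, y ∈ x → y ∈ ap c (sc n) → y ∈ x' := by
    intro x x' hx hx' h y hyx hy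
    obtain ⟨θ, hθ, hyE⟩ := H.exists_Bl hn hy
    have hJ := H.Bl_sb hn hθ
    have h1 : y ∈ Emb K (AA K c) (UU K c W) (Bl c n θ) (it x (ap c n)) :=
      (Emb_it S hJ).2 ⟨by rw [hx θ hθ]; exact hyx, hyE⟩
    rw [h] at h1
    have h2 := ((Emb_it S hJ).1 h1).1
    rwa [hx' θ hθ] at h2
  refine ext' fun y => ?_
  rw [mem_it, mem_it]
  constructor
  · rintro ⟨h1, h2⟩
    exact ⟨key x x' hx hx' h y h1 h2, h2⟩
  · rintro ⟨h1, h2⟩
    exact ⟨key x' x hx' hx h.symm y h1 h2, h2⟩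

end

end Pool.Agent.SigB
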