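import Pool.Agent.SigB.Main

/-!
The translation of the notions in the statement into the functions used in the proof.
-/

universe u

set_option linter.unusedSectionVars false

namespace Pool.Agent.SigB

variable {M : Type u} [Membership M M] [IsZFC M]

theorem isPair_iff {z x y : M} : IsPair z x y ↔ z = pr x y := by
  constructor
  · intro h
    exact ext' fun w => by rw [h w, mem_pr]
  · rintro rfl w
    exact mem_pr

theorem isOrdPair_iff {z x y : M} : IsOrdPair z x y ↔ z = op x y := by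
  constructor
  · intro h
    refine ext' fun w => ?_
    rw [h w, isPair_iff, isPair_iff]
    unfold op
    rw [mem_pr]
  · rintro rfl w
    rw [isPair_iff, isPair_iff]
    unfold op
    rw [mem_pr]

theorem val_iff {f x y : M} : Val f x y ↔ op x y ∈ f := by
  unfold Val
  constructor
  · rintro ⟨z, hz, h⟩
    rwa [isOrdPair_iff.1 h] at hz
  · intro h
    exact ⟨_, h, isOrdPair_iff.2 rfl⟩

theorem isMap_iff {f a b : M} : IsMap f a b ↔ f ∈ fs a b := by
  rw [mem_fs]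
  constructor
  · rintro ⟨h1, h2⟩
    have hf : Fn f a := by
      refine ⟨fun z hz => ?_, fun x hx => ?_⟩
      · obtain ⟨x, y, hx, -, h⟩ := h1 z hz
        exact ⟨x, hx, y, isOrdPair_iff.1 h⟩
      · obtain ⟨y, hy, hu⟩ := h2 x hx
        exact ⟨y, val_iff.1 hy, fun y' hy' => hu y' (val_iff.2 hy')⟩
    refine ⟨hf, fun x hx => ?_⟩
    obtain ⟨y, hy, -⟩ := h2 x hx
    rw [val_iff] at hy
    obtain ⟨x', y', -, hy', h⟩ := h1 _ hy
    obtain ⟨-, rfl⟩ := op_inj.1 (isOrdPair_iff.1 h)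
    rwa [(hf.op_mem_iff hx).1 hy]
  · rintro ⟨hf, hb⟩
    refine ⟨fun z hz => ?_, fun x hx => ?_⟩
    · obtain ⟨x, hx, rfl⟩ := hf.mem_iff.1 hz
      exact ⟨x, ap f x, hx, hb x hx, isOrdPair_iff.2 rfl⟩
    · refine ⟨ap f x, val_iff.2 ((hf.op_mem_iff hx).2 rfl), fun y hy => ?_⟩
      exact ((hf.op_mem_iff hx).1 (val_iff.1 hy)).symm

theorem val_map {f a b x y : M} (h : IsMap f a b) : Val f x y ↔ x ∈ a ∧ ap f x = y := by
  have hf := (mem_fs.1 (isMap_iff.1 h)).1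
  rw [val_iff]
  constructor
  · intro h1
    obtain ⟨x', hx', y', h2⟩ := hf.1 _ h1
    obtain ⟨rfl, rfl⟩ := op_inj.1 h2
    exact ⟨hx', (hf.op_mem_iff hx').1 h1⟩
  · rintro ⟨hx, rfl⟩
    exact (hf.op_mem_iff hx).2 rfl

theorem isInjection_iff {f a b : M} : IsInjection f a b ↔
    f ∈ fs a b ∧ ∀ x y, x ∈ a → y ∈ a → ap f x = ap f y → x = y := by
  constructor
  · rintro ⟨h1, h2⟩
    refine ⟨isMap_iff.1 h1, fun x y hx hy h => ?_⟩
    exact h2 x y (ap f y) ((val_map h1).2 ⟨hx, h⟩) ((val_map h1).2 ⟨hy, rfl⟩)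
  · rintro ⟨h1, h2⟩
    have h3 := isMap_iff.2 h1
    refine ⟨h3, fun x x' y hx hx' => ?_⟩
    rw [val_map h3] at hx hx'
    exact h2 x x' hx.1 hx'.1 (hx.2.trans hx'.2.symm)

theorem isInductive_iff {a : M} : IsInductive a ↔ em ∈ a ∧ ∀ x, x ∈ a → sc x ∈ a := by
  constructor
  · rintro ⟨⟨e, he, he'⟩, ha⟩
    refine ⟨?_, fun x hx => ?_⟩
    · have : e = em := ext' fun x => ⟨fun h => (he' x h).elim, fun h => (not_mem_em _ h).elim⟩
      rwa [← this]
    · obtain ⟨y, hy, hy'⟩ := ha x hx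
      have : y = sc x := ext' fun z => by rw [hy', mem_sc]
      rwa [← this]
  · rintro ⟨h1, h2⟩
    exact ⟨⟨em, h1, not_mem_em⟩, fun x hx => ⟨sc x, h2 x hx, fun z => mem_sc⟩⟩

theorem isOmega_iff {o : M} : IsOmega o ↔ o = om := by
  constructor
  · rintro ⟨h1, h2⟩
    refine Sb.antisymm ?_ ?_
    · exact h2 om (isInductive_iff.2 ⟨em_mem_om, fun x hx => sc_mem_om hx⟩)
    · intro n hn
      exact mem_om.1 hn o (isInductive_iff.1 h1)
  · rintro rfl
    refine ⟨isInductive_iff.2 ⟨em_mem_om, fun x hx => sc_mem_om hx⟩, fun a ha n hn => ?_⟩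
    exact mem_om.1 hn a (isInductive_iff.1 ha)

theorem IsMeasure.meas {u κ : M} (h : IsMeasure u κ) : Meas u κ := by
  refine ⟨⟨h.sub, h.univ, h.empty em not_mem_em, h.mono, ?_, ?_⟩, ?_, ?_⟩
  · intro X Y hX hY
    exact h.inter X Y (it X Y) hX hY fun z => mem_it
  · intro X hX
    exact h.ultra X (df κ X) hX fun z => mem_df
  · intro x _
    exact h.nonprincipal x _ (isPair_iff.2 rfl)
  · intro α g hα hg
    have hg' := isMap_iff.2 hg
    refine h.complete α g _ hα hg' fun z => ?_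
    rw [mem_sp (by simp (maxDischargeDepth := 50))]
    refine and_congr_right fun _ => ?_
    constructor
    · intro h1 i X hX
      obtain ⟨hi, rfl⟩ := (val_map hg').1 hX
      exact h1 i hi
    · intro h1 i hi
      exact h1 i (ap g i) ((val_map hg').2 ⟨hi, rfl⟩)

theorem IsMeasurable.spec {κ : M} (h : IsMeasurable κ) :
    Ord κ ∧ (om : M) ∈ κ ∧ ∃ u, Meas u κ := by
  obtain ⟨h1, ⟨o, ho, ho'⟩, u, hu⟩ := h
  rw [isOmega_iff.1 ho] at ho'
  exact ⟨h1.1, ho', u, hu.meas⟩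

theorem IsLimitOfMeasurables.hyp {κ : M} (h : IsLimitOfMeasurables κ) : ∃ c W, Hyp κ c W := by
  obtain ⟨o, c, ho, hc, hm, hlt, hsup⟩ := h
  rw [isOmega_iff.1 ho] at hc
  have hv := fun {x y : M} => val_map (x := x) (y := y) hc
  have hm' : ∀ n, n ∈ (om : M) → IsMeasurable (ap c n) := fun n hn => hm n _ (hv.2 ⟨hn, rfl⟩)
  have hsup' : ∀ x, x ∈ κ ↔ ∃ n, n ∈ (om : M) ∧ x ∈ ap c n := by
    intro x
    rw [hsup x]
    constructor
    · rintro ⟨n, a, h1, h2⟩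
      obtain ⟨h3, rfl⟩ := hv.1 h1
      exact ⟨n, h3, h2⟩
    · rintro ⟨n, h1, h2⟩
      exact ⟨n, ap c n, hv.2 ⟨h1, rfl⟩, h2⟩
  obtain ⟨W, -, hW⟩ := choice' (a := om) (b := pw (pw κ)) (P := fun n u => Meas u (ap c n))
    (by simp (maxDischargeDepth := 50)) (by
      intro n hn
      obtain ⟨-, -, u, hu⟩ := (hm' n hn).spec
      refine ⟨u, mem_pw.2 fun X hX => mem_pw.2 fun z hz => ?_, hu⟩
      exact (hsup' z).2 ⟨n, hn, hu.1.1 X hX z hz⟩)
  refine ⟨c, W, ⟨⟨?_, ?_⟩, ?_, ?_, ?_, hsup', hW⟩⟩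
  · intro y hy z hz
    obtain ⟨n, hn, hyn⟩ := (hsup' y).1 hy
    exact (hsup' z).2 ⟨n, hn, (hm' n hn).spec.1.1 y hyn z hz⟩
  · intro y hy
    obtain ⟨n, hn, hyn⟩ := (hsup' y).1 hy
    exact (hm' n hn).spec.1.2 y hyn
  · intro n hn
    exact (hm' n hn).spec.1
  · intro n hn
    exact hlt n (sc n) _ _ (mem_sc_self n) (hv.2 ⟨hn, rfl⟩) (hv.2 ⟨sc_mem_om hn, rfl⟩)
  · exact (hm' em em_mem_om).spec.2.1

/-- A definable well-ordering is given by a set of ordered pairs. -/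
theorem exists_rel {R : M → M → Prop} {D κ p : M} (hR : IsWellOrderingOf R D)
    (hd : SigmaOneDefinable R κ p) : ∃ r, WO r D ∧ ∀ x y, op x y ∈ r ↔ R x y := by
  obtain ⟨φ, hφ⟩ := hd
  have hRd : Dfn (fun w : Fin 1 → M => ∃ x, ∃ y, w 0 = op x y ∧ R x y) := by
    refine Dfn.ex (P := fun (w : Fin 1 → M) x => ∃ y, w 0 = op x y ∧ R x y) ?_
    refine Dfn.ex (P := fun (w : Fin 2 → M) y => w 1 = op (w 0) y ∧ R (w 0) y) ?_
    refine Dfn.and (by simp (maxDischargeDepth := 50)) ?_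
    have h1 : Dfn (fun w : Fin 3 → M => ∃ v, φ.Holds ![v, w 1, w 0, κ, p]) := by
      refine Dfn.ex (P := fun (w : Fin 3 → M) v => φ.Holds ![v, w 1, w 0, κ, p]) ?_
      refine dfn_sat φ (v := fun w : Fin 4 → M => ![w 0, w 2, w 1, κ, p]) fun i => ?_
      fin_cases i
      · exact DT.var 0
      · exact DT.var 2
      · exact DT.var 1
      · exact DT.const κ
      · exact DT.const p
    exact h1.congr fun w => (hφ _ _).symm
  have hmem : ∀ x y, op x y ∈ sp (pd D D) (fun z => ∃ x, ∃ y, z = op x y ∧ R x y) ↔ R x y := by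
    intro x y
    rw [mem_sp hRd, op_mem_pd]
    constructor
    · rintro ⟨-, x', y', h1, h2⟩
      obtain ⟨rfl, rfl⟩ := op_inj.1 h1
      exact h2
    · intro h
      exact ⟨hR.field x y h, x, y, rfl, h⟩
  refine ⟨sp (pd D D) fun z => ∃ x, ∃ y, z = op x y ∧ R x y, ⟨?_, ?_, ?_, ?_⟩, hmem⟩
  · intro z hz
    obtain ⟨-, x, y, rfl, h⟩ := (mem_sp hRd).1 hz
    exact ⟨x, (hR.field x y h).1, y, (hR.field x y h).2, rfl⟩
  · intro x y h1 h2
    exact hR.antisymm x y ((hmem x y).1 h1) ((hmem y x).1 h2)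
  · intro x y z h1 h2 h3 h4
    exact (hmem x z).2 (hR.trans x y z h1 h2 ((hmem x y).1 h3) ((hmem y z).1 h4))
  · intro S hS hne
    obtain ⟨m, hm, h1⟩ := hR.least S hS hne
    exact ⟨m, hm, fun x hx => (h1 x hx).imp id fun h2 => (hmem m x).2 h2⟩

theorem no_definable {κ D p : M} {R : M → M → Prop} (hκ : IsLimitOfMeasurables κ)
    (hD : ∀ x, x ∈ D → IsSub x κ) (hcard : CardGt D κ) (hR : IsWellOrderingOf R D)
    (hp : MemH κ p) (hd : SigmaOneDefinable R κ p) : False := by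
  obtain ⟨c, W, H⟩ := hκ.hyp
  obtain ⟨r, hr, hrR⟩ := exists_rel hR hd
  obtain ⟨t, α, f, ht, hpt, hα, hf⟩ := hp
  obtain ⟨φ, hφ⟩ := hd
  obtain ⟨hf1, hf2⟩ := isInjection_iff.1 hf
  refine H.main hr hD ?_ ht hpt hα hf1 hf2 (φ := φ) fun x y => (hrR x y).trans (hφ x y)
  rintro ⟨g, hg⟩
  exact hcard ⟨g, isInjection_iff.2 hg⟩

end Pool.Agent.SigB
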