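import Pool.Agent.SigB.Ult

/-!
The composition of two embeddings inside a model of ZFC.
-/

universe u

set_option linter.unusedSectionVars false

namespace Pool.Agent.SigB

open Filter

variable {M : Type u} [Membership M M] [IsZFC M]

/-- The slice of a function. -/
noncomputable def slc (K A J₁ f ω' : M) : M := lam (Om K A) fun ω => ap f (pc K J₁ ω ω')

@[simp] theorem dt_slc {n : ℕ} {k a j f w : (Fin n → M) → M} (hk : DT k) (ha : DT a) (hj : DT j)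
    (hf : DT f) (hw : DT w) : DT (fun v => slc (k v) (a v) (j v) (f v) (w v)) := by
  unfold slc
  exact dt_lam (F := fun v ω => ap (f v) (pc (k v) (j v) ω (w v))) (dt_Om hk ha)
    (dt_ap (hf.ren Fin.succ) (dt_pc (hk.ren Fin.succ) (hj.ren Fin.succ) (DT.var 0)
      (hw.ren Fin.succ)))

theorem slc.dt : DT (fun w : Fin 5 → M => slc (w 0) (w 1) (w 2) (w 3) (w 4)) :=
  dt_slc (DT.var 0) (DT.var 1) (DT.var 2) (DT.var 3) (DT.var 4)

theorem slc_fdt (K J₁ f ω' : M) :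
    DT (fun w : Fin 1 → M => ap f (pc K J₁ (w 0) ω')) :=
  dt_ap (DT.const f) (dt_pc (DT.const K) (DT.const J₁) (DT.var 0) (DT.const ω'))

theorem fn_slc (K A J₁ f ω' : M) : Fn (slc K A J₁ f ω') (Om K A) :=
  fn_lam (slc_fdt K J₁ f ω')

theorem ap_slc {K A J₁ f ω' ω : M} (hω : ω ∈ Om K A) :
    ap (slc K A J₁ f ω') ω = ap f (pc K J₁ ω ω') :=
  ap_lam (slc_fdt K J₁ f ω') hω

/-- The slices at points which agree outside of `J₁` (on the relevant coordinates) are equal. -/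
theorem slc_congr {K A J₁ f ω' ω'' s : M} (hJ : Sb s K) (hd : Df K A (ap f) s)
    (h' : ω' ∈ Om K A) (h'' : ω'' ∈ Om K A)
    (h : ∀ i, i ∈ s → i ∉ J₁ → ap ω' i = ap ω'' i) :
    slc K A J₁ f ω' = slc K A J₁ f ω'' := by
  refine (fn_slc K A J₁ f ω').ext (fn_slc K A J₁ f ω'') fun ω hω => ?_
  rw [ap_slc hω, ap_slc hω]
  refine hd _ _ (pc_mem hω h') (pc_mem hω h'') fun i hi => ?_
  by_cases hiJ : i ∈ J₁
  · rw [ap_pc_mem (hJ i hi) hiJ, ap_pc_mem (hJ i hi) hiJ]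
  · rw [ap_pc_not (hJ i hi) hiJ, ap_pc_not (hJ i hi) hiJ]
    exact h i hi hiJ

section

variable {K A U : M} (S : Sys K A U) {J₁ J₂ B : M} (hJ₁ : Sb J₁ K) (hJ₂ : Sb J₂ K)
  (hlt : ∀ i j, i ∈ J₁ → j ∈ J₂ → i ∈ j) (hB : ∀ i, i ∈ J₁ → Sb (ap A i) B)
  (hsm : ∀ j, j ∈ J₂ → Sm (ap U j) (ap A j) B) (hsm' : ∀ j, j ∈ J₂ → Sm (ap U j) (ap A j) J₁)
include S hJ₁ hJ₂ hlt hB hsm hsm'

theorem slc_mem {f ω' : M} (hf : f ∈ FS K A K (un J₁ J₂)) (hω' : ω' ∈ Om K A) :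
    slc K A J₁ f ω' ∈ FS K A K J₁ := by
  obtain ⟨hfs, s, hs, hsf, hd⟩ := mem_FS.1 hf
  have hsK : Sb s K := fun i hi => by
    rcases mem_un.1 (hs i hi) with h | h
    · exact hJ₁ i h
    · exact hJ₂ i h
  refine mem_FS.2 ⟨lam_mem_fs (slc_fdt K J₁ f ω') fun ω hω =>
    (mem_fs.1 hfs).2 _ (pc_mem hω hω'), it s J₁, fun i hi => (mem_it.1 hi).2,
    hsf.mono fun i hi => (mem_it.1 hi).1, fun x y hx hy hxy => ?_⟩
  rw [ap_slc hx, ap_slc hy]
  refine hd _ _ (pc_mem hx hω') (pc_mem hy hω') fun i hi => ?_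
  by_cases hiJ : i ∈ J₁
  · rw [ap_pc_mem (hsK i hi) hiJ, ap_pc_mem (hsK i hi) hiJ]
    exact hxy i (mem_it.2 ⟨hi, hiJ⟩)
  · rw [ap_pc_not (hsK i hi) hiJ, ap_pc_not (hsK i hi) hiJ]

/-- A family of functions with finite support in `J₁`, depending on finitely many coordinates in
`J₂`, is almost everywhere given by the slices of one function. -/
theorem exists_slc {s : M} (hs : Sb s J₂) (hf : Fi s) {Q : M → M → Prop}
    (hQ : Dfn (fun w : Fin 2 → M => Q (w 0) (w 1)))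
    (hd : ∀ x y, x ∈ Om K A → y ∈ Om K A → (∀ i, i ∈ s → ap x i = ap y i) →
      ∀ k, k ∈ FS K A K J₁ → (Q x k ↔ Q y k))
    (h : ∀ᶠ ω' in FF K A U, ∃ k, k ∈ FS K A K J₁ ∧ Q ω' k) :
    ∃ f, f ∈ FS K A K (un J₁ J₂) ∧ ∀ᶠ ω' in FF K A U, Q ω' (slc K A J₁ f ω') := by
  classical
  have hne := FF_neBot S
  obtain ⟨ω₀, ⟨k₀, hk₀, -⟩, hω₀⟩ := (h.and (ev_Om K A U)).exists
  -- a default element of `K`
  have he : ap k₀ ω₀ ∈ K := (mem_fs.1 (mem_FS.1 hk₀).1).2 _ hω₀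
  set e : M := ap k₀ ω₀ with he'
  -- the choice of the functions
  obtain ⟨g, hg, hgd, hgQ⟩ := exists_choice S (T := FS K A K J₁) (J := J₂) ⟨k₀, hk₀⟩ hs hf hQ hd
  have hgm : ∀ ω, ω ∈ Om K A → ap g ω ∈ FS K A K J₁ := (mem_fs.1 (mem_FS.1 hg).1).2
  -- the choice of the supports
  have hQ2 : Dfn (fun w : Fin 2 → M => Sb (w 1) J₁ ∧ Fi (w 1) ∧
      Df K A (ap (ap g (w 0))) (w 1)) := by
    refine Dfn.and (by simp) (Dfn.and (by simp) ?_)
    exact dfn_Df (F := fun (w : Fin 2 → M) x => ap (ap g (w 0)) x) (by simp) (by simp) (by simp)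
      (by simp)
  obtain ⟨p, hp, hpd, hpQ⟩ := exists_choice S (T := pw J₁) (J := J₂)
    (Q := fun x t => Sb t J₁ ∧ Fi t ∧ Df K A (ap (ap g x)) t)
    ⟨J₁, mem_pw.2 (Sb.refl _)⟩ hs hf hQ2 (by
      intro x y hx hy hxy z hz
      rw [hgd x y hx hy hxy])
  have hpm : ∀ ω, ω ∈ Om K A → Sb (ap p ω) J₁ ∧ Fi (ap p ω) ∧ Df K A (ap (ap g ω)) (ap p ω) := by
    intro ω hω
    refine hpQ ω hω ?_
    obtain ⟨-, t, ht1, ht2, ht3⟩ := mem_FS.1 (hgm ω hω)
    exact ⟨t, mem_pw.2 ht1, ht1, ht2, ht3⟩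
  obtain ⟨t, ht, htp⟩ := exists_const S (X := pw J₁) (J := J₂)
    (fun j hj => sm_pw (S.uf j (hJ₂ j hj)) (hsm' j hj)) hJ₂ hs hf (mem_FS.1 hp).1 hpd
  obtain ⟨ω₁, hω₁, hω₁'⟩ := (htp.and (ev_Om K A U)).exists
  have htF : Fi t := by rw [← hω₁]; exact (hpm ω₁ hω₁').2.1
  have htJ : Sb t J₁ := mem_pw.1 ht
  -- the function
  have hcd : Dfn (fun w : Fin 1 → M => Df K A (ap (ap g (w 0))) t) :=
    dfn_Df (F := fun (w : Fin 1 → M) x => ap (ap g (w 0)) x) (by simp) (by simp) (by simp)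
      (by simp)
  have hfd : DT (fun w : Fin 1 → M => if Df K A (ap (ap g (w 0))) t then ap (ap g (w 0)) (w 0)
      else e) := DT.ite hcd (by simp) (by simp)
  set F : M → M := fun ω => if Df K A (ap (ap g ω)) t then ap (ap g ω) ω else e with hF
  have hsK : Sb s K := hs.trans hJ₂
  have htK : Sb t K := htJ.trans hJ₁
  have hff : lam (Om K A) F ∈ FS K A K (un J₁ J₂) := by
    refine mem_FS.2 ⟨lam_mem_fs hfd fun ω hω => ?_, un t s, ?_, fi_un S.ord htK hsK htF hf, ?_⟩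
    · show F ω ∈ K
      rw [hF]
      dsimp only
      split_ifs with hc
      · exact (mem_fs.1 (mem_FS.1 (hgm ω hω)).1).2 _ hω
      · exact he
    · intro i hi
      rcases mem_un.1 hi with h | h
      · exact mem_un.2 (Or.inl (htJ i h))
      · exact mem_un.2 (Or.inr (hs i h))
    · intro x y hx hy hxy
      rw [ap_lam hfd hx, ap_lam hfd hy]
      have h1 : ap g x = ap g y := hgd x y hx hy fun i hi => hxy i (mem_un.2 (Or.inr hi))
      show F x = F y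
      rw [hF]
      dsimp only
      rw [h1]
      split_ifs with hc
      · exact hc x y hx hy fun i hi => hxy i (mem_un.2 (Or.inl hi))
      · rfl
  refine ⟨lam (Om K A) F, hff, ?_⟩
  filter_upwards [h, htp, ev_Om K A U] with ω' h1 h2 h3
  have hsl : slc K A J₁ (lam (Om K A) F) ω' = ap g ω' := by
    refine (fn_slc K A J₁ _ ω').ext (mem_fs.1 (mem_FS.1 (hgm ω' h3)).1).1 fun ω hω => ?_
    have hpc : pc K J₁ ω ω' ∈ Om K A := pc_mem hω h3
    rw [ap_slc hω, ap_lam hfd hpc]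
    show F (pc K J₁ ω ω') = _
    have h4 : ap g (pc K J₁ ω ω') = ap g ω' := by
      refine hgd _ _ hpc h3 fun i hi => ?_
      refine ap_pc_not (hsK i hi) fun hiJ => ?_
      exact not_mem_self i (hlt i i hiJ (hs i hi))
    rw [hF]
    dsimp only
    rw [h4]
    have h5 : Df K A (ap (ap g ω')) t := by rw [← h2]; exact (hpm ω' h3).2.2
    rw [if_pos h5]
    refine h5 _ _ hpc hω fun i hi => ?_
    exact ap_pc_mem (htK i hi) (htJ i hi)
  rw [hsl]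
  exact hgQ ω' h3 h1

end

/-- The column function. -/
noncomputable def cl (K A U J₁ f : M) : M :=
  lam (Om K A) fun ω' => ap (Co K A U K J₁) (slc K A J₁ f ω')

theorem cl_fdt (K A U J₁ f : M) :
    DT (fun w : Fin 1 → M => ap (Co K A U K J₁) (slc K A J₁ f (w 0))) :=
  dt_ap (DT.const _) (dt_slc (DT.const _) (DT.const _) (DT.const _) (DT.const _) (DT.var 0))

theorem dt_cl (K A U J₁ : M) : DT (fun w : Fin 1 → M => cl K A U J₁ (w 0)) := by
  unfold cl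
  refine dt_lam (F := fun (v : Fin 1 → M) ω' => ap (Co K A U K J₁) (slc K A J₁ (v 0) ω'))
    (DT.const _) ?_
  exact dt_ap (DT.const _) (dt_slc (DT.const _) (DT.const _) (DT.const _) (DT.var 1) (DT.var 0))

theorem ap_cl {K A U J₁ f ω' : M} (hω : ω' ∈ Om K A) :
    ap (cl K A U J₁ f) ω' = ap (Co K A U K J₁) (slc K A J₁ f ω') :=
  ap_lam (cl_fdt K A U J₁ f) hω

section

variable {K A U : M} (S : Sys K A U) {J₁ J₂ B : M} (hJ₁ : Sb J₁ K) (hJ₂ : Sb J₂ K)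
  (hlt : ∀ i j, i ∈ J₁ → j ∈ J₂ → i ∈ j) (hB : ∀ i, i ∈ J₁ → Sb (ap A i) B)
  (hsm : ∀ j, j ∈ J₂ → Sm (ap U j) (ap A j) B) (hsm' : ∀ j, j ∈ J₂ → Sm (ap U j) (ap A j) J₁)
  (hcl : ∀ g, g ∈ FS K A K J₁ → ap (Co K A U K J₁) g ∈ K)
include S hJ₁ hJ₂ hlt hB hsm hsm' hcl

theorem cl_mem {f : M} (hf : f ∈ FS K A K (un J₁ J₂)) : cl K A U J₁ f ∈ FS K A K J₂ := by
  obtain ⟨hfs, s, hs, hsf, hd⟩ := mem_FS.1 hf
  have hsK : Sb s K := fun i hi => by
    rcases mem_un.1 (hs i hi) with h | h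
    · exact hJ₁ i h
    · exact hJ₂ i h
  refine mem_FS.2 ⟨lam_mem_fs (cl_fdt K A U J₁ f) fun ω hω =>
    hcl _ (slc_mem S hJ₁ hJ₂ hlt hB hsm hsm' hf hω), it s J₂, fun i hi => (mem_it.1 hi).2,
    hsf.mono fun i hi => (mem_it.1 hi).1, fun x y hx hy hxy => ?_⟩
  rw [ap_cl hx, ap_cl hy, slc_congr hsK hd hx hy fun i hi hiJ => ?_]
  refine hxy i (mem_it.2 ⟨hi, ?_⟩)
  rcases mem_un.1 (hs i hi) with h | h
  · exact absurd h hiJ
  · exact h

/-- The transfer of a definable relation, which depends on finitely many coordinates, from the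
composition to one step. -/
theorem comp_aux {s : M} (hs : Sb s (un J₁ J₂)) (hf : Fi s) {R : M → M → Prop}
    (hR : Dfn (fun w : Fin 2 → M => R (w 0) (w 1)))
    (hd : ∀ x y, x ∈ Om K A → y ∈ Om K A → (∀ i, i ∈ s → ap x i = ap y i) →
      ∀ z, R x z ↔ R y z) (y : M) :
    (∃ h, h ∈ FS K A K J₂ ∧ (∀ᶠ ω' in FF K A U, ∃ k, k ∈ FS K A K J₁ ∧
      (∀ᶠ ω in FF K A U, R (pc K J₁ ω ω') (ap k ω)) ∧ ap h ω' = ap (Co K A U K J₁) k) ∧
      y = ap (Co K A U K J₂) h) ↔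
    ∃ g, g ∈ FS K A K (un J₁ J₂) ∧ (∀ᶠ ω in FF K A U, R ω (ap g ω)) ∧
      y = ap (Co K A U K J₂) (cl K A U J₁ g) := by
  have hKtr : Tr K := S.ord.1
  have hunK : Sb (un J₁ J₂) K := fun i hi => by
    rcases mem_un.1 hi with h | h
    · exact hJ₁ i h
    · exact hJ₂ i h
  -- the Fubini theorem for the relation `R`
  have hfub : ∀ g, g ∈ FS K A K (un J₁ J₂) → ((∀ᶠ ω in FF K A U, R ω (ap g ω)) ↔
      ∀ᶠ ω' in FF K A U, ∀ᶠ ω in FF K A U, R (pc K J₁ ω ω') (ap (slc K A J₁ g ω') ω)) := by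
    intro g hg
    obtain ⟨hgs, t, ht, htf, hgd⟩ := mem_FS.1 hg
    have h1 := fub_ge S hJ₁ hJ₂ hlt hB hsm hsm' (P := fun ω => R ω (ap g ω))
      (dfn2 hR (DT.var 0) (dt_ap (DT.const g) (DT.var 0))) (s := un s t)
      (fun i hi => by
        rcases mem_un.1 hi with h | h
        · exact hs i h
        · exact ht i h)
      (fi_un S.ord (hs.trans hunK) (ht.trans hunK) hf htf)
      (fun x y hx hy hxy => by
        show R x (ap g x) ↔ R y (ap g y)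
        rw [hgd x y hx hy fun i hi => hxy i (mem_un.2 (Or.inr hi))]
        exact hd x y hx hy (fun i hi => hxy i (mem_un.2 (Or.inl hi))) _)
    rw [h1]
    refine eventually_congr (Eventually.of_forall fun ω' => ?_)
    refine eventually_congr ?_
    filter_upwards [ev_Om K A U] with ω hω
    rw [ap_slc hω]
  constructor
  · rintro ⟨h, hh, hev, rfl⟩
    obtain ⟨hhs, t, ht, htf, hhd⟩ := mem_FS.1 hh
    obtain ⟨g, hg, hgQ⟩ := exists_slc S hJ₁ hJ₂ hlt hB hsm hsm' (s := un (it s J₂) t)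
      (Q := fun ω' k => (∀ᶠ ω in FF K A U, R (pc K J₁ ω ω') (ap k ω)) ∧
        ap h ω' = ap (Co K A U K J₁) k)
      (fun i hi => by
        rcases mem_un.1 hi with h | h
        · exact (mem_it.1 h).2
        · exact ht i h)
      (fi_un S.ord (fun i hi => hJ₂ i (mem_it.1 hi).2) (ht.trans hJ₂)
        (hf.mono fun i hi => (mem_it.1 hi).1) htf)
      (by
        refine Dfn.and ?_ (Dfn.eq (dt_ap (DT.const _) (DT.var 0))
          (dt_ap (DT.const _) (DT.var 1)))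
        refine dfn_ev (P := fun (v : Fin 2 → M) ω => R (pc K J₁ ω (v 0)) (ap (v 1) ω))
          (DT.const K) (DT.const A) (DT.const U) ?_
        exact dfn2 hR (dt_pc (DT.const _) (DT.const _) (DT.var 0) (DT.var 1))
          (dt_ap (DT.var 2) (DT.var 0)))
      (by
        intro x y hx hy hxy k hk
        have h1 : ap h x = ap h y := hhd x y hx hy fun i hi => hxy i (mem_un.2 (Or.inr hi))
        rw [h1]
        refine and_congr_left fun _ => ?_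
        refine eventually_congr ?_
        filter_upwards [ev_Om K A U] with ω hω
        refine hd _ _ (pc_mem hω hx) (pc_mem hω hy) (fun i hi => ?_) _
        have hiK := hunK i (hs i hi)
        by_cases hiJ : i ∈ J₁
        · rw [ap_pc_mem hiK hiJ, ap_pc_mem hiK hiJ]
        · rw [ap_pc_not hiK hiJ, ap_pc_not hiK hiJ]
          refine hxy i (mem_un.2 (Or.inl (mem_it.2 ⟨hi, ?_⟩)))
          rcases mem_un.1 (hs i hi) with h | h
          · exact absurd h hiJ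
          · exact h)
      hev
    refine ⟨g, hg, ?_, ?_⟩
    · rw [hfub g hg]
      exact hgQ.mono fun ω' h => h.1
    · refine Co_congr S hJ₂ hKtr hh (cl_mem S hJ₁ hJ₂ hlt hB hsm hsm' hcl hg) ?_
      filter_upwards [hgQ, ev_Om K A U] with ω' h1 h2
      rw [h1.2, ap_cl h2]
  · rintro ⟨g, hg, hev, rfl⟩
    refine ⟨cl K A U J₁ g, cl_mem S hJ₁ hJ₂ hlt hB hsm hsm' hcl hg, ?_, rfl⟩
    rw [hfub g hg] at hev
    filter_upwards [hev, ev_Om K A U] with ω' h1 h2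
    exact ⟨slc K A J₁ g ω', slc_mem S hJ₁ hJ₂ hlt hB hsm hsm' hg h2, h1, ap_cl h2⟩

/-- The collapse of the product with coordinates in `J₁ ∪ J₂`. -/
theorem Co_comp {f : M} (hf : f ∈ FS K A K (un J₁ J₂)) :
    ap (Co K A U K (un J₁ J₂)) f = ap (Co K A U K J₂) (cl K A U J₁ f) := by
  have hunK : Sb (un J₁ J₂) K := fun i hi => by
    rcases mem_un.1 hi with h | h
    · exact hJ₁ i h
    · exact hJ₂ i h
  have hcd : DT (fun w : Fin 1 → M => ap (Co K A U K J₂) (cl K A U J₁ (w 0))) :=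
    dt_ap (DT.const _) (dt_cl K A U J₁)
  have h1 : lam (FS K A K (un J₁ J₂)) (fun f => ap (Co K A U K J₂) (cl K A U J₁ f)) =
      Co K A U K (un J₁ J₂) := by
    refine Co_unique S hunK (fn_lam hcd) fun f hf y => ?_
    rw [ap_lam hcd hf, mem_Co S hJ₂ (cl_mem S hJ₁ hJ₂ hlt hB hsm hsm' hcl hf)]
    obtain ⟨hfs, s, hs, hsf, hd⟩ := mem_FS.1 hf
    have h2 := comp_aux S hJ₁ hJ₂ hlt hB hsm hsm' hcl hs hsf (R := fun ω z => z ∈ ap f ω)
      (Dfn.mem (DT.var 1) (dt_ap (DT.const f) (DT.var 0)))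
      (fun x y hx hy hxy z => by rw [hd x y hx hy hxy]) y
    constructor
    · rintro ⟨g, hg, hev, rfl⟩
      have h3 := h2.1 ⟨g, hg, ?_, rfl⟩
      · obtain ⟨k, hk, hk1, hk2⟩ := h3
        exact ⟨k, hk, hk1, by rw [ap_lam hcd hk]; exact hk2⟩
      · filter_upwards [hev, ev_Om K A U] with ω' h3 h4
        rw [ap_cl h4, mem_Co S hJ₁ (slc_mem S hJ₁ hJ₂ hlt hB hsm hsm' hf h4)] at h3
        obtain ⟨k, hk, hk1, hk2⟩ := h3
        refine ⟨k, hk, ?_, hk2⟩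
        filter_upwards [hk1, ev_Om K A U] with ω h5 h6
        rwa [ap_slc h6] at h5
    · rintro ⟨k, hk, hk1, hk2⟩
      rw [ap_lam hcd hk] at hk2
      obtain ⟨g, hg, hev, rfl⟩ := h2.2 ⟨k, hk, hk1, hk2⟩
      refine ⟨g, hg, ?_, rfl⟩
      filter_upwards [hev, ev_Om K A U] with ω' h3 h4
      obtain ⟨l, hl, hl1, hl2⟩ := h3
      rw [ap_cl h4, mem_Co S hJ₁ (slc_mem S hJ₁ hJ₂ hlt hB hsm hsm' hf h4)]
      refine ⟨l, hl, ?_, hl2⟩
      filter_upwards [hl1, ev_Om K A U] with ω h5 h6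
      rwa [ap_slc h6]
  rw [← h1, ap_lam hcd hf]

end

section

variable {K A U : M} (S : Sys K A U) {J₁ J₂ B : M} (hJ₁ : Sb J₁ K) (hJ₂ : Sb J₂ K)
  (hlt : ∀ i j, i ∈ J₁ → j ∈ J₂ → i ∈ j) (hB : ∀ i, i ∈ J₁ → Sb (ap A i) B)
  (hsm : ∀ j, j ∈ J₂ → Sm (ap U j) (ap A j) B) (hsm' : ∀ j, j ∈ J₂ → Sm (ap U j) (ap A j) J₁)
include S hJ₁ hJ₂ hlt hB hsm hsm'

/-- The composition lemma. -/
theorem Emb_comp (hcl : ∀ g, g ∈ FS K A K J₁ → ap (Co K A U K J₁) g ∈ K) {x : M}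
    (hx : Sb x K) : Emb K A U (un J₁ J₂) x = Emb K A U J₂ (Emb K A U J₁ x) := by
  refine ext' fun z => ?_
  rw [mem_Emb, mem_Emb]
  have h1 := comp_aux S hJ₁ hJ₂ hlt hB hsm hsm' hcl (s := em) (fun i hi => absurd hi (not_mem_em i))
    fi_em (R := fun _ z => z ∈ x) (Dfn.mem (DT.var 1) (DT.const x))
    (fun _ _ _ _ _ _ => Iff.rfl) z
  constructor
  · rintro ⟨g, hg, hev, rfl⟩
    obtain ⟨h, hh, hh1, hh2⟩ := h1.2 ⟨g, hg, hev,
      Co_comp S hJ₁ hJ₂ hlt hB hsm hsm' hcl hg⟩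
    refine ⟨h, hh, ?_, hh2⟩
    filter_upwards [hh1] with ω' h3
    rw [mem_Emb]
    exact h3
  · rintro ⟨h, hh, hev, rfl⟩
    obtain ⟨g, hg, hg1, hg2⟩ := h1.1 ⟨h, hh, hev.mono fun ω' h3 => mem_Emb.1 h3, rfl⟩
    exact ⟨g, hg, hg1, by rw [hg2, Co_comp S hJ₁ hJ₂ hlt hB hsm hsm' hcl hg]⟩

end

end Pool.Agent.SigB
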