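import Pool.Agent.SigB.Lev

/-!
Well-orderings and the counting argument inside a model of ZFC.
-/

universe u

set_option linter.unusedSectionVars false

namespace Pool.Agent.SigB

open Filter

variable {M : Type u} [Membership M M] [IsZFC M]

/-- The set `R` of ordered pairs is a well-ordering of `D` in the strict or in the reflexive
sense. -/
def WO (R D : M) : Prop :=
  (∀ z, z ∈ R → ∃ x, x ∈ D ∧ ∃ y, y ∈ D ∧ z = op x y) ∧
    (∀ x y, op x y ∈ R → op y x ∈ R → x = y) ∧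
    (∀ x y z, x ≠ y → y ≠ z → op x y ∈ R → op y z ∈ R → op x z ∈ R) ∧
    ∀ S, Sb S D → (∃ x, x ∈ S) → ∃ m, m ∈ S ∧ ∀ x, x ∈ S → x = m ∨ op m x ∈ R

theorem WO.total {R D : M} (h : WO R D) {x y : M} (hx : x ∈ D) (hy : y ∈ D) (hne : x ≠ y) :
    op x y ∈ R ∨ op y x ∈ R := by
  obtain ⟨m, hm, h1⟩ := h.2.2.2 (pr x y) (fun z hz => by
    rcases mem_pr.1 hz with rfl | rfl <;> assumption) ⟨x, by simp⟩
  rcases mem_pr.1 hm with rfl | rfl
  · rcases h1 y (by simp) with h2 | h2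
    · exact absurd h2.symm hne
    · exact Or.inl h2
  · rcases h1 x (by simp) with h2 | h2
    · exact absurd h2 hne
    · exact Or.inr h2

/-- An order preserving injective class function of `D` into `D` is inflationary. -/
theorem WO.infl {R D : M} (h : WO R D) {F : M → M} (hF : DT (fun w : Fin 1 → M => F (w 0)))
    (hR : ∀ x y, op x y ∈ R → op (F x) (F y) ∈ R) (hD : ∀ x, x ∈ D → F x ∈ D)
    (hinj : ∀ x y, x ∈ D → y ∈ D → F x = F y → x = y) {x : M} (hx : x ∈ D) (hne : F x ≠ x) :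
    op x (F x) ∈ R := by
  rcases h.total hx (hD x hx) hne.symm with h1 | h1
  · exact h1
  exfalso
  have hd : Dfn (fun w : Fin 1 → M => F (w 0) ≠ w 0 ∧ op (F (w 0)) (w 0) ∈ R) := by
    simp (maxDischargeDepth := 50) [hF]
  obtain ⟨m, hm, h2⟩ := h.2.2.2 (sp D fun z => F z ≠ z ∧ op (F z) z ∈ R)
    (fun z hz => ((mem_sp hd).1 hz).1) ⟨x, (mem_sp hd).2 ⟨hx, hne, h1⟩⟩
  rw [mem_sp hd] at hm
  obtain ⟨hmD, hm1, hm2⟩ := hm
  have h3 : F m ∈ sp D fun z => F z ≠ z ∧ op (F z) z ∈ R :=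
    (mem_sp hd).2 ⟨hD m hmD, fun h4 => hm1 (hinj _ _ (hD m hmD) hmD h4), hR _ _ hm2⟩
  rcases h2 _ h3 with h4 | h4
  · exact hm1 h4
  · exact hm1 (h.2.1 _ _ hm2 h4)

/-- If every `x ∈ D` is determined by a natural number `n` and `x ∩ c n` then there is an injection
of `D` into `K`. -/
theorem count {K c W : M} (H : Hyp K c W) {R D : M} (hR : WO R D) {N : M → M}
    (hN : DT (fun w : Fin 1 → M => N (w 0))) (hNom : ∀ x, x ∈ D → N x ∈ (om : M))
    (hdet : ∀ x y, x ∈ D → y ∈ D → N x = N y → it x (ap c (N x)) = it y (ap c (N y)) → x = y) :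
    ∃ f, f ∈ fs D K ∧ ∀ x y, x ∈ D → y ∈ D → ap f x = ap f y → x = y := by
  -- the lexicographic order
  let Q : M → M → Prop := fun x y => N x ∈ N y ∨ (N x = N y ∧ x ≠ y ∧ op x y ∈ R)
  let r : M := sp (pd D D) fun z => ∃ x, ∃ y, z = op x y ∧ Q x y
  have hrd : Dfn (fun w : Fin 1 → M => ∃ x, ∃ y, w 0 = op x y ∧
      (N x ∈ N y ∨ (N x = N y ∧ x ≠ y ∧ op x y ∈ R))) := by
    simp (maxDischargeDepth := 50) [dt1 hN]
  have hr : ∀ x y, op x y ∈ r ↔ x ∈ D ∧ y ∈ D ∧ Q x y := by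
    intro x y
    show op x y ∈ sp _ _ ↔ _
    rw [mem_sp hrd, op_mem_pd]
    constructor
    · rintro ⟨h1, x', y', h2, h3⟩
      obtain ⟨rfl, rfl⟩ := op_inj.1 h2
      exact ⟨h1.1, h1.2, h3⟩
    · rintro ⟨h1, h2, h3⟩
      exact ⟨⟨h1, h2⟩, x, y, rfl, h3⟩
  have hNord : ∀ x, x ∈ D → Ord (N x) := fun x hx => om_ord.mem (hNom x hx)
  have htrans : ∀ x y z, op x y ∈ r → op y z ∈ r → op x z ∈ r := by
    intro x y z h1 h2
    rw [hr] at h1 h2 ⊢
    refine ⟨h1.1, h2.2.1, ?_⟩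
    rcases h1.2.2 with h3 | ⟨h3, h4, h5⟩
    · rcases h2.2.2 with h6 | ⟨h6, h7, h8⟩
      · exact Or.inl ((hNord z h2.2.1).1 _ h6 _ h3)
      · left; rw [← h6]; exact h3
    · rcases h2.2.2 with h6 | ⟨h6, h7, h8⟩
      · left; rw [h3]; exact h6
      · refine Or.inr ⟨h3.trans h6, ?_, hR.2.2.1 x y z h4 h7 h5 h8⟩
        rintro rfl
        exact h4 (hR.2.1 _ _ h5 h8)
  have htot : ∀ x y, x ∈ D → y ∈ D → x ≠ y → op x y ∈ r ∨ op y x ∈ r := by
    intro x y hx hy hxy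
    rw [hr, hr]
    rcases (hNord x hx).tri (hNord y hy) with h1 | h1 | h1
    · exact Or.inl ⟨hx, hy, Or.inl h1⟩
    · rcases hR.total hx hy hxy with h2 | h2
      · exact Or.inl ⟨hx, hy, Or.inr ⟨h1, hxy, h2⟩⟩
      · exact Or.inr ⟨hy, hx, Or.inr ⟨h1.symm, hxy.symm, h2⟩⟩
    · exact Or.inr ⟨hy, hx, Or.inl h1⟩
  have hwf : Wf D r := by
    intro S hS hne
    obtain ⟨x₀, hx₀⟩ := hne
    have hd1 : Dfn (fun w : Fin 1 → M => ∃ x, x ∈ S ∧ N x = w 0) := by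
      simp (maxDischargeDepth := 50) [dt1 hN]
    obtain ⟨n, hn, ⟨x₁, hx₁, hx₁n⟩, hmin⟩ := om_ord.least (P := fun n => ∃ x, x ∈ S ∧ N x = n) hd1
      ⟨N x₀, hNom x₀ (hS x₀ hx₀), x₀, hx₀, rfl⟩
    have hd2 : Dfn (fun w : Fin 1 → M => N (w 0) = n) := by
      simp (maxDischargeDepth := 50) [dt1 hN]
    obtain ⟨m, hm, h1⟩ := hR.2.2.2 (sp S fun x => N x = n)
      (fun z hz => hS z ((mem_sp hd2).1 hz).1) ⟨x₁, (mem_sp hd2).2 ⟨hx₁, hx₁n⟩⟩
    rw [mem_sp hd2] at hm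
    refine ⟨m, hm.1, fun y hy hym => ?_⟩
    rw [hr] at hym
    rcases hym.2.2 with h2 | ⟨h2, h3, h4⟩
    · rw [hm.2] at h2
      exact hmin _ h2 ⟨y, hy, rfl⟩
    · rcases h1 y ((mem_sp hd2).2 ⟨hy, h2.trans hm.2⟩) with h5 | h5
      · exact h3 h5
      · exact h3 (hR.2.1 _ _ h4 h5)
  obtain ⟨f, hf, hcol⟩ := exists_collapse hwf
  have hfr : ∀ x y, op x y ∈ r → ap f x ∈ ap f y := fun x y h => by
    have h' := (hr x y).1 h
    exact (hcol y h'.2.1 _).2 ⟨x, h'.1, h, rfl⟩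
  have hTr : ∀ x, x ∈ D → Tr (ap f x) := by
    intro x hx y hy u hu
    obtain ⟨y', hy', h1, rfl⟩ := (hcol x hx _).1 hy
    obtain ⟨u', hu', h2, rfl⟩ := (hcol y' hy' _).1 hu
    exact hfr _ _ (htrans _ _ _ h2 h1)
  have hOrd : ∀ x, x ∈ D → Ord (ap f x) := fun x hx => ⟨hTr x hx, fun y hy => by
    obtain ⟨y', hy', -, rfl⟩ := (hcol x hx _).1 hy
    exact hTr y' hy'⟩
  refine ⟨f, mem_fs.2 ⟨hf, fun x hx => ?_⟩, fun x y hx hy hxy => ?_⟩
  · -- the initial segment of `x` is small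
    have hn := hNom x hx
    have hn1 := sc_mem_om hn
    have hM := H.meas _ hn1
    have hO := H.co _ hn1
    have hs1 : Sm (ap W (sc (N x))) (ap c (sc (N x))) (ap c (N x)) := hM.small hO (H.mono _ hn)
    have hs2 : Sm (ap W (sc (N x))) (ap c (sc (N x))) (sc (N x)) :=
      (hM.small hO (H.om_mem hn1)).sub hM.1 (om_ord.1 _ hn1)
    have hs3 := sm_pd hM.1 hs2 (sm_pw hM.1 hs1)
    have hle : ∀ y, y ∈ prd D r x → N y ∈ sc (N x) := by
      intro y hy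
      have h1 := (hr y x).1 (mem_prd.1 hy).2
      rcases h1.2.2 with h2 | ⟨h2, -, -⟩
      · exact mem_sc.2 (Or.inl h2)
      · exact mem_sc.2 (Or.inr h2)
    have hs4 : Sm (ap W (sc (N x))) (ap c (sc (N x))) (prd D r x) := by
      refine hs3.inj hM.1 (F := fun y => op (N y) (it y (ap c (N y)))) ?_ ?_ ?_
      · simp (maxDischargeDepth := 50) [dt1 hN]
      · intro y hy
        refine op_mem_pd.2 ⟨hle y hy, mem_pw.2 fun z hz => ?_⟩
        exact H.sb hn (hle y hy) z (mem_it.1 hz).2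
      · intro y y' hy hy' h1
        obtain ⟨h2, h3⟩ := op_inj.1 h1
        exact hdet y y' (mem_prd.1 hy).1 (mem_prd.1 hy').1 h2 h3
    have hs5 : Sm (ap W (sc (N x))) (ap c (sc (N x))) (ap f x) := by
      refine hs4.image hM.1 (F := fun y => ap f y) (by simp) fun z hz => ?_
      obtain ⟨y, hy, h1, rfl⟩ := (hcol x hx z).1 hz
      exact ⟨y, mem_prd.2 ⟨hy, h1⟩, rfl⟩
    exact H.sb_K hn1 _ (hM.lt_of_small hO (hOrd x hx) hs5)
  · by_contra hne
    rcases htot x y hx hy hne with h1 | h1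
    · have h2 := hfr _ _ h1
      rw [hxy] at h2
      exact not_mem_self _ h2
    · have h2 := hfr _ _ h1
      rw [hxy] at h2
      exact not_mem_self _ h2

end Pool.Agent.SigB
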