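import Mathlib

/-!
Models of ZFC, formulas with bounded quantifiers, and the notions of set theory used in the
statement, evaluated in a structure `(M, ∈)`.
-/

universe u

namespace Pool.Agent.SigB

/-- The first-order formulas of set theory with `n` free variables and with parameters from `M`.
In `ex φ` the bound variable is the variable `0` of `φ` and the free variables are shifted. -/
inductive Fml (M : Type u) : ℕ → Type u
  | mem {n : ℕ} (s t : Fin n ⊕ M) : Fml M n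
  | eq {n : ℕ} (s t : Fin n ⊕ M) : Fml M n
  | neg {n : ℕ} (φ : Fml M n) : Fml M n
  | and {n : ℕ} (φ ψ : Fml M n) : Fml M n
  | ex {n : ℕ} (φ : Fml M (n + 1)) : Fml M n

/-- The formulas of set theory with bounded quantifiers only, with free variables `0, …, n - 1`.
In `bex i φ` the bound variable is the variable `0` of `φ` and the free variables are shifted. -/
inductive D0 : ℕ → Type
  | mem {n : ℕ} (i j : Fin n) : D0 n
  | eq {n : ℕ} (i j : Fin n) : D0 n
  | neg {n : ℕ} (φ : D0 n) : D0 n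
  | and {n : ℕ} (φ ψ : D0 n) : D0 n
  | bex {n : ℕ} (i : Fin n) (φ : D0 (n + 1)) : D0 n

variable {M : Type u} [Membership M M]

/-- Satisfaction of a formula in the structure `(M, ∈)`. -/
def Fml.Sat : ∀ {n : ℕ}, Fml M n → (Fin n → M) → Prop
  | _, .mem s t, v => Sum.elim v id s ∈ Sum.elim v id t
  | _, .eq s t, v => Sum.elim v id s = Sum.elim v id t
  | _, .neg φ, v => ¬ φ.Sat v
  | _, .and φ ψ, v => φ.Sat v ∧ ψ.Sat v
  | _, .ex φ, v => ∃ x : M, φ.Sat (Fin.cons x v)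

/-- Satisfaction of a formula with bounded quantifiers in the structure `(M, ∈)`. -/
def D0.Holds : ∀ {n : ℕ}, D0 n → (Fin n → M) → Prop
  | _, .mem i j, v => v i ∈ v j
  | _, .eq i j, v => v i = v j
  | _, .neg φ, v => ¬ φ.Holds v
  | _, .and φ ψ, v => φ.Holds v ∧ ψ.Holds v
  | _, .bex i φ, v => ∃ z : M, z ∈ v i ∧ φ.Holds (Fin.cons z v)

/-- The structure `(M, ∈)` is a model of ZFC. The schemes of separation and replacement are
required for all first-order formulas with parameters from `M`. -/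
class IsZFC (M : Type u) [Membership M M] : Prop where
  ext : ∀ x y : M, (∀ z : M, z ∈ x ↔ z ∈ y) → x = y
  found : ∀ x : M, (∃ y : M, y ∈ x) → ∃ y : M, y ∈ x ∧ ∀ z : M, z ∈ y → z ∉ x
  pairing : ∀ x y : M, ∃ z : M, x ∈ z ∧ y ∈ z
  union : ∀ x : M, ∃ u : M, ∀ y z : M, z ∈ y → y ∈ x → z ∈ u
  power : ∀ x : M, ∃ p : M, ∀ y : M, (∀ z : M, z ∈ y → z ∈ x) → y ∈ p
  infinity : ∃ x : M, (∃ e : M, e ∈ x ∧ ∀ z : M, z ∉ e) ∧
    ∀ y : M, y ∈ x → ∃ s : M, s ∈ x ∧ ∀ z : M, z ∈ s ↔ z ∈ y ∨ z = y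
  separation : ∀ (φ : Fml M 1) (a : M), ∃ b : M, ∀ x : M, x ∈ b ↔ x ∈ a ∧ φ.Sat ![x]
  replacement : ∀ (φ : Fml M 2) (a : M), (∀ x : M, x ∈ a → ∃! y : M, φ.Sat ![x, y]) →
    ∃ b : M, ∀ x : M, x ∈ a → ∃ y : M, y ∈ b ∧ φ.Sat ![x, y]
  choice : ∀ a : M, (∀ x : M, x ∈ a → ∃ y : M, y ∈ x) →
    (∀ x y : M, x ∈ a → y ∈ a → x ≠ y → ∀ z : M, z ∈ x → z ∉ y) →
    ∃ c : M, ∀ x : M, x ∈ a → ∃! y : M, y ∈ x ∧ y ∈ c

/-- `x ⊆ y`. -/
def IsSub (x y : M) : Prop := ∀ z, z ∈ x → z ∈ y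

/-- `z = {x, y}`. -/
def IsPair (z x y : M) : Prop := ∀ w, w ∈ z ↔ w = x ∨ w = y

/-- `z = (x, y) = {{x}, {x, y}}`. -/
def IsOrdPair (z x y : M) : Prop := ∀ w, w ∈ z ↔ IsPair w x x ∨ IsPair w x y

/-- The pair `(x, y)` belongs to `f`; if `f` is a function, this says `f x = y`. -/
def Val (f x y : M) : Prop := ∃ z, z ∈ f ∧ IsOrdPair z x y

/-- `f` is a function from `a` to `b`. -/
def IsMap (f a b : M) : Prop :=
  (∀ z, z ∈ f → ∃ x y, x ∈ a ∧ y ∈ b ∧ IsOrdPair z x y) ∧ ∀ x, x ∈ a → ∃! y, Val f x y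

/-- `f` is an injective function from `a` to `b`. -/
def IsInjection (f a b : M) : Prop :=
  IsMap f a b ∧ ∀ x x' y, Val f x y → Val f x' y → x = x'

/-- The set `x` is transitive. -/
def IsTransitive (x : M) : Prop := ∀ y, y ∈ x → IsSub y x

/-- `x` is an ordinal: a transitive set of transitive sets. -/
def IsOrdinal (x : M) : Prop := IsTransitive x ∧ ∀ y, y ∈ x → IsTransitive y

/-- `x` is a cardinal: an ordinal which does not inject into any of its elements. -/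
def IsCardinal (x : M) : Prop := IsOrdinal x ∧ ∀ y f, y ∈ x → ¬ IsInjection f x y

/-- `a` contains `∅` and is closed under `x ↦ x ∪ {x}`. -/
def IsInductive (a : M) : Prop :=
  (∃ e, e ∈ a ∧ ∀ z, z ∉ e) ∧ ∀ x, x ∈ a → ∃ y, y ∈ a ∧ ∀ z, z ∈ y ↔ z ∈ x ∨ z = x

/-- `o = ω`: the least inductive set. -/
def IsOmega (o : M) : Prop := IsInductive o ∧ ∀ a, IsInductive a → IsSub o a

/-- `u` is a nonprincipal ultrafilter on `κ` which is `κ`-complete, that is, closed under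
intersections of sequences of length `α` for all `α ∈ κ`. -/
structure IsMeasure (u κ : M) : Prop where
  sub : ∀ X, X ∈ u → IsSub X κ
  univ : κ ∈ u
  empty : ∀ X, (∀ z, z ∉ X) → X ∉ u
  mono : ∀ X Y, X ∈ u → IsSub X Y → IsSub Y κ → Y ∈ u
  inter : ∀ X Y Z, X ∈ u → Y ∈ u → (∀ z, z ∈ Z ↔ z ∈ X ∧ z ∈ Y) → Z ∈ u
  ultra : ∀ X Y, IsSub X κ → (∀ z, z ∈ Y ↔ z ∈ κ ∧ z ∉ X) → X ∈ u ∨ Y ∈ u
  nonprincipal : ∀ x X, IsPair X x x → X ∉ u
  complete : ∀ α g Z, α ∈ κ → IsMap g α u →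
    (∀ z, z ∈ Z ↔ z ∈ κ ∧ ∀ i X, Val g i X → z ∈ X) → Z ∈ u

/-- `κ` is a measurable cardinal: an uncountable cardinal with a nonprincipal `κ`-complete
ultrafilter on it. (A cardinal `κ` with `ω ∈ κ` is uncountable.) -/
def IsMeasurable (κ : M) : Prop :=
  IsCardinal κ ∧ (∃ o, IsOmega o ∧ o ∈ κ) ∧ ∃ u, IsMeasure u κ

/-- `κ` is a limit of `ω`-many measurable cardinals: `κ = sup c n` for a strictly increasing
sequence `c` of measurable cardinals indexed by `ω`. -/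
def IsLimitOfMeasurables (κ : M) : Prop :=
  ∃ o c, IsOmega o ∧ IsMap c o κ ∧ (∀ n a, Val c n a → IsMeasurable a) ∧
    (∀ m n a b, m ∈ n → Val c m a → Val c n b → a ∈ b) ∧
    ∀ x, x ∈ κ ↔ ∃ n a, Val c n a ∧ x ∈ a

/-- The cardinality of `D` is greater than `κ`: there is no injective function from `D` to `κ`. -/
def CardGt (D κ : M) : Prop := ¬ ∃ f, IsInjection f D κ

/-- `p ∈ H(κ)`: some transitive set containing `p` has cardinality less than `κ`. -/
def MemH (κ p : M) : Prop :=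
  ∃ t α f, IsTransitive t ∧ p ∈ t ∧ α ∈ κ ∧ IsInjection f t α

/-- The relation `R` on `M` is a well-ordering of `D` in the sense of `(M, ∈)`, strict or
reflexive: `R` relates only elements of `D`, it is a linear order of `D`, and every nonempty subset
of `D` which belongs to `M` has a least element. -/
structure IsWellOrderingOf (R : M → M → Prop) (D : M) : Prop where
  field : ∀ x y, R x y → x ∈ D ∧ y ∈ D
  antisymm : ∀ x y, R x y → R y x → x = y
  trans : ∀ x y z, x ≠ y → y ≠ z → R x y → R y z → R x z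
  total : ∀ x y, x ∈ D → y ∈ D → x = y ∨ R x y ∨ R y x
  least : ∀ S : M, IsSub S D → (∃ x, x ∈ S) → ∃ m, m ∈ S ∧ ∀ x, x ∈ S → x = m ∨ R m x

/-- The relation `R` on `M` is definable in `(M, ∈)` by a `Σ₁`-formula `∃ w, φ` (where `φ` has only
bounded quantifiers) with the parameters `κ` and `p`. -/
def SigmaOneDefinable (R : M → M → Prop) (κ p : M) : Prop :=
  ∃ φ : D0 5, ∀ x y, R x y ↔ ∃ w, φ.Holds ![w, x, y, κ, p]

end Pool.Agent.SigB
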