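import Pool.Agent.SigB.Defs

/-!
The class of definable predicates of a structure and its closure properties.
-/

universe u

set_option linter.unusedSectionVars false

namespace Pool.Agent.SigB

variable {M : Type u} [Membership M M]

/-- Renaming of variables. -/
def liftRen {n m : ℕ} (f : Fin n → Fin m) : Fin (n + 1) → Fin (m + 1) :=
  Fin.cases 0 (fun i => (f i).succ)

def Fml.ren : ∀ {n m : ℕ}, Fml M n → (Fin n → Fin m) → Fml M m
  | _, _, .mem s t, f => .mem (Sum.map f id s) (Sum.map f id t)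
  | _, _, .eq s t, f => .eq (Sum.map f id s) (Sum.map f id t)
  | _, _, .neg φ, f => .neg (φ.ren f)
  | _, _, .and φ ψ, f => .and (φ.ren f) (ψ.ren f)
  | _, _, .ex φ, f => .ex (φ.ren (liftRen f))

theorem Fml.sat_ren : ∀ {n m : ℕ} (φ : Fml M n) (f : Fin n → Fin m) (v : Fin m → M),
    (φ.ren f).Sat v ↔ φ.Sat (fun i => v (f i))
  | _, _, .mem s t, f, v => by
    show Sum.elim v id (Sum.map f id s) ∈ Sum.elim v id (Sum.map f id t) ↔ _
    rcases s with s | s <;> rcases t with t | t <;> rfl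
  | _, _, .eq s t, f, v => by
    show Sum.elim v id (Sum.map f id s) = Sum.elim v id (Sum.map f id t) ↔ _
    rcases s with s | s <;> rcases t with t | t <;> rfl
  | _, _, .neg φ, f, v => not_congr (φ.sat_ren f v)
  | _, _, .and φ ψ, f, v => and_congr (φ.sat_ren f v) (ψ.sat_ren f v)
  | _, _, .ex φ, f, v => by
    show (∃ x, (φ.ren (liftRen f)).Sat (Fin.cons x v)) ↔ ∃ x, φ.Sat (Fin.cons x fun i => v (f i))
    refine exists_congr fun x => ?_
    rw [φ.sat_ren]
    have : (fun i => (Fin.cons x v : Fin _ → M) (liftRen f i)) =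
        (Fin.cons x fun i => v (f i) : Fin _ → M) := by
      funext i
      refine Fin.cases ?_ (fun i => ?_) i <;> simp [liftRen]
    rw [this]

/-- The predicate `P` is definable with parameters. -/
def Dfn {n : ℕ} (P : (Fin n → M) → Prop) : Prop := ∃ φ : Fml M n, ∀ v, P v ↔ φ.Sat v

/-- The function `t` is definable with parameters. -/
def DT {n : ℕ} (t : (Fin n → M) → M) : Prop :=
  Dfn (fun w : Fin (n + 1) → M => w 0 = t (fun i => w i.succ))

variable {n m : ℕ} {P Q : (Fin n → M) → Prop}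

theorem Dfn.congr (h : Dfn P) (h' : ∀ v, P v ↔ Q v) : Dfn Q := by
  have : P = Q := funext fun v => propext (h' v)
  rwa [← this]

theorem Dfn.ren (h : Dfn P) (f : Fin n → Fin m) : Dfn (fun w : Fin m → M => P fun i => w (f i)) := by
  obtain ⟨φ, hφ⟩ := h
  exact ⟨φ.ren f, fun v => by rw [φ.sat_ren]; exact hφ _⟩

theorem Dfn.not (h : Dfn P) : Dfn (fun v => ¬ P v) := by
  obtain ⟨φ, hφ⟩ := h
  exact ⟨.neg φ, fun v => not_congr (hφ v)⟩

theorem Dfn.and (h : Dfn P) (h' : Dfn Q) : Dfn (fun v => P v ∧ Q v) := by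
  obtain ⟨φ, hφ⟩ := h
  obtain ⟨ψ, hψ⟩ := h'
  exact ⟨.and φ ψ, fun v => and_congr (hφ v) (hψ v)⟩

theorem Dfn.ex {P : (Fin n → M) → M → Prop}
    (h : Dfn (fun w : Fin (n + 1) → M => P (fun i => w i.succ) (w 0))) :
    Dfn (fun v => ∃ x, P v x) := by
  obtain ⟨φ, hφ⟩ := h
  refine ⟨.ex φ, fun v => exists_congr fun x => ?_⟩
  have := hφ (Fin.cons x v)
  simpa using this

theorem Dfn.or (h : Dfn P) (h' : Dfn Q) : Dfn (fun v => P v ∨ Q v) :=
  ((h.not.and h'.not).not).congr fun v => by tauto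

theorem Dfn.imp (h : Dfn P) (h' : Dfn Q) : Dfn (fun v => P v → Q v) :=
  ((h.and h'.not).not).congr fun v => by tauto

theorem Dfn.iff (h : Dfn P) (h' : Dfn Q) : Dfn (fun v => P v ↔ Q v) :=
  ((h.imp h').and (h'.imp h)).congr fun v => by tauto

theorem Dfn.all {P : (Fin n → M) → M → Prop}
    (h : Dfn (fun w : Fin (n + 1) → M => P (fun i => w i.succ) (w 0))) :
    Dfn (fun v => ∀ x, P v x) :=
  (Dfn.ex (P := fun v x => ¬ P v x) h.not).not.congr fun v => by simp

theorem Dfn.true : Dfn (fun _ : Fin n → M => True) := by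
  by_cases hM : Nonempty M
  · obtain ⟨a⟩ := hM
    exact ⟨.eq (.inr a) (.inr a), fun v => by simp [Fml.Sat]⟩
  · exact ⟨.neg (.ex (.eq (.inl 0) (.inl 0))), fun v => by
      simp only [Fml.Sat, true_iff, not_exists]
      exact fun x => (hM ⟨x⟩).elim⟩

theorem Dfn.const (p : Prop) : Dfn (fun _ : Fin n → M => p) := by
  by_cases hp : p
  · exact Dfn.true.congr fun v => by simp [hp]
  · exact Dfn.true.not.congr fun v => by simp [hp]

/-- Substitution of a definable function for the variable `0`. -/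
theorem Dfn.sub {P : (Fin n → M) → M → Prop} {t : (Fin n → M) → M}
    (h : Dfn (fun w : Fin (n + 1) → M => P (fun i => w i.succ) (w 0))) (ht : DT t) :
    Dfn (fun v => P v (t v)) :=
  (Dfn.ex (P := fun v x => x = t v ∧ P v x) (Dfn.and ht h)).congr fun v => by simp

theorem DT.ren {t : (Fin n → M) → M} (ht : DT t) (f : Fin n → Fin m) :
    DT (fun w : Fin m → M => t fun i => w (f i)) := by
  have := Dfn.ren ht (liftRen f)
  refine this.congr fun w => ?_
  simp [liftRen]

theorem DT.var (i : Fin n) : DT (fun w : Fin n → M => w i) :=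
  ⟨.eq (.inl 0) (.inl i.succ), fun v => by simp [Fml.Sat]⟩

theorem DT.const (a : M) : DT (fun _ : Fin n → M => a) :=
  ⟨.eq (.inl 0) (.inr a), fun v => by simp [Fml.Sat]⟩

theorem dfn1 {R : M → Prop} (h : Dfn (fun w : Fin 1 → M => R (w 0))) {s : (Fin n → M) → M}
    (hs : DT s) : Dfn (fun v => R (s v)) :=
  Dfn.sub (P := fun _ x => R x) (h.ren (m := n + 1) (fun _ => 0)) hs

theorem dfn2 {R : M → M → Prop} (h : Dfn (fun w : Fin 2 → M => R (w 0) (w 1)))
    {s t : (Fin n → M) → M} (hs : DT s) (ht : DT t) : Dfn (fun v => R (s v) (t v)) := by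
  refine Dfn.sub (P := fun v x => R x (t v)) ?_ hs
  refine Dfn.sub (P := fun (w : Fin (n + 1) → M) y => R (w 0) y) ?_ (ht.ren Fin.succ)
  exact h.ren (m := n + 2) ![1, 0]

theorem dfn3 {R : M → M → M → Prop} (h : Dfn (fun w : Fin 3 → M => R (w 0) (w 1) (w 2)))
    {s t r : (Fin n → M) → M} (hs : DT s) (ht : DT t) (hr : DT r) :
    Dfn (fun v => R (s v) (t v) (r v)) := by
  refine Dfn.sub (P := fun v x => R x (t v) (r v)) ?_ hs
  refine Dfn.sub (P := fun (w : Fin (n + 1) → M) y => R (w 0) y (r fun i => w i.succ)) ?_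
    (ht.ren Fin.succ)
  refine Dfn.sub (P := fun (w : Fin (n + 2) → M) z => R (w 1) (w 0) z) ?_
    (hr.ren (fun i => i.succ.succ))
  exact h.ren (m := n + 3) ![2, 1, 0]

theorem Dfn.mem {s t : (Fin n → M) → M} (hs : DT s) (ht : DT t) : Dfn (fun v => s v ∈ t v) :=
  dfn2 (R := fun x y => x ∈ y) ⟨.mem (.inl 0) (.inl 1), fun v => by simp [Fml.Sat]⟩ hs ht

theorem Dfn.eq {s t : (Fin n → M) → M} (hs : DT s) (ht : DT t) : Dfn (fun v => s v = t v) :=
  dfn2 (R := fun x y => x = y) ⟨.eq (.inl 0) (.inl 1), fun v => by simp [Fml.Sat]⟩ hs ht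

theorem dfn4 {R : M → M → M → M → Prop}
    (h : Dfn (fun w : Fin 4 → M => R (w 0) (w 1) (w 2) (w 3)))
    {s t r q : (Fin n → M) → M} (hs : DT s) (ht : DT t) (hr : DT r) (hq : DT q) :
    Dfn (fun v => R (s v) (t v) (r v) (q v)) := by
  refine Dfn.sub (P := fun v x => R x (t v) (r v) (q v)) ?_ hs
  refine Dfn.sub (P := fun (w : Fin (n + 1) → M) y => R (w 0) y (r fun i => w i.succ)
    (q fun i => w i.succ)) ?_ (ht.ren Fin.succ)
  refine Dfn.sub (P := fun (w : Fin (n + 2) → M) z => R (w 1) (w 0) z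
    (q fun i => w i.succ.succ)) ?_ (hr.ren (fun i => i.succ.succ))
  refine Dfn.sub (P := fun (w : Fin (n + 3) → M) z => R (w 2) (w 1) (w 0) z) ?_
    (hq.ren (fun i => i.succ.succ.succ))
  exact h.ren (m := n + 4) ![3, 2, 1, 0]

theorem dfn5 {R : M → M → M → M → M → Prop}
    (h : Dfn (fun w : Fin 5 → M => R (w 0) (w 1) (w 2) (w 3) (w 4)))
    {s t r q p : (Fin n → M) → M} (hs : DT s) (ht : DT t) (hr : DT r) (hq : DT q) (hp : DT p) :
    Dfn (fun v => R (s v) (t v) (r v) (q v) (p v)) := by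
  refine Dfn.sub (P := fun v x => R x (t v) (r v) (q v) (p v)) ?_ hs
  refine Dfn.sub (P := fun (w : Fin (n + 1) → M) y => R (w 0) y (r fun i => w i.succ)
    (q fun i => w i.succ) (p fun i => w i.succ)) ?_ (ht.ren Fin.succ)
  refine Dfn.sub (P := fun (w : Fin (n + 2) → M) z => R (w 1) (w 0) z
    (q fun i => w i.succ.succ) (p fun i => w i.succ.succ)) ?_ (hr.ren (fun i => i.succ.succ))
  refine Dfn.sub (P := fun (w : Fin (n + 3) → M) z => R (w 2) (w 1) (w 0) z
    (p fun i => w i.succ.succ.succ)) ?_ (hq.ren (fun i => i.succ.succ.succ))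
  refine Dfn.sub (P := fun (w : Fin (n + 4) → M) z => R (w 3) (w 2) (w 1) (w 0) z) ?_
    (hp.ren (fun i => i.succ.succ.succ.succ))
  exact h.ren (m := n + 5) ![4, 3, 2, 1, 0]

theorem dt1 {F : M → M} (h : DT (fun w : Fin 1 → M => F (w 0))) {s : (Fin n → M) → M}
    (hs : DT s) : DT (fun v => F (s v)) :=
  dfn2 (R := fun x y => x = F y) h (DT.var 0) (hs.ren Fin.succ)

theorem dt2 {F : M → M → M} (h : DT (fun w : Fin 2 → M => F (w 0) (w 1)))
    {s t : (Fin n → M) → M} (hs : DT s) (ht : DT t) : DT (fun v => F (s v) (t v)) :=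
  dfn3 (R := fun x y z => x = F y z) h (DT.var 0) (hs.ren Fin.succ) (ht.ren Fin.succ)

theorem dt3 {F : M → M → M → M} (h : DT (fun w : Fin 3 → M => F (w 0) (w 1) (w 2)))
    {s t r : (Fin n → M) → M} (hs : DT s) (ht : DT t) (hr : DT r) :
    DT (fun v => F (s v) (t v) (r v)) :=
  dfn4 (R := fun x y z u => x = F y z u) h (DT.var 0) (hs.ren Fin.succ) (ht.ren Fin.succ)
    (hr.ren Fin.succ)

theorem dt4 {F : M → M → M → M → M}
    (h : DT (fun w : Fin 4 → M => F (w 0) (w 1) (w 2) (w 3)))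
    {s t r q : (Fin n → M) → M} (hs : DT s) (ht : DT t) (hr : DT r) (hq : DT q) :
    DT (fun v => F (s v) (t v) (r v) (q v)) :=
  dfn5 (R := fun x y z u o => x = F y z u o) h (DT.var 0) (hs.ren Fin.succ) (ht.ren Fin.succ)
    (hr.ren Fin.succ) (hq.ren Fin.succ)

theorem dfn6 {R : M → M → M → M → M → M → Prop}
    (h : Dfn (fun w : Fin 6 → M => R (w 0) (w 1) (w 2) (w 3) (w 4) (w 5)))
    {s t r q p o : (Fin n → M) → M} (hs : DT s) (ht : DT t) (hr : DT r) (hq : DT q) (hp : DT p)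
    (ho : DT o) : Dfn (fun v => R (s v) (t v) (r v) (q v) (p v) (o v)) := by
  refine Dfn.sub (P := fun v x => R x (t v) (r v) (q v) (p v) (o v)) ?_ hs
  refine Dfn.sub (P := fun (w : Fin (n + 1) → M) y => R (w 0) y (r fun i => w i.succ)
    (q fun i => w i.succ) (p fun i => w i.succ) (o fun i => w i.succ)) ?_ (ht.ren Fin.succ)
  refine Dfn.sub (P := fun (w : Fin (n + 2) → M) z => R (w 1) (w 0) z
    (q fun i => w i.succ.succ) (p fun i => w i.succ.succ) (o fun i => w i.succ.succ)) ?_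
    (hr.ren (fun i => i.succ.succ))
  refine Dfn.sub (P := fun (w : Fin (n + 3) → M) z => R (w 2) (w 1) (w 0) z
    (p fun i => w i.succ.succ.succ) (o fun i => w i.succ.succ.succ)) ?_
    (hq.ren (fun i => i.succ.succ.succ))
  refine Dfn.sub (P := fun (w : Fin (n + 4) → M) z => R (w 3) (w 2) (w 1) (w 0) z
    (o fun i => w i.succ.succ.succ.succ)) ?_ (hp.ren (fun i => i.succ.succ.succ.succ))
  refine Dfn.sub (P := fun (w : Fin (n + 5) → M) z => R (w 4) (w 3) (w 2) (w 1) (w 0) z) ?_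
    (ho.ren (fun i => i.succ.succ.succ.succ.succ))
  exact h.ren (m := n + 6) ![5, 4, 3, 2, 1, 0]

theorem dt5 {F : M → M → M → M → M → M}
    (h : DT (fun w : Fin 5 → M => F (w 0) (w 1) (w 2) (w 3) (w 4)))
    {s t r q p : (Fin n → M) → M} (hs : DT s) (ht : DT t) (hr : DT r) (hq : DT q) (hp : DT p) :
    DT (fun v => F (s v) (t v) (r v) (q v) (p v)) :=
  dfn6 (R := fun x y z u o e => x = F y z u o e) h (DT.var 0) (hs.ren Fin.succ)
    (ht.ren Fin.succ) (hr.ren Fin.succ) (hq.ren Fin.succ) (hp.ren Fin.succ)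

/-- Case distinction. -/
theorem DT.ite {P : (Fin n → M) → Prop} [∀ v, Decidable (P v)] {s t : (Fin n → M) → M}
    (hP : Dfn P) (hs : DT s) (ht : DT t) : DT (fun v => if P v then s v else t v) := by
  have h1 := (hP.ren (Fin.succ : Fin n → Fin (n + 1))).and hs
  have h2 := (hP.not.ren (Fin.succ : Fin n → Fin (n + 1))).and ht
  refine (h1.or h2).congr fun w => ?_
  by_cases h : P (fun i => w i.succ)
  · simp [h]
  · simp [h]

attribute [simp] Dfn.not Dfn.and Dfn.or Dfn.imp Dfn.iff Dfn.ex Dfn.all Dfn.const Dfn.mem Dfn.eq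
  DT.var DT.const DT.ite

end Pool.Agent.SigB
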