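import Pool.Agent.SigB.Comp

/-!
The system given by an increasing sequence of measurable cardinals, inside a model of ZFC.
-/

universe u

set_option linter.unusedSectionVars false

namespace Pool.Agent.SigB

open Filter

variable {M : Type u} [Membership M M] [IsZFC M]

/-- The level of an index. -/
noncomputable def lv (c α : M) : M := sp om fun m => α ∉ ap c (sc m)

theorem mem_lv {c α m : M} : m ∈ lv c α ↔ m ∈ (om : M) ∧ α ∉ ap c (sc m) := by
  unfold lv
  exact mem_sp (by simp (maxDischargeDepth := 50))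

theorem lv.dt : DT (fun w : Fin 2 → M => lv (w 0) (w 1)) := by
  unfold lv; simp (maxDischargeDepth := 50)

@[simp] theorem dt_lv {n : ℕ} {s t : (Fin n → M) → M} (hs : DT s) (ht : DT t) :
    DT (fun v => lv (s v) (t v)) := dt2 lv.dt hs ht

/-- The factors. -/
noncomputable def AA (K c : M) : M := lam K fun α => ap c (lv c α)

/-- The ultrafilters. -/
noncomputable def UU (K c W : M) : M := lam K fun α => ap W (lv c α)

theorem AA.dt : DT (fun w : Fin 2 → M => AA (w 0) (w 1)) := by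
  unfold AA; simp (maxDischargeDepth := 50)

@[simp] theorem dt_AA {n : ℕ} {s t : (Fin n → M) → M} (hs : DT s) (ht : DT t) :
    DT (fun v => AA (s v) (t v)) := dt2 AA.dt hs ht

theorem UU.dt : DT (fun w : Fin 3 → M => UU (w 0) (w 1) (w 2)) := by
  unfold UU; simp (maxDischargeDepth := 50)

@[simp] theorem dt_UU {n : ℕ} {s t r : (Fin n → M) → M} (hs : DT s) (ht : DT t) (hr : DT r) :
    DT (fun v => UU (s v) (t v) (r v)) := dt3 UU.dt hs ht hr

/-- The standing hypotheses. -/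
structure Hyp (K c W : M) : Prop where
  ord : Ord K
  co : ∀ n, n ∈ (om : M) → Ord (ap c n)
  mono : ∀ n, n ∈ (om : M) → ap c n ∈ ap c (sc n)
  unc : (om : M) ∈ ap c em
  sup : ∀ x, x ∈ K ↔ ∃ n, n ∈ (om : M) ∧ x ∈ ap c n
  meas : ∀ n, n ∈ (om : M) → Meas (ap W n) (ap c n)

theorem om_mem_om {n m : M} (hn : n ∈ (om : M)) (hm : m ∈ n) : m ∈ (om : M) :=
  om_ord.1 n hn m hm

section

variable {K c W : M} (H : Hyp K c W)
include H

theorem Hyp.lt {m n : M} (hn : n ∈ (om : M)) (hm : m ∈ n) : ap c m ∈ ap c n := by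
  have key : ∀ n, n ∈ (om : M) → ∀ m, m ∈ n → ap c m ∈ ap c n := by
    refine om_ind (P := fun n => ∀ m, m ∈ n → ap c m ∈ ap c n)
      (by simp (maxDischargeDepth := 50)) ?_ ?_
    · intro m hm
      exact absurd hm (not_mem_em m)
    · intro n hn ih m hm
      rcases mem_sc.1 hm with h | rfl
      · exact (H.co (sc n) (sc_mem_om hn)).1 _ (H.mono n hn) _ (ih m h)
      · exact H.mono m hn
  exact key n hn m hm

theorem Hyp.sb {m n : M} (hn : n ∈ (om : M)) (hm : m ∈ sc n) : Sb (ap c m) (ap c n) := by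
  rcases mem_sc.1 hm with h | rfl
  · exact (H.co n hn).1 _ (H.lt hn h)
  · exact Sb.refl _

theorem Hyp.mem_K {n : M} (hn : n ∈ (om : M)) : ap c n ∈ K :=
  (H.sup _).2 ⟨sc n, sc_mem_om hn, H.mono n hn⟩

theorem Hyp.sb_K {n : M} (hn : n ∈ (om : M)) : Sb (ap c n) K := H.ord.1 _ (H.mem_K hn)

/-- Comparison of natural numbers. -/
theorem om_tri {m n : M} (hm : m ∈ (om : M)) (hn : n ∈ (om : M)) : m ∈ n ∨ m = n ∨ n ∈ m :=
  (om_ord.mem hm).tri (om_ord.mem hn)

theorem sc_le {m n : M} (hn : n ∈ (om : M)) (hm : m ∈ n) : sc m ∈ sc n := by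
  have hm' := om_mem_om hn hm
  rcases om_tri H (sc_mem_om hm') (sc_mem_om hn) with h | h | h
  · exact h
  · rw [sc_inj h] at hm
    exact absurd hm (not_mem_self n)
  · rcases mem_sc.1 h with h1 | h1
    · exact absurd ((om_ord.mem hm').1 _ h1 _ (by simp)) (not_mem_mem hm)
    · rw [← h1] at hm
      exact absurd hm (fun h2 => not_mem_mem h2 (by simp))

theorem Hyp.lv_spec {α : M} (hα : α ∈ K) : lv c α ∈ (om : M) ∧ α ∈ ap c (sc (lv c α)) := by
  obtain ⟨n, hn, hαn⟩ := (H.sup α).1 hα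
  obtain ⟨m, hm, hPm, hmin⟩ := om_ord.least (P := fun m => α ∈ ap c (sc m))
    (by simp (maxDischargeDepth := 50)) ⟨n, hn, H.sb (sc_mem_om hn) (by simp) α hαn⟩
  have heq : lv c α = m := by
    refine ext' fun z => ?_
    rw [mem_lv]
    constructor
    · rintro ⟨hz, hzα⟩
      rcases om_tri H hz hm with h | h | h
      · exact h
      · rw [h] at hzα; exact absurd hPm hzα
      · exact absurd (H.sb (sc_mem_om hz) (mem_sc.2 (Or.inl (sc_le H hz h))) α hPm) hzα
    · intro hz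
      exact ⟨om_mem_om hm hz, hmin z hz⟩
  rw [heq]
  exact ⟨hm, hPm⟩

theorem Hyp.lv_not {α m : M} (hm : m ∈ lv c α) : α ∉ ap c (sc m) := (mem_lv.1 hm).2

/-- An index which is not below `c n` has level at least `n`. -/
theorem Hyp.le_lv {α n : M} (hα : α ∈ K) (hn : n ∈ (om : M)) (h : α ∉ ap c n) :
    n ∈ sc (lv c α) := by
  obtain ⟨h1, h2⟩ := H.lv_spec hα
  rcases om_tri H hn h1 with h3 | h3 | h3
  · exact mem_sc.2 (Or.inl h3)
  · exact mem_sc.2 (Or.inr h3)
  · exact absurd (H.sb hn (sc_le H hn h3) α h2) h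

theorem Hyp.lv_eq {α n : M} (hn : n ∈ (om : M)) (h : α ∉ ap c n) (h' : α ∈ ap c (sc n)) :
    lv c α = n := by
  have hα : α ∈ K := H.sb_K (sc_mem_om hn) α h'
  rcases mem_sc.1 (H.le_lv hα hn h) with h1 | h1
  · exact absurd h' (H.lv_not h1)
  · exact h1.symm

theorem Hyp.ap_AA {α : M} (hα : α ∈ K) : ap (AA K c) α = ap c (lv c α) := by
  unfold AA
  exact ap_lam (by simp (maxDischargeDepth := 50)) hα

theorem Hyp.ap_UU {α : M} (hα : α ∈ K) : ap (UU K c W) α = ap W (lv c α) := by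
  unfold UU
  exact ap_lam (by simp (maxDischargeDepth := 50)) hα

theorem Hyp.om_mem {n : M} (hn : n ∈ (om : M)) : (om : M) ∈ ap c n := by
  rcases om_cases hn with rfl | ⟨m, hm, rfl⟩
  · exact H.unc
  · have h1 : em ∈ sc m := by
      rcases om_tri H em_mem_om (sc_mem_om hm) with h | h | h
      · exact h
      · have : m ∈ (em : M) := by rw [h]; simp
        exact absurd this (not_mem_em m)
      · exact absurd h (not_mem_em _)
    exact H.sb (sc_mem_om hm) (mem_sc.2 (Or.inl h1)) _ H.unc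

theorem Hyp.sys : Sys K (AA K c) (UU K c W) where
  ord := H.ord
  sub := by
    intro i hi
    rw [H.ap_AA hi]
    exact H.sb_K (H.lv_spec hi).1
  uf := by
    intro i hi
    rw [H.ap_AA hi, H.ap_UU hi]
    exact (H.meas _ (H.lv_spec hi).1).1
  cc := by
    intro i hi
    rw [H.ap_AA hi, H.ap_UU hi]
    have h1 := (H.lv_spec hi).1
    exact (H.meas _ h1).small (H.co _ h1) (H.om_mem h1)

/-- Ordinals below `c n` are small for the indices which are not below `c n`. -/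
theorem Hyp.small {n θ i : M} (hn : n ∈ (om : M)) (hθ : θ ∈ ap c n) (hi : i ∈ K)
    (hin : i ∉ ap c n) : Sm (ap (UU K c W) i) (ap (AA K c) i) θ := by
  rw [H.ap_AA hi, H.ap_UU hi]
  have h1 := (H.lv_spec hi).1
  exact (H.meas _ h1).small (H.co _ h1) (H.sb h1 (H.le_lv hi hn hin) θ hθ)

/-- `c n` is small for the indices which are not below `c (n + 1)`. -/
theorem Hyp.small_c {n i : M} (hn : n ∈ (om : M)) (hi : i ∈ K)
    (hin : i ∉ ap c (sc n)) : Sm (ap (UU K c W) i) (ap (AA K c) i) (ap c n) :=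
  H.small (sc_mem_om hn) (H.mono n hn) hi hin

end

/-! ### Ordinals in the collapse -/

@[simp] theorem dt_Emb {n : ℕ} {s t r q p : (Fin n → M) → M} (hs : DT s) (ht : DT t)
    (hr : DT r) (hq : DT q) (hp : DT p) :
    DT (fun v => Emb (s v) (t v) (r v) (q v) (p v)) := dt5 Emb.dt hs ht hr hq hp

@[simp] theorem dt_Co {n : ℕ} {s t r q p : (Fin n → M) → M} (hs : DT s) (ht : DT t)
    (hr : DT r) (hq : DT q) (hp : DT p) :
    DT (fun v => Co (s v) (t v) (r v) (q v) (p v)) := dt5 Co.dt hs ht hr hq hp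

section

variable {K A U : M} (S : Sys K A U) {J : M} (hJ : Sb J K)
include S hJ

theorem Co_tr {g : M} (hg : g ∈ FS K A K J) : Tr (ap (Co K A U K J) g) := by
  intro y hy u hu
  obtain ⟨h, hh, h1, rfl⟩ := (mem_Co S hJ hg).1 hy
  obtain ⟨k, hk, h2, rfl⟩ := (mem_Co S hJ hh).1 hu
  refine (Co_mem_iff S hJ S.ord.1 hk hg).2 ?_
  filter_upwards [h1, h2, ev_Om K A U] with ω a b hω
  have hgω : ap g ω ∈ K := (mem_fs.1 (mem_FS.1 hg).1).2 ω hω
  exact (S.ord.mem hgω).1 _ a _ b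

theorem Co_ord {g : M} (hg : g ∈ FS K A K J) : Ord (ap (Co K A U K J) g) := by
  refine ⟨Co_tr S hJ hg, fun y hy => ?_⟩
  obtain ⟨h, hh, -, rfl⟩ := (mem_Co S hJ hg).1 hy
  exact Co_tr S hJ hh

theorem Emb_ord {x : M} (hx : Ord x) : Ord (Emb K A U J x) := by
  constructor
  · intro y hy u hu
    obtain ⟨g, hg, h1, rfl⟩ := mem_Emb.1 hy
    obtain ⟨h, hh, h2, rfl⟩ := (mem_Co S hJ hg).1 hu
    refine mem_Emb.2 ⟨h, hh, ?_, rfl⟩
    filter_upwards [h1, h2] with ω a b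
    exact hx.1 _ a _ b
  · intro y hy
    obtain ⟨g, hg, h1, rfl⟩ := mem_Emb.1 hy
    exact Co_tr S hJ hg

theorem cst_K {α : M} (hα : α ∈ K) : ap (Co K A U K J) (cst K A α) = Emb K A U J α :=
  Co_cst S hJ S.ord.1 (Sb.refl K) (S.ord.1 α hα) hα

theorem Emb_mem_of_mem {α x : M} (hα : α ∈ K) (hx : α ∈ x) :
    Emb K A U J α ∈ Emb K A U J x := by
  refine mem_Emb.2 ⟨cst K A α, cst_mem hα, ?_, (cst_K S hJ hα).symm⟩
  filter_upwards [ev_Om K A U] with ω hω
  rw [ap_cst hω]; exact hx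

theorem sb_Emb {α : M} (hα : α ∈ K) : Sb α (Emb K A U J α) := by
  refine S.ord.ind (P := fun α => Sb α (Emb K A U J α)) (by simp (maxDischargeDepth := 50))
    ?_ α hα
  intro x hx ih y hy
  have hyK : y ∈ K := S.ord.1 _ hx _ hy
  have h1 : Ord y := S.ord.mem hyK
  have h2 := Emb_ord S hJ h1
  have h3 := Emb_mem_of_mem S hJ hyK hy
  rcases (h1.sb_iff h2).1 (ih y hy) with h4 | h4
  · exact (Emb_ord S hJ (S.ord.mem hx)).1 _ h3 _ h4
  · rw [h4]; exact h3

theorem K_sb_Emb : Sb K (Emb K A U J K) := by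
  intro y hy
  have h1 : Ord y := S.ord.mem hy
  have h2 := Emb_ord S hJ h1
  have h3 := Emb_mem_of_mem S hJ hy hy
  rcases (h1.sb_iff h2).1 (sb_Emb S hJ hy) with h4 | h4
  · exact (Emb_ord S hJ S.ord).1 _ h3 _ h4
  · rw [h4]; exact h3

/-- Subsets of `K`. -/
theorem Emb_it {x y z : M} :
    z ∈ Emb K A U J (it x y) ↔ z ∈ Emb K A U J x ∧ z ∈ Emb K A U J y := by
  constructor
  · intro h
    obtain ⟨g, hg, h1, rfl⟩ := mem_Emb.1 h
    exact ⟨mem_Emb.2 ⟨g, hg, h1.mono fun ω h => (mem_it.1 h).1, rfl⟩,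
      mem_Emb.2 ⟨g, hg, h1.mono fun ω h => (mem_it.1 h).2, rfl⟩⟩
  · rintro ⟨h1, h2⟩
    obtain ⟨g, hg, h3, rfl⟩ := mem_Emb.1 h1
    obtain ⟨g', hg', h4, h5⟩ := mem_Emb.1 h2
    rw [Co_eq_iff S hJ S.ord.1 hg hg'] at h5
    refine mem_Emb.2 ⟨g, hg, ?_, rfl⟩
    filter_upwards [h3, h4, h5] with ω a b c
    exact mem_it.2 ⟨a, by rw [c]; exact b⟩

/-- A set of values can be used as the range. -/
theorem exists_range {T X g : M} (hg : g ∈ FS K A T J)
    (h : ∀ᶠ ω in FF K A U, ap g ω ∈ X) : ∃ g', g' ∈ FS K A X J ∧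
      ∀ᶠ ω in FF K A U, ap g ω = ap g' ω := by
  obtain ⟨hg1, s, hs, hf, hd⟩ := mem_FS.1 hg
  have hne := FF_neBot S
  obtain ⟨ω₀, h0⟩ := h.exists
  obtain ⟨g', hg', -, h1⟩ := exists_choice S (T := X) (J := J) ⟨_, h0⟩ hs hf
    (Q := fun ω z => z = ap g ω) (by simp (maxDischargeDepth := 50))
    (fun x y hx hy hxy z hz => by
      have h2 := hd x y hx hy hxy
      rw [h2])
  refine ⟨g', hg', ?_⟩
  filter_upwards [h, ev_Om K A U] with ω a hω
  exact (h1 ω hω ⟨_, a, rfl⟩).symm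

/-- If `t` is transitive and small for all ultrafilters in `J` then the elements of `t` are
fixed. -/
theorem Co_fix {T t : M} (hT : Tr T) (ht : Tr t) (htT : Sb t T)
    (hsm : ∀ i, i ∈ J → Sm (ap U i) (ap A i) t) {y : M} (hy : y ∈ t) :
    ap (Co K A U T J) (cst K A y) = y := by
  by_contra hcon
  obtain ⟨x, hx, hx1, hx2⟩ := found' (a := t) (P := fun y => ap (Co K A U T J) (cst K A y) ≠ y)
    (by simp (maxDischargeDepth := 50)) ⟨y, hy, hcon⟩
  refine hx1 (ext' fun z => ?_)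
  have hne := FF_neBot S
  rw [mem_Co S hJ (cst_mem (htT x hx))]
  constructor
  · rintro ⟨g, hg, h1, rfl⟩
    have h2 : ∀ᶠ ω in FF K A U, ap g ω ∈ x := by
      filter_upwards [h1, ev_Om K A U] with ω a hω
      rwa [ap_cst hω] at a
    obtain ⟨g', hg', h3⟩ := exists_range S hJ hg (h2.mono fun ω a => ht x hx _ a)
    obtain ⟨hg'1, s, hs, hf, hd⟩ := mem_FS.1 hg'
    obtain ⟨b, hb, h4⟩ := exists_const S (X := t) (J := J) hsm hJ hs hf hg'1 hd
    have h5 : ∀ᶠ ω in FF K A U, ap g ω = ap (cst K A b) ω := by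
      filter_upwards [h3, h4, ev_Om K A U] with ω a c hω
      rw [a, c, ap_cst hω]
    have hbx : b ∈ x := by
      obtain ⟨ω, ⟨a, c⟩, d⟩ := ((h2.and h3).and h4).exists
      rw [c, d] at a
      exact a
    rw [Co_congr S hJ hT hg (cst_mem (htT b hb)) h5]
    have h6 := hx2 b hbx hb
    rw [not_not.1 h6]
    exact hbx
  · intro hz
    have hzt := ht x hx z hz
    have h6 := not_not.1 (hx2 z hz hzt)
    refine ⟨cst K A z, cst_mem (htT z hzt), ?_, h6.symm⟩
    filter_upwards [ev_Om K A U] with ω hω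
    rw [ap_cst hω, ap_cst hω]
    exact hz

end

/-! ### The embedding fixes `K` -/

theorem ord_tri {α β : M} (hα : Ord α) (hβ : Ord β) (h : α ∉ β) : Sb β α := by
  rcases hα.tri hβ with h1 | h1 | h1
  · exact absurd h1 h
  · rw [h1]; exact Sb.refl β
  · exact hα.1 _ h1

section

variable {K c W : M} (H : Hyp K c W) {J : M} (hJ : Sb J K)
include H hJ

/-- The image of `c n` is small for the ultrafilter of level `n + 2`. -/
theorem Hyp.Emb_c_small {n : M} (hn : n ∈ (om : M)) :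
    Sm (ap W (sc (sc n))) (ap c (sc (sc n))) (Emb K (AA K c) (UU K c W) J (ap c n)) := by
  have S := H.sys
  have hn1 := sc_mem_om hn
  have hn2 := sc_mem_om hn1
  have hM := H.meas _ hn2
  have hO := H.co _ hn2
  have hne := FF_neBot S
  obtain ⟨ω₀, hω₀⟩ := (ev_Om K (AA K c) (UU K c W)).exists
  -- the restrictions of the points to the low coordinates
  let L : M := it J (ap c (sc n))
  let D : M := im (Om K (AA K c)) fun ω => rs ω L
  have hLK : Sb L K := fun x hx => hJ x (mem_it.1 hx).1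
  have hmD : ∀ p, p ∈ D ↔ ∃ ω, ω ∈ Om K (AA K c) ∧ p = rs ω L := fun p =>
    mem_im (by simp (maxDischargeDepth := 50))
  have hDs : Sb D (fs L (ap c n)) := by
    intro p hp
    obtain ⟨ω, hω, rfl⟩ := (hmD p).1 hp
    have h1 := mem_Om.1 hω
    have h2 := (mem_fs.1 h1.1).1
    refine mem_fs.2 ⟨fn_rs h2 hLK, fun x hx => ?_⟩
    rw [ap_rs h2 hLK hx]
    have h3 := h1.2 x (hLK x hx)
    rw [H.ap_AA (hLK x hx)] at h3
    have h4 : lv c x ∈ sc n := by
      have h5 := H.lv_spec (hLK x hx)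
      rcases om_tri H h5.1 hn with h6 | h6 | h6
      · exact mem_sc.2 (Or.inl h6)
      · exact mem_sc.2 (Or.inr h6)
      · exact absurd (mem_it.1 hx).2 (H.lv_not h6)
    exact H.sb hn h4 _ h3
  have hc1 : ap c n ∈ ap c (sc (sc n)) := H.lt hn2 (mem_sc.2 (Or.inl (by simp)))
  have hc2 : ap c (sc n) ∈ ap c (sc (sc n)) := H.mono _ hn1
  have hsc : Sm (ap W (sc (sc n))) (ap c (sc (sc n))) (ap c n) := hM.small hO hc1
  have hsL : Sm (ap W (sc (sc n))) (ap c (sc (sc n))) L :=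
    (hM.small hO hc2).sub hM.1 fun x hx => (mem_it.1 hx).2
  have hsD : Sm (ap W (sc (sc n))) (ap c (sc (sc n))) D := (sm_fs hM.1 hsL hsc).sub hM.1 hDs
  have hsZ : Sm (ap W (sc (sc n))) (ap c (sc (sc n))) (fs D (ap c n)) := sm_fs hM.1 hsD hsc
  refine Sm.image hM.1 hsZ (F := fun t => ap (Co K (AA K c) (UU K c W) K J)
    (lam (Om K (AA K c)) fun ω => ap t (rs ω L))) ?_ ?_
  · refine dt_ap (by simp (maxDischargeDepth := 50)) ?_
    refine dt_lam (F := fun (v : Fin 1 → M) ω => ap (v 0) (rs ω L)) (by simp) ?_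
    simp (maxDischargeDepth := 50)
  · intro z hz
    obtain ⟨g, hg, h1, rfl⟩ := mem_Emb.1 hz
    obtain ⟨g₁, hg₁, h2⟩ := exists_range S hJ hg h1
    obtain ⟨hg₁', s, hs, hf, hd⟩ := mem_FS.1 hg₁
    obtain ⟨g₂, hg₂, hd₂, h3⟩ := exists_reduce S (X := ap c n) (J := df J (ap c (sc n))) (L := L)
      (fun i hi => H.small_c hn (hJ i (mem_df.1 hi).1) (mem_df.1 hi).2)
      (fun i hi => hJ i (mem_df.1 hi).1) hLK
      (fun k j hk hj => by
        have hkO := S.ord.mem (hLK k hk)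
        have hjO := S.ord.mem (hJ j (mem_df.1 hj).1)
        rcases hkO.tri hjO with h4 | h4 | h4
        · exact h4
        · rw [h4] at hk; exact absurd (mem_it.1 hk).2 (mem_df.1 hj).2
        · exact absurd ((H.co _ hn1).1 _ (mem_it.1 hk).2 _ h4) (mem_df.1 hj).2)
      (s := s) (fun i hi => by
        by_cases h4 : i ∈ ap c (sc n)
        · exact mem_un.2 (Or.inl (mem_it.2 ⟨hs i hi, h4⟩))
        · exact mem_un.2 (Or.inr (mem_df.2 ⟨hs i hi, h4⟩))) hf hg₁' hd
    have hg₂K : g₂ ∈ FS K (AA K c) K J := by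
      refine mem_FS.2 ⟨mem_fs.2 ⟨(mem_fs.1 hg₂).1, fun x hx => H.sb_K hn _
        ((mem_fs.1 hg₂).2 x hx)⟩, it s L, ?_, hf.mono fun x hx => (mem_it.1 hx).1, hd₂⟩
      intro x hx
      exact hs x (mem_it.1 hx).1
    -- the function on the restrictions
    let t : M := lam D fun p => ap g₂ (pc K L p ω₀)
    have htd : DT (fun w : Fin 1 → M => ap g₂ (pc K L (w 0) ω₀)) := by
      simp (maxDischargeDepth := 50)
    have hpc : ∀ ω, ω ∈ Om K (AA K c) → pc K L (rs ω L) ω₀ = pc K L ω ω₀ := by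
      intro ω hω
      have h2 := (mem_fs.1 (mem_Om.1 hω).1).1
      have h4 : ∀ x, Fn (pc K L x ω₀) K := fun x => by
        unfold pc
        exact fn_lam (by
          classical
          refine DT.ite (P := fun w : Fin 1 → M => w 0 ∈ L) ?_ ?_ ?_ <;>
            simp (maxDischargeDepth := 50))
      refine (h4 _).ext (h4 _) fun j hj => ?_
      by_cases hjL : j ∈ L
      · rw [ap_pc_mem hj hjL, ap_pc_mem hj hjL, ap_rs h2 hLK hjL]
      · rw [ap_pc_not hj hjL, ap_pc_not hj hjL]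
    have htap : ∀ ω, ω ∈ Om K (AA K c) → ap t (rs ω L) = ap g₂ ω := by
      intro ω hω
      have h5 : ap t (rs ω L) = ap g₂ (pc K L (rs ω L) ω₀) :=
        ap_lam htd ((hmD _).2 ⟨ω, hω, rfl⟩)
      rw [h5, hpc ω hω]
      refine hd₂ _ _ (pc_mem hω hω₀) hω fun i hi => ?_
      exact ap_pc_mem (hLK i (mem_it.1 hi).2) (mem_it.1 hi).2
    have ht : t ∈ fs D (ap c n) := by
      refine mem_fs.2 ⟨fn_lam htd, fun p hp => ?_⟩
      obtain ⟨ω, hω, rfl⟩ := (hmD p).1 hp
      rw [htap ω hω]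
      exact (mem_fs.1 hg₂).2 ω hω
    refine ⟨t, ht, ?_⟩
    have hlam : lam (Om K (AA K c)) (fun ω => ap t (rs ω L)) = g₂ := by
      refine (fn_lam (by simp (maxDischargeDepth := 50))).ext (mem_fs.1 hg₂).1 fun ω hω => ?_
      rw [ap_lam (by simp (maxDischargeDepth := 50)) hω]
      exact htap ω hω
    show _ = ap (Co K (AA K c) (UU K c W) K J) (lam (Om K (AA K c)) fun ω => ap t (rs ω L))
    rw [hlam]
    refine Co_congr S hJ S.ord.1 hg hg₂K ?_
    filter_upwards [h2, h3] with ω a b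
    rw [a, b]

theorem Hyp.Emb_c_mem {n : M} (hn : n ∈ (om : M)) :
    Emb K (AA K c) (UU K c W) J (ap c n) ∈ K := by
  have hn2 := sc_mem_om (sc_mem_om hn)
  exact H.sb_K hn2 _ ((H.meas _ hn2).lt_of_small (H.co _ hn2)
    (Emb_ord H.sys hJ (H.co _ hn)) (H.Emb_c_small hJ hn))

theorem Hyp.Emb_K : Emb K (AA K c) (UU K c W) J K = K := by
  have S := H.sys
  refine Sb.antisymm ?_ (K_sb_Emb S hJ)
  intro z hz
  obtain ⟨g, hg, h1, rfl⟩ := mem_Emb.1 hz
  obtain ⟨hg1, s, hs, hf, hd⟩ := mem_FS.1 hg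
  have hdt : DT (fun w : Fin 1 → M => lv c (ap g (w 0))) := by simp (maxDischargeDepth := 50)
  have hgK : ∀ ω, ω ∈ Om K (AA K c) → ap g ω ∈ K := (mem_fs.1 hg1).2
  obtain ⟨b, hb, h2⟩ := exists_const S (X := om) (J := J) (fun i hi => S.cc i (hJ i hi)) hJ hs hf
    (f := lam (Om K (AA K c)) fun ω => lv c (ap g ω))
    (lam_mem_fs hdt fun ω hω => (H.lv_spec (hgK ω hω)).1) (by
      intro x y hx hy hxy
      show ap _ x = ap _ y
      rw [ap_lam hdt hx, ap_lam hdt hy, hd x y hx hy hxy])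
  have h3 : ∀ᶠ ω in FF K (AA K c) (UU K c W), ap g ω ∈ ap c (sc b) := by
    filter_upwards [h2, ev_Om K (AA K c) (UU K c W)] with ω a hω
    rw [ap_lam hdt hω] at a
    rw [← a]
    exact (H.lv_spec (hgK ω hω)).2
  exact H.ord.1 _ (H.Emb_c_mem hJ (sc_mem_om hb)) _ (mem_Emb.2 ⟨g, hg, h3, rfl⟩)

theorem Hyp.Co_mem_K {g : M} (hg : g ∈ FS K (AA K c) K J) :
    ap (Co K (AA K c) (UU K c W) K J) g ∈ K := by
  rw [← H.Emb_K hJ]
  refine mem_Emb.2 ⟨g, hg, ?_, by rw [H.Emb_K hJ]⟩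
  filter_upwards [ev_Om K (AA K c) (UU K c W)] with ω hω
  exact (mem_fs.1 (mem_FS.1 hg).1).2 ω hω

end

end Pool.Agent.SigB
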