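import Pool.Agent.SigB.Blk

/-!
There is no long `Σ₁`-definable well-ordering above a limit of `ω` many measurable cardinals,
inside a model of ZFC.
-/

universe u

set_option linter.unusedSectionVars false

namespace Pool.Agent.SigB

open Filter

variable {M : Type u} [Membership M M] [IsZFC M]

/-- The embeddings are injective on the subsets of `K`. -/
theorem Emb_inj {K A U : M} (S : Sys K A U) {J : M} (hJ : Sb J K) {x y : M} (hx : Sb x K)
    (hy : Sb y K) (h : Emb K A U J x = Emb K A U J y) : x = y := by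
  obtain ⟨T, hT, hZ⟩ := exists_tr (un (pr x y) (pr K K))
  have hxT : x ∈ T := hT _ hZ x (by simp)
  have hyT : y ∈ T := hT _ hZ y (by simp)
  have hKT : Sb K T := hT _ (hT _ hZ K (by simp))
  have hne := FF_neBot S
  rw [← Co_cst S hJ hT hKT hx hxT, ← Co_cst S hJ hT hKT hy hyT,
    Co_eq_iff S hJ hT (cst_mem hxT) (cst_mem hyT)] at h
  obtain ⟨ω, h1, h2⟩ := (h.and (ev_Om K A U)).exists
  rwa [ap_cst h2, ap_cst h2] at h1

section

variable {K c W : M} (H : Hyp K c W)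
include H

/-- The embeddings preserve `Σ₁`-formulas. -/
theorem Hyp.pres {J : M} (hJ : Sb J K) {p t : M} (ht : Tr t) (hpt : p ∈ t)
    (hsm : ∀ i, i ∈ J → Sm (ap (UU K c W) i) (ap (AA K c) i) t) {φ : D0 5} {x y : M}
    (hx : Sb x K) (hy : Sb y K) (h : ∃ w, φ.Holds ![w, x, y, K, p]) :
    ∃ w, φ.Holds ![w, Emb K (AA K c) (UU K c W) J x, Emb K (AA K c) (UU K c W) J y, K, p] := by
  have S := H.sys
  obtain ⟨w, hw⟩ := h
  obtain ⟨T, hT, hZ⟩ := exists_tr (un (un (pr w x) (pr y K)) (pr p t))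
  have hwT : w ∈ T := hT _ hZ w (by simp)
  have hxT : x ∈ T := hT _ hZ x (by simp)
  have hyT : y ∈ T := hT _ hZ y (by simp)
  have hKT : K ∈ T := hT _ hZ K (by simp)
  have hpT : p ∈ T := hT _ hZ p (by simp)
  have htT : Sb t T := hT _ (hT _ hZ t (by simp))
  have hKT' : Sb K T := hT _ hKT
  have h1 := (sat_cst S hJ hT φ ![w, x, y, K, p] (by
    intro i
    fin_cases i
    · exact hwT
    · exact hxT
    · exact hyT
    · exact hKT
    · exact hpT)).2 hw
  refine ⟨ap (Co K (AA K c) (UU K c W) T J) (cst K (AA K c) w), ?_⟩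
  have h2 : (fun i => ap (Co K (AA K c) (UU K c W) T J) (cst K (AA K c)
      ((![w, x, y, K, p] : Fin 5 → M) i)) : Fin 5 → M) =
      ![ap (Co K (AA K c) (UU K c W) T J) (cst K (AA K c) w),
        Emb K (AA K c) (UU K c W) J x, Emb K (AA K c) (UU K c W) J y, K, p] := by
    funext i
    fin_cases i
    · rfl
    · exact Co_cst S hJ hT hKT' hx hxT
    · exact Co_cst S hJ hT hKT' hy hyT
    · exact (Co_cst S hJ hT hKT' (Sb.refl K) hKT).trans (H.Emb_K hJ)
    · exact Co_fix S hJ hT ht htT hsm hpt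
  rwa [h2] at h1

theorem Hyp.em_mem {n : M} (hn : n ∈ (om : M)) : (em : M) ∈ ap c n :=
  (H.co n hn).1 _ (H.om_mem hn) _ em_mem_om

theorem Hyp.main {R D : M} (hR : WO R D) (hD : ∀ x, x ∈ D → Sb x K)
    (hcard : ¬ ∃ f, f ∈ fs D K ∧ ∀ x y, x ∈ D → y ∈ D → ap f x = ap f y → x = y)
    {p t α f : M} (ht : Tr t) (hpt : p ∈ t) (hα : α ∈ K) (hf : f ∈ fs t α)
    (hfi : ∀ x y, x ∈ t → y ∈ t → ap f x = ap f y → x = y) {φ : D0 5}
    (hφ : ∀ x y, op x y ∈ R ↔ ∃ w, φ.Holds ![w, x, y, K, p]) : False := by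
  have S := H.sys
  obtain ⟨m₀, hm₀, hαm⟩ := (H.sup α).1 hα
  let E : M → M → M := fun J x => Emb K (AA K c) (UU K c W) J x
  have hRD : ∀ x y, op x y ∈ R → x ∈ D ∧ y ∈ D := by
    intro x y h
    obtain ⟨x', hx', y', hy', h'⟩ := hR.1 _ h
    obtain ⟨rfl, rfl⟩ := op_inj.1 h'
    exact ⟨hx', hy'⟩
  have hEdt : ∀ J, DT (fun w : Fin 1 → M => E J (w 0)) := fun J => by
    show DT (fun w : Fin 1 → M => Emb K (AA K c) (UU K c W) J (w 0))
    simp (maxDischargeDepth := 50)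
  -- the embeddings which fix the parameters
  let Good : M → Prop := fun J => Sb J K ∧ ∀ i, i ∈ J → i ∉ ap c m₀
  have hsm : ∀ J, Good J → ∀ i, i ∈ J → Sm (ap (UU K c W) i) (ap (AA K c) i) t := by
    intro J hJ i hi
    have h1 := H.small hm₀ hαm (hJ.1 i hi) (hJ.2 i hi)
    exact h1.inj (S.uf i (hJ.1 i hi)) (F := ap f) (by simp (maxDischargeDepth := 50))
      (fun y hy => (mem_fs.1 hf).2 y hy) hfi
  have hpres : ∀ J, Good J → ∀ x y, op x y ∈ R → op (E J x) (E J y) ∈ R := by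
    intro J hJ x y hxy
    have h1 := hRD x y hxy
    exact (hφ _ _).2 (H.pres hJ.1 ht hpt (hsm J hJ) (hD x h1.1) (hD y h1.2) ((hφ x y).1 hxy))
  have hinj : ∀ J, Good J → ∀ x y, x ∈ D → y ∈ D → E J x = E J y → x = y := fun J hJ x y hx hy h =>
    Emb_inj S hJ.1 (hD x hx) (hD y hy) h
  have hDD : ∀ J, Good J → ∀ x, x ∈ D → E J x ∈ D := by
    intro J hJ x hx
    have h1 : ∃ y, y ∈ D ∧ x ≠ y := by
      by_contra hcon
      push Not at hcon
      refine hcard ⟨lam D fun _ => em, lam_mem_fs (DT.const em) fun _ _ => ?_, ?_⟩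
      · exact H.sb_K em_mem_om _ (H.em_mem em_mem_om)
      · intro y z hy hz _
        rw [← hcon y hy, ← hcon z hz]
    obtain ⟨y, hy, hne⟩ := h1
    rcases hR.total hx hy hne with h | h
    · exact (hRD _ _ (hpres J hJ _ _ h)).1
    · exact (hRD _ _ (hpres J hJ _ _ h)).2
  have hGB : ∀ n, n ∈ (om : M) → m₀ ∈ sc n → ∀ θ, θ ∈ ap c (sc n) → Good (Bl c n θ) := by
    intro n hn hmn θ hθ
    refine ⟨H.Bl_sb hn hθ, fun i hi h => ?_⟩
    exact (mem_df.1 hi).2 (H.sb hn hmn _ h)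
  -- every element of `D` is eventually fixed by all blocks
  have hQdt : Dfn (fun w : Fin 2 → M => m₀ ∈ sc (w 1) ∧ ∀ m, m ∈ (om : M) → w 1 ∈ sc m →
      ∀ θ, θ ∈ ap c (sc m) → Emb K (AA K c) (UU K c W) (Bl c m θ) (w 0) = w 0) := by
    simp (maxDischargeDepth := 50)
  have hfix : ∀ x, x ∈ D → ∃ n₀, n₀ ∈ (om : M) ∧ m₀ ∈ sc n₀ ∧ ∀ n, n ∈ (om : M) → n₀ ∈ sc n →
      ∀ θ, θ ∈ ap c (sc n) → Emb K (AA K c) (UU K c W) (Bl c n θ) x = x := by
    intro x hx
    by_contra hcon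
    push Not at hcon
    obtain ⟨θ, hθK, hθ⟩ := choice' (a := om) (b := K) (P := fun n θ => θ ∈ ap c (sc n) ∧
      ((∃ θ', θ' ∈ ap c (sc n) ∧ Emb K (AA K c) (UU K c W) (Bl c n θ') x ≠ x) →
        Emb K (AA K c) (UU K c W) (Bl c n θ) x ≠ x)) (by simp (maxDischargeDepth := 50)) (by
      intro n hn
      by_cases h : ∃ θ', θ' ∈ ap c (sc n) ∧ Emb K (AA K c) (UU K c W) (Bl c n θ') x ≠ x
      · obtain ⟨θ', h1, h2⟩ := h
        exact ⟨θ', H.sb_K (sc_mem_om hn) _ h1, h1, fun _ => h2⟩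
      · exact ⟨em, H.sb_K (sc_mem_om hn) _ (H.em_mem (sc_mem_om hn)), H.em_mem (sc_mem_om hn),
          fun h' => absurd h' h⟩)
    let y : M → M := fun n => Emb K (AA K c) (UU K c W) (Tl K c θ n) x
    have hydt : DT (fun w : Fin 1 → M => y (w 0)) := by
      show DT (fun w : Fin 1 → M => Emb K (AA K c) (UU K c W) (Tl K c θ (w 0)) x)
      simp (maxDischargeDepth := 50)
    have hGT : ∀ n, n ∈ (om : M) → m₀ ∈ sc n → Good (Tl K c θ n) := by
      intro n hn hmn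
      exact ⟨Tl_sb, fun i hi h => H.Tl_not hi (H.sb hn hmn _ h)⟩
    have hyD : ∀ n, n ∈ (om : M) → m₀ ∈ sc n → y n ∈ D := fun n hn hmn =>
      hDD _ (hGT n hn hmn) x hx
    have hy : ∀ n, n ∈ (om : M) → y n = E (Tl K c θ (sc n)) (E (Bl c n (ap θ n)) x) := fun n hn =>
      H.tl_comp hn (hθ n hn).1 (hD x hx)
    have hsuc : ∀ n, n ∈ (om : M) → m₀ ∈ sc n → m₀ ∈ sc (sc n) := fun n _ h =>
      mem_sc.2 (Or.inl h)
    have hstep : ∀ n, n ∈ (om : M) → m₀ ∈ sc n → E (Bl c n (ap θ n)) x ≠ x →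
        op (y (sc n)) (y n) ∈ R ∧ y (sc n) ≠ y n := by
      intro n hn hmn hne
      have hG := hGB n hn hmn _ (hθ n hn).1
      have hG' := hGT (sc n) (sc_mem_om hn) (hsuc n hn hmn)
      have h1 : op x (E (Bl c n (ap θ n)) x) ∈ R :=
        hR.infl (hEdt _) (hpres _ hG) (hDD _ hG) (hinj _ hG) hx hne
      have h2 := hpres _ hG' _ _ h1
      rw [← hy n hn] at h2
      refine ⟨h2, fun h3 => ?_⟩
      have h4 : E (Tl K c θ (sc n)) x = E (Tl K c θ (sc n)) (E (Bl c n (ap θ n)) x) := by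
        rw [← hy n hn]; exact h3
      exact hne (hinj _ hG' _ _ hx (hDD _ hG x hx) h4).symm
    have hweak : ∀ n, n ∈ (om : M) → m₀ ∈ sc n → y (sc n) = y n ∨ op (y (sc n)) (y n) ∈ R := by
      intro n hn hmn
      by_cases h : E (Bl c n (ap θ n)) x = x
      · left
        rw [hy n hn, h]
      · right
        exact (hstep n hn hmn h).1
    have hSdt : Dfn (fun w : Fin 1 → M => ∃ n, n ∈ (om : M) ∧ m₀ ∈ sc n ∧ w 0 = y n) := by
      refine Dfn.ex (P := fun (w : Fin 1 → M) n => n ∈ (om : M) ∧ m₀ ∈ sc n ∧ w 0 = y n) ?_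
      refine Dfn.and (by simp) (Dfn.and (by simp (maxDischargeDepth := 50)) ?_)
      exact Dfn.eq (DT.var 1) (dt1 hydt (DT.var 0))
    obtain ⟨m, hm, hmin⟩ := hR.2.2.2 (sp D fun z => ∃ n, n ∈ (om : M) ∧ m₀ ∈ sc n ∧ z = y n)
      (fun z hz => ((mem_sp hSdt).1 hz).1)
      ⟨y m₀, (mem_sp hSdt).2 ⟨hyD m₀ hm₀ (by simp), m₀, hm₀, by simp, rfl⟩⟩
    obtain ⟨-, k, hk, hmk, rfl⟩ := (mem_sp hSdt).1 hm
    have hmk' : ∀ n, n ∈ (om : M) → k ∈ sc n → m₀ ∈ sc n := by
      intro n hn hkn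
      rcases mem_sc.1 hkn with h | h
      · rcases mem_sc.1 hmk with h' | h'
        · exact mem_sc.2 (Or.inl ((om_ord.mem hn).1 _ h _ h'))
        · exact mem_sc.2 (Or.inl (by rw [h']; exact h))
      · rw [← h]; exact hmk
    have hle : ∀ n, n ∈ (om : M) → k ∈ sc n → y n = y k := by
      refine om_ind (P := fun n => k ∈ sc n → y n = y k) ?_ ?_ ?_
      · exact Dfn.imp (by simp (maxDischargeDepth := 50)) (Dfn.eq hydt (DT.const _))
      · intro h
        rcases mem_sc.1 h with h | h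
        · exact absurd h (not_mem_em k)
        · rw [h]
      · intro n hn ih h
        rcases mem_sc.1 h with h | h
        · have h1 := ih h
          have h2 := hmk' n hn h
          rcases hmin (y (sc n)) ((mem_sp hSdt).2 ⟨hyD _ (sc_mem_om hn) (hsuc n hn h2), sc n,
            sc_mem_om hn, hsuc n hn h2, rfl⟩) with h3 | h3
          · exact h3
          · rcases hweak n hn h2 with h4 | h4
            · exact h4.trans h1
            · rw [h1] at h4
              exact hR.2.1 _ _ h4 h3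
        · rw [h]
    obtain ⟨n, hn, hkn, θ', hθ'1, hθ'2⟩ := hcon k hk hmk
    have h3 := (hstep n hn (hmk' n hn hkn) ((hθ n hn).2 ⟨θ', hθ'1, hθ'2⟩)).2
    exact h3 ((hle (sc n) (sc_mem_om hn) (mem_sc.2 (Or.inl hkn))).trans (hle n hn hkn).symm)
  -- the counting
  obtain ⟨N, hN, hNQ⟩ := choice' (a := D) (b := om) (P := fun x n => m₀ ∈ sc n ∧
    ∀ m, m ∈ (om : M) → n ∈ sc m → ∀ θ, θ ∈ ap c (sc m) →
      Emb K (AA K c) (UU K c W) (Bl c m θ) x = x) hQdt hfix
  refine hcard (count H hR (N := ap N) (by simp (maxDischargeDepth := 50))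
    (fun x hx => (mem_fs.1 hN).2 x hx) ?_)
  intro x y hx hy hxy h
  rw [← hxy] at h
  have hNx : ap N x ∈ (om : M) := (mem_fs.1 hN).2 x hx
  have h1 : ∀ m, m ∈ (om : M) → ap N x ∈ sc m → it x (ap c m) = it y (ap c m) := by
    refine om_ind (P := fun m => ap N x ∈ sc m → it x (ap c m) = it y (ap c m))
      (by simp (maxDischargeDepth := 50)) ?_ ?_
    · intro h'
      rcases mem_sc.1 h' with h' | h'
      · exact absurd h' (not_mem_em _)
      · rwa [h'] at h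
    · intro m hm ih h'
      rcases mem_sc.1 h' with h' | h'
      · refine H.determined hm ((hNQ x hx).2 m hm h') ((hNQ y hy).2 m hm ?_) (ih h')
        rw [← hxy]; exact h'
      · rwa [h'] at h
  have h2 : ∀ z, z ∈ K → (z ∈ x ↔ z ∈ y) := by
    intro z hz
    obtain ⟨m, hm, hzm⟩ := (H.sup z).1 hz
    have key : ∀ m, m ∈ (om : M) → ap N x ∈ sc m → z ∈ ap c m → (z ∈ x ↔ z ∈ y) := by
      intro m hm hNm hzm
      have h3 := h1 m hm hNm
      constructor
      · intro h4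
        have : z ∈ it x (ap c m) := mem_it.2 ⟨h4, hzm⟩
        rw [h3] at this
        exact (mem_it.1 this).1
      · intro h4
        have : z ∈ it y (ap c m) := mem_it.2 ⟨h4, hzm⟩
        rw [← h3] at this
        exact (mem_it.1 this).1
    rcases om_tri H hNx hm with h3 | h3 | h3
    · exact key m hm (mem_sc.2 (Or.inl h3)) hzm
    · exact key m hm (mem_sc.2 (Or.inr h3)) hzm
    · exact key (ap N x) hNx (by simp) (H.sb hNx (mem_sc.2 (Or.inl h3)) z hzm)
  refine ext' fun z => ⟨fun hz => (h2 z (hD x hx z hz)).1 hz, fun hz => (h2 z (hD y hy z hz)).2 hz⟩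

end

end Pool.Agent.SigB
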