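import Pool.Agent.SigB.Basic

/-!
Ordinals and natural numbers in a model of ZFC.
-/

universe u

set_option linter.unusedSectionVars false

namespace Pool.Agent.SigB

variable {M : Type u} [Membership M M] [IsZFC M]

/-- Transitive sets. -/
def Tr (x : M) : Prop := ∀ y, y ∈ x → Sb y x

theorem Tr.dfn : Dfn (fun w : Fin 1 → M => Tr (w 0)) := by
  unfold Tr; simp (maxDischargeDepth := 50)

@[simp] theorem dfn_Tr {n : ℕ} {s : (Fin n → M) → M} (hs : DT s) :
    Dfn (fun v => Tr (s v)) := dfn1 Tr.dfn hs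

/-- Ordinals: transitive sets of transitive sets. -/
def Ord (x : M) : Prop := Tr x ∧ ∀ y, y ∈ x → Tr y

theorem Ord.dfn : Dfn (fun w : Fin 1 → M => Ord (w 0)) := by
  unfold Ord; simp (maxDischargeDepth := 50)

@[simp] theorem dfn_Ord {n : ℕ} {s : (Fin n → M) → M} (hs : DT s) :
    Dfn (fun v => Ord (s v)) := dfn1 Ord.dfn hs

theorem Ord.mem {α β : M} (h : Ord α) (hβ : β ∈ α) : Ord β :=
  ⟨h.2 β hβ, fun z hz => h.2 z (h.1 β hβ z hz)⟩

theorem Ord.trans {α β γ : M} (h : Ord α) (hγ : γ ∈ β) (hβ : β ∈ α) : γ ∈ α := h.1 β hβ γ hγ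

theorem Ord.sb {α β : M} (h : Ord α) (hβ : β ∈ α) : Sb β α := h.1 β hβ

theorem ne_of_mem {x y : M} (h : x ∈ y) : x ≠ y := by
  rintro rfl; exact not_mem_self _ h

/-- The least element principle for definable predicates on ordinals. -/
theorem Ord.exists_least {P : M → Prop} (hP : Dfn fun v : Fin 1 → M => P (v 0)) {x : M}
    (hx : Ord x) (h : P x) : ∃ y, Ord y ∧ P y ∧ ∀ z, z ∈ y → ¬ P z := by
  by_cases hxP : ∀ z, z ∈ x → ¬ P z
  · exact ⟨x, hx, h, hxP⟩
  · push Not at hxP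
    obtain ⟨z, hz, hzP⟩ := hxP
    obtain ⟨y, hy, hyP, hy'⟩ := found' (a := x) hP ⟨z, hz, hzP⟩
    exact ⟨y, hx.mem hy, hyP, fun w hw => hy' w hw (hx.trans hw hy)⟩

/-- Induction on the ordinals for definable predicates. -/
theorem Ord.indAll {P : M → Prop} (hP : Dfn fun v : Fin 1 → M => P (v 0))
    (h : ∀ x, Ord x → (∀ y, y ∈ x → P y) → P x) {x : M} (hx : Ord x) : P x := by
  by_contra hn
  obtain ⟨y, hy, hyP, hy'⟩ := Ord.exists_least (P := fun x => ¬ P x) hP.not hx hn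
  exact hyP (h y hy fun z hz => not_not.1 (hy' z hz))

/-- Comparison of ordinals. -/
theorem Ord.tri {α β : M} (hα : Ord α) (hβ : Ord β) : α ∈ β ∨ α = β ∨ β ∈ α := by
  refine Ord.indAll (P := fun x => ∀ y, Ord y → x ∈ y ∨ x = y ∨ y ∈ x)
    (by simp (maxDischargeDepth := 50)) ?_ hα β hβ
  clear hα hβ α β
  intro x hx ihx y hy
  refine Ord.indAll (P := fun y => x ∈ y ∨ x = y ∨ y ∈ x) (by simp (maxDischargeDepth := 50)) ?_ hy
  intro y hy ihy
  by_cases h1 : x ∈ y
  · exact Or.inl h1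
  by_cases h2 : y ∈ x
  · exact Or.inr (Or.inr h2)
  refine Or.inr (Or.inl (ext' fun z => ⟨fun hz => ?_, fun hz => ?_⟩))
  · rcases ihx z hz y hy with h | rfl | h
    · exact h
    · exact (h2 hz).elim
    · exact (h2 (hx.trans h hz)).elim
  · rcases ihy z hz with h | rfl | h
    · exact (h1 (hy.trans h hz)).elim
    · exact (h1 hz).elim
    · exact h

theorem Ord.sb_iff {α β : M} (hα : Ord α) (hβ : Ord β) : Sb α β ↔ α ∈ β ∨ α = β := by
  constructor
  · intro h
    rcases hα.tri hβ with h' | h' | h'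
    · exact Or.inl h'
    · exact Or.inr h'
    · exact (not_mem_self _ (h β h')).elim
  · rintro (h | rfl)
    · exact hβ.sb h
    · exact Sb.refl _

theorem Ord.not_mem_iff {x y : M} (hx : Ord x) (hy : Ord y) : ¬ x ∈ y ↔ Sb y x := by
  rw [Ord.sb_iff hy hx]
  constructor
  · intro h
    rcases hx.tri hy with h' | h' | h'
    · exact (h h').elim
    · exact Or.inr h'.symm
    · exact Or.inl h'
  · rintro (h | rfl)
    · exact not_mem_mem h
    · exact not_mem_self _

theorem Ord.sb_total {x y : M} (hx : Ord x) (hy : Ord y) : Sb x y ∨ Sb y x := by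
  rcases hx.tri hy with h | rfl | h
  · exact Or.inl (hy.sb h)
  · exact Or.inl (Sb.refl _)
  · exact Or.inr (hx.sb h)

theorem Ord.mem_of_sb_of_mem {x y z : M} (hz : Ord z) (hx : Ord x) (hy : Ord y) (h : Sb x y)
    (h' : y ∈ z) : x ∈ z := by
  rcases (Ord.sb_iff hx hy).1 h with h | rfl
  · exact hz.trans h h'
  · exact h'

/-- A transitive set of ordinals is an ordinal. -/
theorem ord_mk {x : M} (h : Tr x) (h' : ∀ y, y ∈ x → Ord y) : Ord x := ⟨h, fun y hy => (h' y hy).1⟩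

theorem ord_em : Ord (em : M) :=
  ⟨fun _ hy => (not_mem_em _ hy).elim, fun _ hy => (not_mem_em _ hy).elim⟩

/-- The union of a set of ordinals is an ordinal. -/
theorem ord_sU {a : M} (h : ∀ y, y ∈ a → Ord y) : Ord (sU a) := by
  refine ord_mk (fun y hy z hz => ?_) fun y hy => ?_
  · obtain ⟨w, hw, hy⟩ := mem_sU.1 hy
    exact mem_sU.2 ⟨w, hw, (h w hw).trans hz hy⟩
  · obtain ⟨w, hw, hy⟩ := mem_sU.1 hy
    exact (h w hw).mem hy

theorem ord_un {x y : M} (hx : Ord x) (hy : Ord y) : Ord (un x y) := by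
  refine ord_mk (fun z hz w hw => ?_) fun z hz => ?_
  · rcases mem_un.1 hz with h | h
    · exact mem_un.2 (Or.inl (hx.trans hw h))
    · exact mem_un.2 (Or.inr (hy.trans hw h))
  · rcases mem_un.1 hz with h | h
    · exact hx.mem h
    · exact hy.mem h

theorem Ord.em_mem {x : M} (hx : Ord x) (h : x ≠ em) : em ∈ x := by
  rcases ord_em.tri hx with h' | h' | h'
  · exact h'
  · exact (h h'.symm).elim
  · exact (not_mem_em _ h').elim

theorem Ord.exists_of_ne_em {x : M} (h : ∀ y, y ∉ x) : x = em :=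
  ext' fun y => ⟨fun hy => (h y hy).elim, fun hy => (not_mem_em _ hy).elim⟩

/-- The least element principle. -/
theorem Ord.least {α : M} (hα : Ord α) {P : M → Prop} (hP : Dfn (fun w : Fin 1 → M => P (w 0)))
    (h : ∃ x, x ∈ α ∧ P x) : ∃ x, x ∈ α ∧ P x ∧ ∀ y, y ∈ x → ¬ P y := by
  obtain ⟨y, hy, hyP, hy'⟩ := found' hP h
  exact ⟨y, hy, hyP, fun w hw => hy' w hw (hα.trans hw hy)⟩

/-- Induction on the elements of an ordinal. -/
theorem Ord.ind {α : M} (hα : Ord α) {P : M → Prop} (hP : Dfn (fun w : Fin 1 → M => P (w 0)))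
    (h : ∀ x, x ∈ α → (∀ y, y ∈ x → P y) → P x) : ∀ x, x ∈ α → P x := by
  intro x hx
  by_contra hn
  obtain ⟨y, hy, hyP, hy'⟩ := Ord.least hα (P := fun x => ¬ P x) hP.not ⟨x, hx, hn⟩
  exact hyP (h y hy fun z hz => not_not.1 (hy' z hz))

/-- The successor. -/
noncomputable def sc (x : M) : M := un x (pr x x)

@[simp] theorem mem_sc {x z : M} : z ∈ sc x ↔ z ∈ x ∨ z = x := by
  unfold sc; simp

theorem sc.dt : DT (fun w : Fin 1 → M => sc (w 0)) := by
  unfold sc; simp (maxDischargeDepth := 50)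

@[simp] theorem dt_sc {n : ℕ} {s : (Fin n → M) → M} (hs : DT s) :
    DT (fun v => sc (s v)) := dt1 sc.dt hs

theorem mem_sc_self (x : M) : x ∈ sc x := mem_sc.2 (Or.inr rfl)

theorem ord_sc {α : M} (hα : Ord α) : Ord (sc α) := by
  refine ord_mk (fun y hy z hz => ?_) fun y hy => ?_
  · rcases mem_sc.1 hy with h | rfl
    · exact mem_sc.2 (Or.inl (hα.trans hz h))
    · exact mem_sc.2 (Or.inl hz)
  · rcases mem_sc.1 hy with h | rfl
    · exact hα.mem h
    · exact hα

theorem Ord.mem_sc_iff {x y : M} (hx : Ord x) (hy : Ord y) : x ∈ sc y ↔ Sb x y := by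
  rw [hx.sb_iff hy, mem_sc]

theorem sc_ne_em (x : M) : sc x ≠ em := by
  intro h
  have := mem_sc_self x
  rw [h] at this
  exact not_mem_em _ this

/-- For ordinals `x ∈ y` iff the successor of `x` is a subset of `y`. -/
theorem Ord.sc_sb_iff {x y : M} (hy : Ord y) : Sb (sc x) y ↔ x ∈ y := by
  constructor
  · intro h; exact h x (mem_sc_self x)
  · intro h z hz
    rcases mem_sc.1 hz with h' | rfl
    · exact hy.trans h' h
    · exact h

/-- The set of natural numbers. -/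
noncomputable def om : M := cp fun n => ∀ a : M, (em ∈ a ∧ ∀ x, x ∈ a → sc x ∈ a) → n ∈ a

theorem exists_inductive : ∃ a : M, em ∈ a ∧ ∀ x, x ∈ a → sc x ∈ a := by
  obtain ⟨a, ⟨e, he, he'⟩, ha⟩ := IsZFC.infinity (M := M)
  refine ⟨a, ?_, fun x hx => ?_⟩
  · have : e = em := ext' fun x => ⟨fun h => (he' x h).elim, fun h => (not_mem_em _ h).elim⟩
    rwa [← this]
  · obtain ⟨y, hy, hy'⟩ := ha x hx
    have : y = sc x := ext' fun z => by rw [hy', mem_sc]
    rwa [← this]

theorem mem_om {n : M} :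
    n ∈ (om : M) ↔ ∀ a : M, (em ∈ a ∧ ∀ x, x ∈ a → sc x ∈ a) → n ∈ a := by
  unfold om
  refine mem_cp' (by simp (maxDischargeDepth := 50)) ?_
  obtain ⟨a, ha⟩ := exists_inductive (M := M)
  exact ⟨a, fun x hx => hx a ha⟩

theorem em_mem_om : (em : M) ∈ (om : M) := mem_om.2 fun _ h => h.1

theorem sc_mem_om {n : M} (hn : n ∈ (om : M)) : sc n ∈ (om : M) :=
  mem_om.2 fun a ha => ha.2 n (mem_om.1 hn a ha)

theorem om_ind {P : M → Prop} (hP : Dfn (fun w : Fin 1 → M => P (w 0))) (h0 : P em)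
    (hs : ∀ n, n ∈ (om : M) → P n → P (sc n)) : ∀ n, n ∈ (om : M) → P n := by
  intro n hn
  have := mem_om.1 hn (sp om P) ⟨(mem_sp hP).2 ⟨em_mem_om, h0⟩, fun y hy => by
    rw [mem_sp hP] at hy ⊢
    exact ⟨sc_mem_om hy.1, hs y hy.1 hy.2⟩⟩
  exact ((mem_sp hP).1 this).2

theorem ord_of_mem_om {x : M} (hx : x ∈ (om : M)) : Ord x :=
  om_ind (P := Ord) (by simp) ord_em (fun _ _ h => ord_sc h) x hx

theorem om_ord : Ord (om : M) := by
  refine ord_mk (fun x hx => ?_) fun x => ord_of_mem_om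
  refine om_ind (P := fun x => Sb x om) (by simp (maxDischargeDepth := 50))
    (fun y hy => (not_mem_em _ hy).elim) ?_ x hx
  intro y hy h z hz
  rcases mem_sc.1 hz with h' | rfl
  · exact h z h'
  · exact hy

theorem om_cases {n : M} (hn : n ∈ (om : M)) : n = em ∨ ∃ m, m ∈ (om : M) ∧ n = sc m :=
  om_ind (P := fun x => x = em ∨ ∃ y, y ∈ (om : M) ∧ x = sc y) (by simp (maxDischargeDepth := 50))
    (Or.inl rfl) (fun y hy _ => Or.inr ⟨y, hy, rfl⟩) n hn

theorem sc_inj {x y : M} (h : sc x = sc y) : x = y := by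
  have h1 : x ∈ sc y := h ▸ mem_sc_self x
  have h2 : y ∈ sc x := h ▸ mem_sc_self y
  rcases mem_sc.1 h1 with h1 | h1
  · rcases mem_sc.1 h2 with h2 | h2
    · exact (not_mem_mem h1 h2).elim
    · exact h2.symm
  · exact h1

/-- Finite sets of ordinals: every nonempty subset has a maximum. -/
def Fi (s : M) : Prop := ∀ t, Sb t s → (∃ x, x ∈ t) → ∃ m, m ∈ t ∧ ∀ x, x ∈ t → x ∈ m ∨ x = m

theorem Fi.dfn : Dfn (fun w : Fin 1 → M => Fi (w 0)) := by
  unfold Fi; simp (maxDischargeDepth := 50)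

@[simp] theorem dfn_Fi {n : ℕ} {s : (Fin n → M) → M} (hs : DT s) :
    Dfn (fun v => Fi (s v)) := dfn1 Fi.dfn hs

theorem Fi.mono {s t : M} (h : Fi s) (hts : Sb t s) : Fi t := fun u hu hne =>
  h u (fun z hz => hts z (hu z hz)) hne

theorem fi_em : Fi (em : M) := by
  rintro t ht ⟨x, hx⟩
  exact absurd (ht x hx) (not_mem_em x)

theorem fi_single (i : M) : Fi (pr i i) := by
  rintro t ht ⟨x, hx⟩
  have h1 : ∀ z, z ∈ t → z = i := fun z hz => by simpa using ht z hz
  have h2 := h1 x hx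
  subst h2
  exact ⟨x, hx, fun z hz => Or.inr (h1 z hz)⟩

theorem fi_un {K s t : M} (hK : Ord K) (hs : Sb s K) (ht : Sb t K) (h : Fi s) (h' : Fi t) :
    Fi (un s t) := by
  rintro u hu ⟨x, hx⟩
  by_cases h1 : ∃ y, y ∈ it u s
  · obtain ⟨m, hm, hmax⟩ := h (it u s) (fun z hz => (mem_it.1 hz).2) h1
    by_cases h2 : ∃ y, y ∈ it u t
    · obtain ⟨m', hm', hmax'⟩ := h' (it u t) (fun z hz => (mem_it.1 hz).2) h2
      rw [mem_it] at hm hm'
      have hmK : m ∈ K := hs m hm.2
      have hmK' : m' ∈ K := ht m' hm'.2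
      have hOm : Ord m := hK.mem hmK
      have hOm' : Ord m' := hK.mem hmK'
      rcases hOm.tri hOm' with h3 | h3 | h3
      · refine ⟨m', hm'.1, fun z hz => ?_⟩
        rcases mem_un.1 (hu z hz) with hzs | hzt
        · rcases hmax z (mem_it.2 ⟨hz, hzs⟩) with h4 | h4
          · exact Or.inl (hOm'.1 m h3 z h4)
          · rw [h4]; exact Or.inl h3
        · exact hmax' z (mem_it.2 ⟨hz, hzt⟩)
      · subst h3
        refine ⟨m, hm.1, fun z hz => ?_⟩
        rcases mem_un.1 (hu z hz) with hzs | hzt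
        · exact hmax z (mem_it.2 ⟨hz, hzs⟩)
        · exact hmax' z (mem_it.2 ⟨hz, hzt⟩)
      · refine ⟨m, hm.1, fun z hz => ?_⟩
        rcases mem_un.1 (hu z hz) with hzs | hzt
        · exact hmax z (mem_it.2 ⟨hz, hzs⟩)
        · rcases hmax' z (mem_it.2 ⟨hz, hzt⟩) with h4 | h4
          · exact Or.inl (hOm.1 m' h3 z h4)
          · rw [h4]; exact Or.inl h3
    · rw [mem_it] at hm
      refine ⟨m, hm.1, fun z hz => ?_⟩
      rcases mem_un.1 (hu z hz) with hzs | hzt
      · exact hmax z (mem_it.2 ⟨hz, hzs⟩)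
      · exact absurd ⟨z, mem_it.2 ⟨hz, hzt⟩⟩ h2
  · have h2 : ∀ z, z ∈ u → z ∈ t := fun z hz => by
      rcases mem_un.1 (hu z hz) with hzs | hzt
      · exact absurd ⟨z, mem_it.2 ⟨hz, hzs⟩⟩ h1
      · exact hzt
    exact h' u h2 ⟨x, hx⟩

/-- Induction on finite sets of ordinals, adding a new maximum. -/
theorem Fi.ind {K : M} (hK : Ord K) {P : M → Prop} (hP : Dfn (fun w : Fin 1 → M => P (w 0)))
    (h0 : P em) (h1 : ∀ i s, i ∈ K → Sb s i → Fi s → P s → P (un s (pr i i))) :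
    ∀ s, Sb s K → Fi s → P s := by
  -- for every `k ∈ K`, `P` holds for all finite subsets of `K` whose maximum is `k`
  have hQd : Dfn (fun w : Fin 1 → M => ∀ s, Sb s K → Fi s → w 0 ∈ s →
      (∀ x, x ∈ s → x ∈ w 0 ∨ x = w 0) → P s) := by
    refine Dfn.all (P := fun (w : Fin 1 → M) s => Sb s K → Fi s → w 0 ∈ s →
      (∀ x, x ∈ s → x ∈ w 0 ∨ x = w 0) → P s) ?_
    refine Dfn.imp (by simp) (Dfn.imp (by simp) (Dfn.imp (by simp) (Dfn.imp ?_ ?_)))
    · simp (maxDischargeDepth := 50)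
    · exact hP.ren (m := 2) (fun _ => 0)
  have key := hK.ind (P := fun k => ∀ s, Sb s K → Fi s → k ∈ s →
      (∀ x, x ∈ s → x ∈ k ∨ x = k) → P s) hQd (by
    intro k hk IH s hsK hs hks hmax
    -- remove the maximum
    let s' : M := df s (pr k k)
    have hs' : ∀ z, z ∈ s' ↔ z ∈ s ∧ z ≠ k := by
      intro z; simp [s']
    have hs's : Sb s' s := fun z hz => ((hs' z).1 hz).1
    have hfi : Fi s' := Fi.mono hs hs's
    have hs'k : Sb s' k := fun z hz => by
      have := (hs' z).1 hz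
      rcases hmax z this.1 with h2 | h2
      · exact h2
      · exact absurd h2 this.2
    have heq : s = un s' (pr k k) := by
      refine ext' fun z => ?_
      rw [mem_un, hs' z, mem_pr]
      constructor
      · intro hz
        by_cases h2 : z = k
        · exact Or.inr (Or.inl h2)
        · exact Or.inl ⟨hz, h2⟩
      · rintro (h2 | h2 | h2)
        · exact h2.1
        · rw [h2]; exact hks
        · rw [h2]; exact hks
    have hPs' : P s' := by
      by_cases hne : ∃ x, x ∈ s'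
      · obtain ⟨m, hm, hmmax⟩ := hfi s' (fun z hz => hz) hne
        exact IH m (hs'k m hm) s' (fun z hz => hsK z (hs's z hz)) hfi hm hmmax
      · have : s' = em := ext' fun z => ⟨fun hz => absurd ⟨z, hz⟩ hne,
          fun hz => absurd hz (not_mem_em z)⟩
        rw [this]; exact h0
    rw [heq]
    exact h1 k s' hk hs'k hfi hPs')
  intro s hsK hs
  by_cases hne : ∃ x, x ∈ s
  · obtain ⟨m, hm, hmax⟩ := hs s (fun z hz => hz) hne
    exact key m (hsK m hm) s hsK hs hm hmax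
  · have : s = em := ext' fun z => ⟨fun hz => absurd ⟨z, hz⟩ hne,
      fun hz => absurd hz (not_mem_em z)⟩
    rw [this]; exact h0

end Pool.Agent.SigB
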