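import Pool.Agent.SigB.Small

/-!
The iterated product filter inside a model of ZFC.

`K` is an ordinal of the model, `A` and `U` are functions on `K`: `ap U i` is an ultrafilter on
`ap A i`, a subset of `K`. The filter `FF K A U` is a filter (in the sense of Mathlib) on `M`.
-/

universe u

set_option linter.unusedSectionVars false

namespace Pool.Agent.SigB

open Filter

variable {M : Type u} [Membership M M] [IsZFC M]

/-! ### Projections and least elements -/

/-- The first component of an ordered pair. -/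
noncomputable def p1 (z : M) : M := cp fun x => ∃ a b, z = op a b ∧ x ∈ a

/-- The second component of an ordered pair. -/
noncomputable def p2 (z : M) : M := cp fun x => ∃ a b, z = op a b ∧ x ∈ b

@[simp] theorem p1_op (a b : M) : p1 (op a b) = a := by
  refine ext' fun x => ?_
  have h : ∀ x, (∃ a' b', op a b = op a' b' ∧ x ∈ a') ↔ x ∈ a := by
    intro x
    constructor
    · rintro ⟨a', b', h, hx⟩
      rwa [(op_inj.1 h).1]
    · intro hx
      exact ⟨a, b, rfl, hx⟩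
  unfold p1
  rw [mem_cp ⟨a, fun x => (h x).symm⟩, h x]

@[simp] theorem p2_op (a b : M) : p2 (op a b) = b := by
  refine ext' fun x => ?_
  have h : ∀ x, (∃ a' b', op a b = op a' b' ∧ x ∈ b') ↔ x ∈ b := by
    intro x
    constructor
    · rintro ⟨a', b', h, hx⟩
      rwa [(op_inj.1 h).2]
    · intro hx
      exact ⟨a, b, rfl, hx⟩
  unfold p2
  rw [mem_cp ⟨b, fun x => (h x).symm⟩, h x]

theorem p1.dt : DT (fun w : Fin 1 → M => p1 (w 0)) := by
  unfold p1; simp (maxDischargeDepth := 50)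

theorem p2.dt : DT (fun w : Fin 1 → M => p2 (w 0)) := by
  unfold p2; simp (maxDischargeDepth := 50)

@[simp] theorem dt_p1 {n : ℕ} {s : (Fin n → M) → M} (hs : DT s) :
    DT (fun v => p1 (s v)) := dt1 p1.dt hs

@[simp] theorem dt_p2 {n : ℕ} {s : (Fin n → M) → M} (hs : DT s) :
    DT (fun v => p2 (s v)) := dt1 p2.dt hs

/-- The least element of a set of ordinals. -/
noncomputable def mn (X : M) : M := cp fun z => ∃ y, (y ∈ X ∧ ∀ x, x ∈ X → x ∉ y) ∧ z ∈ y

theorem mn.dt : DT (fun w : Fin 1 → M => mn (w 0)) := by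
  unfold mn; simp (maxDischargeDepth := 50)

@[simp] theorem dt_mn {n : ℕ} {s : (Fin n → M) → M} (hs : DT s) :
    DT (fun v => mn (s v)) := dt1 mn.dt hs

theorem mn_mem {K X : M} (hK : Ord K) (hX : Sb X K) (hne : ∃ x, x ∈ X) : mn X ∈ X := by
  obtain ⟨x, hx⟩ := hne
  obtain ⟨y, hyK, hyX, hy⟩ := hK.least (P := fun z => z ∈ X) (by simp) ⟨x, hX x hx, hx⟩
  have h : ∀ z, (∃ y, (y ∈ X ∧ ∀ x, x ∈ X → x ∉ y) ∧ z ∈ y) ↔ z ∈ y := by
    intro z
    constructor
    · rintro ⟨y', ⟨hy', hm'⟩, hz⟩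
      have : y' = y := by
        rcases (hK.mem (hX y' hy')).tri (hK.mem hyK) with h1 | h1 | h1
        · exact absurd hy' (hy y' h1)
        · exact h1
        · exact absurd h1 (hm' y hyX)
      rwa [← this]
    · intro hz
      exact ⟨y, ⟨hyX, fun x hx hxy => hy x hxy hx⟩, hz⟩
  have : mn X = y := by
    refine ext' fun z => ?_
    unfold mn
    rw [mem_cp ⟨y, fun x => (h x).symm⟩, h z]
  rw [this]; exact hyX

/-! ### The filter -/

/-- The standing hypotheses on the system. -/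
structure Sys (K A U : M) : Prop where
  ord : Ord K
  sub : ∀ i, i ∈ K → Sb (ap A i) K
  uf : ∀ i, i ∈ K → UF (ap U i) (ap A i)
  cc : ∀ i, i ∈ K → Sm (ap U i) (ap A i) om

theorem Sys.dfn : Dfn (fun w : Fin 3 → M => Sys (w 0) (w 1) (w 2)) := by
  have h : Dfn (fun w : Fin 3 → M => Ord (w 0) ∧ (∀ i, i ∈ w 0 → Sb (ap (w 1) i) (w 0)) ∧
      (∀ i, i ∈ w 0 → UF (ap (w 2) i) (ap (w 1) i)) ∧
      ∀ i, i ∈ w 0 → Sm (ap (w 2) i) (ap (w 1) i) om) := by
    refine Dfn.and (by simp) (Dfn.and ?_ (Dfn.and ?_ ?_))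
    · simp (maxDischargeDepth := 50)
    · simp (maxDischargeDepth := 50)
    · refine Dfn.all (P := fun (w : Fin 3 → M) i => i ∈ w 0 → Sm (ap (w 2) i) (ap (w 1) i) om)
        (Dfn.imp (by simp) (dfn_Sm (by simp) (by simp) (DT.const om)))
  exact h.congr fun w => ⟨fun ⟨h1, h2, h3, h4⟩ => ⟨h1, h2, h3, h4⟩,
    fun h => ⟨h.ord, h.sub, h.uf, h.cc⟩⟩

@[simp] theorem dfn_Sys {n : ℕ} {s t r : (Fin n → M) → M} (hs : DT s) (ht : DT t) (hr : DT r) :
    Dfn (fun v => Sys (s v) (t v) (r v)) := dfn3 Sys.dfn hs ht hr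

/-- The product: the functions `ω` on `K` with `ω i ∈ A i`. -/
noncomputable def Om (K A : M) : M := sp (fs K K) fun ω => ∀ i, i ∈ K → ap ω i ∈ ap A i

theorem mem_Om {K A ω : M} : ω ∈ Om K A ↔ ω ∈ fs K K ∧ ∀ i, i ∈ K → ap ω i ∈ ap A i := by
  unfold Om
  exact mem_sp (by simp (maxDischargeDepth := 50))

theorem Om.dt : DT (fun w : Fin 2 → M => Om (w 0) (w 1)) := by
  unfold Om; simp (maxDischargeDepth := 50)

@[simp] theorem dt_Om {n : ℕ} {s t : (Fin n → M) → M} (hs : DT s) (ht : DT t) :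
    DT (fun v => Om (s v) (t v)) := dt2 Om.dt hs ht

/-- Strategies. -/
def St (K U B : M) : Prop := ∀ i, i ∈ K → ∀ p, p ∈ fs i K → ap B (op i p) ∈ ap U i

theorem St.dfn : Dfn (fun w : Fin 3 → M => St (w 0) (w 1) (w 2)) := by
  unfold St; simp (maxDischargeDepth := 50)

@[simp] theorem dfn_St {n : ℕ} {s t r : (Fin n → M) → M} (hs : DT s) (ht : DT t) (hr : DT r) :
    Dfn (fun v => St (s v) (t v) (r v)) := dfn3 St.dfn hs ht hr

/-- The point `ω` follows the strategy `B`. -/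
def Fo (K B ω : M) : Prop := ∀ i, i ∈ K → ap ω i ∈ ap B (op i (rs ω i))

theorem Fo.dfn : Dfn (fun w : Fin 3 → M => Fo (w 0) (w 1) (w 2)) := by
  unfold Fo; simp (maxDischargeDepth := 50)

@[simp] theorem dfn_Fo {n : ℕ} {s t r : (Fin n → M) → M} (hs : DT s) (ht : DT t) (hr : DT r) :
    Dfn (fun v => Fo (s v) (t v) (r v)) := dfn3 Fo.dfn hs ht hr

/-- A set containing all pairs `(i, p)` with `i ∈ K` and `p ∈ fs i K`. -/
noncomputable def SD (K : M) : M := pd K (pw (pd K K))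

theorem mem_SD {K i p : M} (hK : Ord K) (hi : i ∈ K) (hp : p ∈ fs i K) : op i p ∈ SD K := by
  unfold SD
  rw [op_mem_pd, mem_pw]
  refine ⟨hi, fun z hz => ?_⟩
  obtain ⟨hf, hv⟩ := mem_fs.1 hp
  obtain ⟨x, hx, rfl⟩ := hf.mem_iff.1 hz
  exact op_mem_pd.2 ⟨hK.sb hi x hx, hv x hx⟩

/-- The strategy with the sets `F i p`. -/
theorem ap_lam_SD {K i p : M} (hK : Ord K) {F : M → M}
    (hF : DT (fun w : Fin 1 → M => F (w 0))) (hi : i ∈ K) (hp : p ∈ fs i K) :
    ap (lam (SD K) F) (op i p) = F (op i p) := ap_lam hF (mem_SD hK hi hp)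

/-- The iterated product filter. -/
def FF (K A U : M) : Filter M where
  sets := {X | Sys K A U → ∃ B, St K U B ∧ ∀ ω, ω ∈ Om K A → Fo K B ω → ω ∈ X}
  univ_sets := by
    intro S
    have hF : DT (fun w : Fin 1 → M => ap A (p1 (w 0))) := by simp (maxDischargeDepth := 50)
    refine ⟨lam (SD K) fun z => ap A (p1 z), fun i hi p hp => ?_, fun _ _ _ => trivial⟩
    rw [ap_lam_SD S.ord hF hi hp, p1_op]
    exact (S.uf i hi).2.1
  sets_of_superset := by
    rintro X Y hX hXY S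
    obtain ⟨B, hB, hX⟩ := hX S
    exact ⟨B, hB, fun ω hω hf => hXY (hX ω hω hf)⟩
  inter_sets := by
    rintro X Y hX hY S
    obtain ⟨B, hB, hX⟩ := hX S
    obtain ⟨C, hC, hY⟩ := hY S
    have hF : DT (fun w : Fin 1 → M => it (ap B (w 0)) (ap C (w 0))) := by
      simp (maxDischargeDepth := 50)
    refine ⟨lam (SD K) fun z => it (ap B z) (ap C z), fun i hi p hp => ?_, fun ω hω hf => ?_⟩
    · rw [ap_lam_SD S.ord hF hi hp]
      exact (S.uf i hi).2.2.2.2.1 _ _ (hB i hi p hp) (hC i hi p hp)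
    · have hfs := (mem_Om.1 hω).1
      have h : ∀ i, i ∈ K → ap ω i ∈ ap B (op i (rs ω i)) ∧ ap ω i ∈ ap C (op i (rs ω i)) := by
        intro i hi
        have h1 := hf i hi
        have hr : rs ω i ∈ fs i K := mem_fs.2 ⟨fn_rs (mem_fs.1 hfs).1 (S.ord.sb hi),
          fun x hx => by
            rw [ap_rs (mem_fs.1 hfs).1 (S.ord.sb hi) hx]
            exact (mem_fs.1 hfs).2 x (S.ord.sb hi x hx)⟩
        rwa [ap_lam_SD S.ord hF hi hr, mem_it] at h1
      exact ⟨hX ω hω fun i hi => (h i hi).1, hY ω hω fun i hi => (h i hi).2⟩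

theorem ev_def {K A U : M} (P : M → Prop) : (∀ᶠ ω in FF K A U, P ω) ↔
    (Sys K A U → ∃ B, St K U B ∧ ∀ ω, ω ∈ Om K A → Fo K B ω → P ω) := Iff.rfl

@[simp] theorem dfn_ev {n : ℕ} {k a u : (Fin n → M) → M} {P : (Fin n → M) → M → Prop}
    (hk : DT k) (ha : DT a) (hu : DT u)
    (hP : Dfn (fun w : Fin (n + 1) → M => P (fun i => w i.succ) (w 0))) :
    Dfn (fun v => ∀ᶠ ω in FF (k v) (a v) (u v), P v ω) := by
  have hP2 : Dfn (fun w : Fin (n + 2) → M => P (fun i => w i.succ.succ) (w 0)) :=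
    hP.ren (m := n + 2) (Fin.cases (motive := fun _ => Fin (n + 2)) 0 fun i => i.succ.succ)
  have h : Dfn (fun v : Fin n → M => Sys (k v) (a v) (u v) → ∃ B, St (k v) (u v) B ∧
      ∀ ω, ω ∈ Om (k v) (a v) → Fo (k v) B ω → P v ω) := by
    refine Dfn.imp (dfn_Sys hk ha hu) ?_
    refine Dfn.ex (P := fun v B => St (k v) (u v) B ∧
      ∀ ω, ω ∈ Om (k v) (a v) → Fo (k v) B ω → P v ω) ?_
    refine Dfn.and (dfn_St (hk.ren Fin.succ) (hu.ren Fin.succ) (DT.var 0)) ?_
    refine Dfn.all (P := fun (w : Fin (n + 1) → M) ω => ω ∈ Om (k fun i => w i.succ)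
      (a fun i => w i.succ) → Fo (k fun i => w i.succ) (w 0) ω → P (fun i => w i.succ) ω) ?_
    refine Dfn.imp (Dfn.mem (DT.var 0) (dt_Om (hk.ren fun i => i.succ.succ)
      (ha.ren fun i => i.succ.succ))) (Dfn.imp ?_ hP2)
    exact dfn_Fo (hk.ren fun i => i.succ.succ) (DT.var 1) (DT.var 0)
  exact h

theorem ev_Om (K A U : M) : ∀ᶠ ω in FF K A U, ω ∈ Om K A := by
  rw [ev_def]
  intro S
  obtain ⟨B, hB, -⟩ := (FF K A U).univ_sets S
  exact ⟨B, hB, fun ω hω _ => hω⟩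

/-- The predicate `P` on `Om K A` depends only on the coordinates in `s`. -/
def Dp (K A : M) (P : M → Prop) (s : M) : Prop :=
  ∀ x y, x ∈ Om K A → y ∈ Om K A → (∀ i, i ∈ s → ap x i = ap y i) → (P x ↔ P y)

/-- The function `F` on `Om K A` depends only on the coordinates in `s`. -/
def Df (K A : M) (F : M → M) (s : M) : Prop :=
  ∀ x y, x ∈ Om K A → y ∈ Om K A → (∀ i, i ∈ s → ap x i = ap y i) → F x = F y

@[simp] theorem dfn_Dp {n : ℕ} {k a s : (Fin n → M) → M} {P : (Fin n → M) → M → Prop}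
    (hk : DT k) (ha : DT a) (hs : DT s)
    (hP : Dfn (fun w : Fin (n + 1) → M => P (fun i => w i.succ) (w 0))) :
    Dfn (fun v => Dp (k v) (a v) (P v) (s v)) := by
  unfold Dp
  have h0 : Dfn (fun w : Fin (n + 2) → M => P (fun i => w i.succ.succ) (w 0)) :=
    hP.ren (m := n + 2) (Fin.cases (motive := fun _ => Fin (n + 2)) 0 fun i => i.succ.succ)
  have h1 : Dfn (fun w : Fin (n + 2) → M => P (fun i => w i.succ.succ) (w 1)) :=
    hP.ren (m := n + 2) (Fin.cases (motive := fun _ => Fin (n + 2)) 1 fun i => i.succ.succ)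
  have h2 : Dfn (fun w : Fin (n + 2) → M => w 1 ∈ Om (k fun i => w i.succ.succ)
      (a fun i => w i.succ.succ) → w 0 ∈ Om (k fun i => w i.succ.succ)
      (a fun i => w i.succ.succ) → (∀ i, i ∈ s (fun i => w i.succ.succ) →
        ap (w 1) i = ap (w 0) i) →
      (P (fun i => w i.succ.succ) (w 1) ↔ P (fun i => w i.succ.succ) (w 0))) := by
    refine Dfn.imp (Dfn.mem (DT.var 1) (dt_Om (hk.ren fun i => i.succ.succ)
      (ha.ren fun i => i.succ.succ))) (Dfn.imp (Dfn.mem (DT.var 0)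
      (dt_Om (hk.ren fun i => i.succ.succ) (ha.ren fun i => i.succ.succ)))
      (Dfn.imp ?_ (h1.iff h0)))
    refine Dfn.all (P := fun (w : Fin (n + 2) → M) i => i ∈ s (fun i => w i.succ.succ) →
        ap (w 1) i = ap (w 0) i) ?_
    refine Dfn.imp (Dfn.mem (DT.var 0) (hs.ren fun i => i.succ.succ.succ)) ?_
    exact Dfn.eq (dt_ap (DT.var (Fin.succ 1)) (DT.var 0)) (dt_ap (DT.var (Fin.succ 0)) (DT.var 0))
  exact Dfn.all (P := fun v x => ∀ y, x ∈ Om (k v) (a v) → y ∈ Om (k v) (a v) →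
    (∀ i, i ∈ s v → ap x i = ap y i) → (P v x ↔ P v y))
    (Dfn.all (P := fun (w : Fin (n + 1) → M) y => w 0 ∈ Om (k fun i => w i.succ)
      (a fun i => w i.succ) → y ∈ Om (k fun i => w i.succ) (a fun i => w i.succ) →
      (∀ i, i ∈ s (fun i => w i.succ) → ap (w 0) i = ap y i) →
      (P (fun i => w i.succ) (w 0) ↔ P (fun i => w i.succ) y)) h2)

@[simp] theorem dfn_Df {n : ℕ} {k a s : (Fin n → M) → M} {F : (Fin n → M) → M → M}
    (hk : DT k) (ha : DT a) (hs : DT s)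
    (hF : DT (fun w : Fin (n + 1) → M => F (fun i => w i.succ) (w 0))) :
    Dfn (fun v => Df (k v) (a v) (F v) (s v)) := by
  have h := dfn_Dp (P := fun v x => True) hk ha hs (by simp)
  unfold Df
  have h0 : DT (fun w : Fin (n + 2) → M => F (fun i => w i.succ.succ) (w 0)) :=
    hF.ren (m := n + 2) (Fin.cases (motive := fun _ => Fin (n + 2)) 0 fun i => i.succ.succ)
  have h1 : DT (fun w : Fin (n + 2) → M => F (fun i => w i.succ.succ) (w 1)) :=
    hF.ren (m := n + 2) (Fin.cases (motive := fun _ => Fin (n + 2)) 1 fun i => i.succ.succ)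
  have h2 : Dfn (fun w : Fin (n + 2) → M => w 1 ∈ Om (k fun i => w i.succ.succ)
      (a fun i => w i.succ.succ) → w 0 ∈ Om (k fun i => w i.succ.succ)
      (a fun i => w i.succ.succ) → (∀ i, i ∈ s (fun i => w i.succ.succ) →
        ap (w 1) i = ap (w 0) i) →
      (F (fun i => w i.succ.succ) (w 1) = F (fun i => w i.succ.succ) (w 0))) := by
    refine Dfn.imp (Dfn.mem (DT.var 1) (dt_Om (hk.ren fun i => i.succ.succ)
      (ha.ren fun i => i.succ.succ))) (Dfn.imp (Dfn.mem (DT.var 0)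
      (dt_Om (hk.ren fun i => i.succ.succ) (ha.ren fun i => i.succ.succ)))
      (Dfn.imp ?_ (Dfn.eq h1 h0)))
    refine Dfn.all (P := fun (w : Fin (n + 2) → M) i => i ∈ s (fun i => w i.succ.succ) →
        ap (w 1) i = ap (w 0) i) ?_
    refine Dfn.imp (Dfn.mem (DT.var 0) (hs.ren fun i => i.succ.succ.succ)) ?_
    exact Dfn.eq (dt_ap (DT.var (Fin.succ 1)) (DT.var 0)) (dt_ap (DT.var (Fin.succ 0)) (DT.var 0))
  exact Dfn.all (P := fun v x => ∀ y, x ∈ Om (k v) (a v) → y ∈ Om (k v) (a v) →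
    (∀ i, i ∈ s v → ap x i = ap y i) → F v x = F v y)
    (Dfn.all (P := fun (w : Fin (n + 1) → M) y => w 0 ∈ Om (k fun i => w i.succ)
      (a fun i => w i.succ) → y ∈ Om (k fun i => w i.succ) (a fun i => w i.succ) →
      (∀ i, i ∈ s (fun i => w i.succ) → ap (w 0) i = ap y i) →
      F (fun i => w i.succ) (w 0) = F (fun i => w i.succ) y) h2)

open Classical in
/-- Change of the coordinate `i` of `ω` to `a`. -/
noncomputable def up (K ω i a : M) : M := lam K fun j => if j = i then a else ap ω j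

theorem up.dt : DT (fun w : Fin 4 → M => up (w 0) (w 1) (w 2) (w 3)) := by
  classical
  unfold up
  refine dt_lam (DT.var 0) ?_
  exact DT.ite (Dfn.eq (DT.var 0) (DT.var (Fin.succ 2))) (DT.var (Fin.succ 3))
    (dt_ap (DT.var (Fin.succ 1)) (DT.var 0))

@[simp] theorem dt_up {n : ℕ} {s t r q : (Fin n → M) → M} (hs : DT s) (ht : DT t) (hr : DT r)
    (hq : DT q) : DT (fun v => up (s v) (t v) (r v) (q v)) := dt4 up.dt hs ht hr hq

open Classical in
theorem dt_upF (ω i a : M) : DT (fun w : Fin 1 → M => if w 0 = i then a else ap ω (w 0)) :=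
  DT.ite (Dfn.eq (DT.var 0) (DT.const i)) (DT.const a) (dt_ap (DT.const ω) (DT.var 0))

theorem ap_up_same {K ω i a : M} (hi : i ∈ K) : ap (up K ω i a) i = a := by
  classical
  unfold up
  rw [ap_lam (F := fun j => if j = i then a else ap ω j) (dt_upF ω i a) hi, if_pos rfl]

theorem ap_up_ne {K ω i a j : M} (hj : j ∈ K) (h : j ≠ i) : ap (up K ω i a) j = ap ω j := by
  classical
  unfold up
  rw [ap_lam (F := fun j => if j = i then a else ap ω j) (dt_upF ω i a) hj, if_neg h]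

theorem up_mem {K A ω i a : M} (hA : ∀ i, i ∈ K → Sb (ap A i) K) (hω : ω ∈ Om K A)
    (hi : i ∈ K) (ha : a ∈ ap A i) : up K ω i a ∈ Om K A := by
  classical
  have h1 : ∀ j, j ∈ K → ap (up K ω i a) j ∈ ap A j := by
    intro j hj
    by_cases h : j = i
    · subst h; rw [ap_up_same hj]; exact ha
    · rw [ap_up_ne hj h]; exact (mem_Om.1 hω).2 j hj
  refine mem_Om.2 ⟨mem_fs.2 ⟨?_, fun j hj => hA j hj _ (h1 j hj)⟩, h1⟩
  exact fn_lam (F := fun j => if j = i then a else ap ω j) (dt_upF ω i a)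

open Classical in
/-- The function equal to `x` on `J` and to `y` elsewhere. -/
noncomputable def pc (K J x y : M) : M := lam K fun j => if j ∈ J then ap x j else ap y j

theorem pc.dt : DT (fun w : Fin 4 → M => pc (w 0) (w 1) (w 2) (w 3)) := by
  classical
  unfold pc
  refine dt_lam (DT.var 0) ?_
  exact DT.ite (Dfn.mem (DT.var 0) (DT.var (Fin.succ 1)))
    (dt_ap (DT.var (Fin.succ 2)) (DT.var 0)) (dt_ap (DT.var (Fin.succ 3)) (DT.var 0))

@[simp] theorem dt_pc {n : ℕ} {s t r q : (Fin n → M) → M} (hs : DT s) (ht : DT t) (hr : DT r)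
    (hq : DT q) : DT (fun v => pc (s v) (t v) (r v) (q v)) := dt4 pc.dt hs ht hr hq

open Classical in
theorem dt_pcF (J x y : M) :
    DT (fun w : Fin 1 → M => if w 0 ∈ J then ap x (w 0) else ap y (w 0)) :=
  DT.ite (Dfn.mem (DT.var 0) (DT.const J)) (dt_ap (DT.const x) (DT.var 0))
    (dt_ap (DT.const y) (DT.var 0))

theorem ap_pc_mem {K J x y j : M} (hj : j ∈ K) (h : j ∈ J) : ap (pc K J x y) j = ap x j := by
  classical
  unfold pc
  rw [ap_lam (F := fun j => if j ∈ J then ap x j else ap y j) (dt_pcF J x y) hj, if_pos h]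

theorem ap_pc_not {K J x y j : M} (hj : j ∈ K) (h : j ∉ J) : ap (pc K J x y) j = ap y j := by
  classical
  unfold pc
  rw [ap_lam (F := fun j => if j ∈ J then ap x j else ap y j) (dt_pcF J x y) hj, if_neg h]

theorem pc_mem {K A J x y : M} (hx : x ∈ Om K A) (hy : y ∈ Om K A) : pc K J x y ∈ Om K A := by
  classical
  have h1 : ∀ j, j ∈ K → ap (pc K J x y) j ∈ ap A j ∧ ap (pc K J x y) j ∈ K := by
    intro j hj
    by_cases h : j ∈ J
    · rw [ap_pc_mem hj h]
      exact ⟨(mem_Om.1 hx).2 j hj, (mem_fs.1 (mem_Om.1 hx).1).2 j hj⟩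
    · rw [ap_pc_not hj h]
      exact ⟨(mem_Om.1 hy).2 j hj, (mem_fs.1 (mem_Om.1 hy).1).2 j hj⟩
  refine mem_Om.2 ⟨mem_fs.2 ⟨?_, fun j hj => (h1 j hj).2⟩, fun j hj => (h1 j hj).1⟩
  exact fn_lam (F := fun j => if j ∈ J then ap x j else ap y j) (dt_pcF J x y)

section

variable {K A U : M} (S : Sys K A U)
include S

theorem rs_mem_fs {ω i : M} (hω : ω ∈ Om K A) (hi : i ∈ K) : rs ω i ∈ fs i K := by
  have hfs := (mem_Om.1 hω).1
  exact mem_fs.2 ⟨fn_rs (mem_fs.1 hfs).1 (S.ord.sb hi), fun x hx => by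
    rw [ap_rs (mem_fs.1 hfs).1 (S.ord.sb hi) hx]
    exact (mem_fs.1 hfs).2 x (S.ord.sb hi x hx)⟩

theorem ev_iff (P : M → Prop) : (∀ᶠ ω in FF K A U, P ω) ↔
    ∃ B, St K U B ∧ ∀ ω, ω ∈ Om K A → Fo K B ω → P ω :=
  ⟨fun h => h S, fun h _ => h⟩

theorem exists_branch {B : M} (hB : St K U B) : ∃ ω, ω ∈ Om K A ∧ Fo K B ω := by
  have hG : DT (fun w : Fin 2 → M => mn (ap B (op (w 0) (w 1)))) := by
    simp (maxDischargeDepth := 50)
  obtain ⟨f, hf, hfr⟩ := ord_recursion S.ord (G := fun i h => mn (ap B (op i h))) hG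
  have key : ∀ i, i ∈ K → ap f i ∈ ap B (op i (rs f i)) ∧ ap f i ∈ ap A i := by
    have hd : Dfn (fun w : Fin 1 → M => ap f (w 0) ∈ ap B (op (w 0) (rs f (w 0))) ∧
        ap f (w 0) ∈ ap A (w 0)) := by simp (maxDischargeDepth := 50)
    refine S.ord.ind (P := fun i => ap f i ∈ ap B (op i (rs f i)) ∧ ap f i ∈ ap A i) hd ?_
    intro i hi ih
    have hr : rs f i ∈ fs i K := by
      refine mem_fs.2 ⟨fn_rs hf (S.ord.sb hi), fun x hx => ?_⟩
      rw [ap_rs hf (S.ord.sb hi) hx]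
      exact S.sub x (S.ord.sb hi x hx) _ (ih x hx).2
    have hU := hB i hi _ hr
    have hsub : Sb (ap B (op i (rs f i))) (ap A i) := (S.uf i hi).1 _ hU
    have hne : ∃ x, x ∈ ap B (op i (rs f i)) := by
      by_contra hcon
      have : ap B (op i (rs f i)) = em :=
        ext' fun z => ⟨fun hz => absurd ⟨z, hz⟩ hcon, fun hz => absurd hz (not_mem_em z)⟩
      rw [this] at hU
      exact (S.uf i hi).2.2.1 hU
    have hmn := mn_mem S.ord (fun z hz => S.sub i hi z (hsub z hz)) hne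
    rw [hfr i hi]
    exact ⟨hmn, hsub _ hmn⟩
  exact ⟨f, mem_Om.2 ⟨mem_fs.2 ⟨hf, fun i hi => S.sub i hi _ (key i hi).2⟩,
    fun i hi => (key i hi).2⟩, fun i hi => (key i hi).1⟩

theorem FF_neBot : (FF K A U).NeBot := by
  refine ⟨fun h => ?_⟩
  have h0 : ∀ᶠ ω in FF K A U, False := by rw [h]; exact Filter.eventually_bot
  obtain ⟨B, hB, hX⟩ := (ev_iff S _).1 h0
  obtain ⟨ω, hω, hf⟩ := exists_branch S hB
  exact hX ω hω hf

theorem exists_Om : ∃ ω, ω ∈ Om K A := by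
  have := FF_neBot S
  exact (ev_Om K A U).exists

omit S in
theorem Sb.it_eq {X Y : M} (h : Sb X Y) : it X Y = X :=
  ext' fun z => by rw [mem_it]; exact ⟨fun hz => hz.1, fun hz => ⟨hz, h z hz⟩⟩

omit S in
theorem dt_bddF (B K : M) : DT (fun w : Fin 1 → M => it (ap B (w 0)) K) := by
  simp (maxDischargeDepth := 50)

/-- A strategy can be taken in a set. -/
theorem strat_bdd {B : M} (hB : St K U B) : ∃ B', B' ∈ fs (SD K) (pw K) ∧ St K U B' ∧
    ∀ ω, ω ∈ Om K A → Fo K B' ω → Fo K B ω := by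
  have h1 : ∀ i, i ∈ K → ∀ p, p ∈ fs i K →
      ap (lam (SD K) fun z => it (ap B z) K) (op i p) = ap B (op i p) := by
    intro i hi p hp
    rw [ap_lam_SD S.ord (dt_bddF B K) hi hp]
    exact ext' fun z => by
      rw [mem_it]
      exact ⟨fun hz => hz.1, fun hz => ⟨hz, S.sub i hi z ((S.uf i hi).1 _ (hB i hi p hp) z hz)⟩⟩
  refine ⟨lam (SD K) fun z => it (ap B z) K, lam_mem_fs (dt_bddF B K) fun z _ =>
    mem_pw.2 fun x hx => (mem_it.1 hx).2, fun i hi p hp => ?_, fun ω hω hf i hi => ?_⟩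
  · rw [h1 i hi p hp]; exact hB i hi p hp
  · have := hf i hi
    rwa [h1 i hi _ (rs_mem_fs S hω hi)] at this

/-- Completeness for families indexed by a set which is small for all the ultrafilters. -/
theorem ev_inter {X : M} (hX : ∀ i, i ∈ K → Sm (ap U i) (ap A i) X) {P : M → M → Prop}
    (hP : Dfn (fun w : Fin 2 → M => P (w 0) (w 1)))
    (h : ∀ y, y ∈ X → ∀ᶠ ω in FF K A U, P y ω) : ∀ᶠ ω in FF K A U, ∀ y, y ∈ X → P y ω := by
  have hQ : Dfn (fun w : Fin 2 → M => St K U (w 1) ∧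
      ∀ ω, ω ∈ Om K A → Fo K (w 1) ω → P (w 0) ω) := by
    refine Dfn.and (by simp) ?_
    refine Dfn.all (P := fun (w : Fin 2 → M) ω => ω ∈ Om K A → Fo K (w 1) ω → P (w 0) ω) ?_
    exact Dfn.imp (by simp) (Dfn.imp (by simp) (dfn2 hP (DT.var 1) (DT.var 0)))
  obtain ⟨g, hg, hgP⟩ := choice' (a := X) (b := fs (SD K) (pw K))
    (P := fun y B => St K U B ∧ ∀ ω, ω ∈ Om K A → Fo K B ω → P y ω) hQ (by
      intro y hy
      obtain ⟨B, hB, hB'⟩ := (ev_iff S _).1 (h y hy)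
      obtain ⟨B', h1, h2, h3⟩ := strat_bdd S hB
      exact ⟨B', h1, h2, fun ω hω hf => hB' ω hω (h3 ω hω hf)⟩)
  have hF : DT (fun w : Fin 1 → M => sp (ap A (p1 (w 0))) fun x =>
      ∀ y, y ∈ X → x ∈ ap (ap g y) (w 0)) := by simp (maxDischargeDepth := 50)
  have h1 : ∀ i, i ∈ K → ∀ p, p ∈ fs i K → ∀ x,
      x ∈ ap (lam (SD K) fun z => sp (ap A (p1 z)) fun x => ∀ y, y ∈ X → x ∈ ap (ap g y) z)
        (op i p) ↔ x ∈ ap A i ∧ ∀ y, y ∈ X → x ∈ ap (ap g y) (op i p) := by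
    intro i hi p hp x
    rw [ap_lam_SD S.ord hF hi hp, p1_op, mem_sp (by simp (maxDischargeDepth := 50))]
  refine (ev_iff S _).2 ⟨lam (SD K) fun z => sp (ap A (p1 z)) fun x =>
    ∀ y, y ∈ X → x ∈ ap (ap g y) z, fun i hi p hp => ?_, fun ω hω hf y hy => ?_⟩
  · rw [ap_lam_SD S.ord hF hi hp, p1_op]
    refine (ae_sp (S.uf i hi) (by simp (maxDischargeDepth := 50))).2 ?_
    refine (hX i hi).inter (S.uf i hi) (P := fun y x => x ∈ ap (ap g y) (op i p))
      (by simp (maxDischargeDepth := 50)) fun y hy => ?_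
    have h2 := (hgP y hy).1 i hi p hp
    exact (ae_mem (S.uf i hi) ((S.uf i hi).1 _ h2)).1 h2
  · refine (hgP y hy).2 ω hω fun i hi => ?_
    exact ((h1 i hi _ (rs_mem_fs S hω hi) _).1 (hf i hi)).2 y hy

omit S in
open Classical in
theorem dt_extF (p i ω : M) :
    DT (fun w : Fin 1 → M => if w 0 ∈ i then ap p (w 0) else ap ω (w 0)) :=
  DT.ite (Dfn.mem (DT.var 0) (DT.const i)) (dt_ap (DT.const p) (DT.var 0))
    (dt_ap (DT.const ω) (DT.var 0))

/-- One step of the iterated quantifier. -/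
theorem ev_of_step {P : M → Prop} (hP : Dfn (fun w : Fin 1 → M => P (w 0))) {i s : M}
    (hi : i ∈ K) (hs : Sb s i) (hd : Dp K A P (un s (pr i i)))
    (h : ∀ᶠ ω in FF K A U, Ae (ap U i) (ap A i) fun a => P (up K ω i a)) :
    ∀ᶠ ω in FF K A U, P ω := by
  obtain ⟨B, hB, hBP⟩ := (ev_iff S _).1 h
  obtain ⟨ω₀, hω₀⟩ := exists_Om S
  -- the point `pc K i p ω₀` extends `p`
  set C := lam (SD K) fun z => sp (ap B z) fun a => p1 z = i →
    Ae (ap U i) (ap A i) (fun b => P (up K (pc K i (p2 z) ω₀) i b)) →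
      P (up K (pc K i (p2 z) ω₀) i a) with hC
  have hPP : ∀ {n : ℕ} {t : (Fin n → M) → M}, DT t → Dfn (fun v => P (t v)) :=
    fun ht => dfn1 hP ht
  have hF : DT (fun w : Fin 1 → M => sp (ap B (w 0)) fun a => p1 (w 0) = i →
    Ae (ap U i) (ap A i) (fun b => P (up K (pc K i (p2 (w 0)) ω₀) i b)) →
      P (up K (pc K i (p2 (w 0)) ω₀) i a)) := by
    simp (maxDischargeDepth := 50) [hPP]
  have hapC : ∀ j, j ∈ K → ∀ p, p ∈ fs j K → ∀ x, x ∈ ap C (op j p) ↔ x ∈ ap B (op j p) ∧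
      (j = i → Ae (ap U i) (ap A i) (fun b => P (up K (pc K i p ω₀) i b)) →
        P (up K (pc K i p ω₀) i x)) := by
    intro j hj p hp x
    rw [hC, ap_lam_SD S.ord hF hj hp, p1_op, p2_op, mem_sp (by
      simp (maxDischargeDepth := 50) [hPP])]
  refine (ev_iff S _).2 ⟨C, fun j hj p hp => ?_, fun ω hω hf => ?_⟩
  · have hBU := hB j hj p hp
    have hsub : Sb (ap C (op j p)) (ap A j) := fun x hx =>
      (S.uf j hj).1 _ hBU x ((hapC j hj p hp x).1 hx).1
    by_cases hc : j = i ∧ Ae (ap U i) (ap A i) (fun b => P (up K (pc K i p ω₀) i b))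
    · obtain ⟨rfl, hae⟩ := hc
      have h2 := (ae_sp (S.uf j hj) (P := fun b => P (up K (pc K j p ω₀) j b))
        (by simp (maxDischargeDepth := 50) [hPP])).2 hae
      refine (S.uf j hj).2.2.2.1 _ _ ((S.uf j hj).2.2.2.2.1 _ _ hBU h2) (fun x hx => ?_) hsub
      rw [mem_it, mem_sp (by simp (maxDischargeDepth := 50) [hPP])] at hx
      exact (hapC j hj p hp x).2 ⟨hx.1, fun _ _ => hx.2.2⟩
    · refine (S.uf j hj).2.2.2.1 _ _ hBU (fun x hx => ?_) hsub
      exact (hapC j hj p hp x).2 ⟨hx, fun h1 h2 => absurd ⟨h1, h2⟩ hc⟩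
  · have hr := fun j (hj : j ∈ K) => rs_mem_fs S hω hj
    have hfC := fun j (hj : j ∈ K) => (hapC j hj _ (hr j hj) _).1 (hf j hj)
    have h1 := hBP ω hω fun j hj => (hfC j hj).1
    set p := rs ω i with hp
    have hext : ∀ j, j ∈ i → ap (pc K i p ω₀) j = ap ω j := by
      intro j hj
      rw [ap_pc_mem (S.ord.sb hi j hj) hj, hp,
        ap_rs (mem_fs.1 (mem_Om.1 hω).1).1 (S.ord.sb hi) hj]
    have hext' : pc K i p ω₀ ∈ Om K A := by
      have h2 : pc K i p ω₀ = pc K i ω ω₀ := by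
        refine (fn_lam (dt_pcF i p ω₀)).ext (fn_lam (dt_pcF i ω ω₀)) fun j hj => ?_
        by_cases hji : j ∈ i
        · show ap (pc K i p ω₀) j = ap (pc K i ω ω₀) j
          rw [hext j hji, ap_pc_mem hj hji]
        · show ap (pc K i p ω₀) j = ap (pc K i ω ω₀) j
          rw [ap_pc_not hj hji, ap_pc_not hj hji]
      rw [h2]; exact pc_mem hω hω₀
    have hup : ∀ a, a ∈ ap A i → (P (up K (pc K i p ω₀) i a) ↔ P (up K ω i a)) := by
      intro a ha
      refine hd _ _ (up_mem S.sub hext' hi ha) (up_mem S.sub hω hi ha) fun j hj => ?_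
      rcases mem_un.1 hj with hj | hj
      · have hji : j ≠ i := fun h => not_mem_self i (by rw [h] at hj; exact hs i hj)
        have hjK : j ∈ K := S.ord.sb hi j (hs j hj)
        rw [ap_up_ne hjK hji, ap_up_ne hjK hji, hext j (hs j hj)]
      · have : j = i := by simpa using hj
        subst this
        rw [ap_up_same hi, ap_up_same hi]
    have h2 : Ae (ap U i) (ap A i) fun b => P (up K (pc K i p ω₀) i b) :=
      h1.mono fun a ha h => (hup a ha).2 h
    have h3 := (hfC i hi).2 rfl h2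
    have h4 := (hup _ ((mem_Om.1 hω).2 i hi)).1 h3
    refine (hd _ _ (up_mem S.sub hω hi ((mem_Om.1 hω).2 i hi)) hω fun j hj => ?_).1 h4
    by_cases hji : j = i
    · subst hji; rw [ap_up_same hi]
    · rcases mem_un.1 hj with hj | hj
      · rw [ap_up_ne (S.ord.sb hi j (hs j hj)) hji]
      · exact absurd (by simpa using hj) hji

omit S in
theorem Dp.congr {P Q : M → Prop} {s : M} (h : Dp K A P s)
    (hPQ : ∀ ω, ω ∈ Om K A → (P ω ↔ Q ω)) : Dp K A Q s := fun x y hx hy hxy => by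
  rw [← hPQ x hx, ← hPQ y hy]; exact h x y hx hy hxy

omit S in
theorem Dp.not {P : M → Prop} {s : M} (h : Dp K A P s) : Dp K A (fun ω => ¬ P ω) s :=
  fun x y hx hy hxy => not_congr (h x y hx hy hxy)

omit S in
theorem Dp.mono {P : M → Prop} {s t : M} (h : Dp K A P s) (hst : Sb s t) : Dp K A P t :=
  fun x y hx hy hxy => h x y hx hy fun i hi => hxy i (hst i hi)

omit S in
theorem Df.mono {F : M → M} {s t : M} (h : Df K A F s) (hst : Sb s t) : Df K A F t :=
  fun x y hx hy hxy => h x y hx hy fun i hi => hxy i (hst i hi)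

theorem Dp.step {P : M → Prop} {i s : M} (hi : i ∈ K) (hs : Sb s i)
    (hd : Dp K A P (un s (pr i i))) :
    Dp K A (fun ω => Ae (ap U i) (ap A i) fun a => P (up K ω i a)) s := by
  have key : ∀ x y, x ∈ Om K A → y ∈ Om K A → (∀ j, j ∈ s → ap x j = ap y j) →
      (Ae (ap U i) (ap A i) fun a => P (up K x i a)) →
      Ae (ap U i) (ap A i) fun a => P (up K y i a) := by
    intro x y hx hy hxy h
    refine h.mono fun a ha hPa => ?_
    refine (hd _ _ (up_mem S.sub hx hi ha) (up_mem S.sub hy hi ha) fun j hj => ?_).1 hPa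
    by_cases hji : j = i
    · subst hji; rw [ap_up_same hi, ap_up_same hi]
    · rcases mem_un.1 hj with hj | hj
      · have hjK : j ∈ K := S.ord.sb hi j (hs j hj)
        rw [ap_up_ne hjK hji, ap_up_ne hjK hji, hxy j hj]
      · exact absurd (by simpa using hj) hji
  exact fun x y hx hy hxy => ⟨key x y hx hy hxy, key y x hy hx fun j hj => (hxy j hj).symm⟩

theorem ultra_set : ∀ s, Sb s K → Fi s → ∀ X, Sb X (Om K A) → Dp K A (fun ω => ω ∈ X) s →
    (∀ᶠ ω in FF K A U, ω ∈ X) ∨ ∀ᶠ ω in FF K A U, ω ∉ X := by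
  have hQ : Dfn (fun w : Fin 1 → M => ∀ X, Sb X (Om K A) → Dp K A (fun ω => ω ∈ X) (w 0) →
      (∀ᶠ ω in FF K A U, ω ∈ X) ∨ ∀ᶠ ω in FF K A U, ω ∉ X) := by
    refine Dfn.all (P := fun (w : Fin 1 → M) X => Sb X (Om K A) →
      Dp K A (fun ω => ω ∈ X) (w 0) →
      (∀ᶠ ω in FF K A U, ω ∈ X) ∨ ∀ᶠ ω in FF K A U, ω ∉ X) ?_
    refine Dfn.imp (by simp) (Dfn.imp ?_ (Dfn.or ?_ ?_))
    · exact dfn_Dp (P := fun (w : Fin 2 → M) ω => ω ∈ w 0) (DT.const K) (DT.const A) (DT.var 1)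
        (Dfn.mem (DT.var 0) (DT.var 1))
    · exact dfn_ev (P := fun (w : Fin 2 → M) ω => ω ∈ w 0) (DT.const K) (DT.const A)
        (DT.const U) (Dfn.mem (DT.var 0) (DT.var 1))
    · exact dfn_ev (P := fun (w : Fin 2 → M) ω => ω ∉ w 0) (DT.const K) (DT.const A)
        (DT.const U) (Dfn.not (Dfn.mem (DT.var 0) (DT.var 1)))
  refine Fi.ind S.ord hQ ?_ ?_
  · intro X hX hd
    obtain ⟨ω₀, hω₀⟩ := exists_Om S
    by_cases h0 : ω₀ ∈ X
    · left
      filter_upwards [ev_Om K A U] with ω hω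
      exact (hd ω₀ ω hω₀ hω (fun i hi => absurd hi (not_mem_em i))).1 h0
    · right
      filter_upwards [ev_Om K A U] with ω hω
      exact fun h => h0 ((hd ω₀ ω hω₀ hω (fun i hi => absurd hi (not_mem_em i))).2 h)
  · intro i s hi hs hfs ih X hX hd
    have hXd : ∀ {n : ℕ} {t : (Fin n → M) → M}, DT t → Dfn (fun v => t v ∈ X) :=
      fun ht => Dfn.mem ht (DT.const X)
    have hstep : Dfn (fun w : Fin 1 → M =>
        Ae (ap U i) (ap A i) fun a => up K (w 0) i a ∈ X) := by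
      simp (maxDischargeDepth := 50)
    have hm : ∀ ω, ω ∈ sp (Om K A) (fun ω => Ae (ap U i) (ap A i) fun a => up K ω i a ∈ X) ↔
        ω ∈ Om K A ∧ Ae (ap U i) (ap A i) fun a => up K ω i a ∈ X := fun ω => mem_sp hstep
    have hdX := Dp.step S hi hs hd
    rcases ih (sp (Om K A) fun ω => Ae (ap U i) (ap A i) fun a => up K ω i a ∈ X)
      (fun ω hω => ((hm ω).1 hω).1) (hdX.congr fun ω hω => by rw [hm ω]; simp [hω]) with h1 | h1
    · left
      refine ev_of_step S (P := fun ω => ω ∈ X) (by simp) hi hs hd ?_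
      filter_upwards [h1] with ω hω
      exact ((hm ω).1 hω).2
    · right
      refine ev_of_step S (P := fun ω => ω ∉ X) (by simp) hi hs hd.not ?_
      filter_upwards [h1, ev_Om K A U] with ω hω hω'
      rw [hm ω] at hω
      have h2 : ¬ Ae (ap U i) (ap A i) fun a => up K ω i a ∈ X := fun h => hω ⟨hω', h⟩
      exact (ae_not (S.uf i hi) (P := fun a => up K ω i a ∈ X)
        (by simp (maxDischargeDepth := 50))).2 h2

theorem ultra {P : M → Prop} (hP : Dfn (fun w : Fin 1 → M => P (w 0))) {s : M}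
    (hs : Sb s K) (hf : Fi s) (hd : Dp K A P s) :
    (∀ᶠ ω in FF K A U, P ω) ∨ ∀ᶠ ω in FF K A U, ¬ P ω := by
  have hm : ∀ ω, ω ∈ sp (Om K A) P ↔ ω ∈ Om K A ∧ P ω := fun ω => mem_sp hP
  rcases ultra_set S s hs hf (sp (Om K A) P) (fun ω hω => ((hm ω).1 hω).1)
    (hd.congr fun ω hω => by rw [hm ω]; simp [hω]) with h | h
  · left
    filter_upwards [h] with ω hω
    exact ((hm ω).1 hω).2
  · right
    filter_upwards [h, ev_Om K A U] with ω hω hω' hPω
    exact hω ((hm ω).2 ⟨hω', hPω⟩)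

theorem ev_not {P : M → Prop} (hP : Dfn (fun w : Fin 1 → M => P (w 0))) {s : M}
    (hs : Sb s K) (hf : Fi s) (hd : Dp K A P s) :
    (∀ᶠ ω in FF K A U, ¬ P ω) ↔ ¬ ∀ᶠ ω in FF K A U, P ω := by
  have := FF_neBot S
  constructor
  · intro h1 h2
    obtain ⟨ω, hω⟩ := (h1.and h2).exists
    exact hω.1 hω.2
  · intro h1
    exact (ultra S hP hs hf hd).resolve_left h1

theorem ev_step_iff {P : M → Prop} (hP : Dfn (fun w : Fin 1 → M => P (w 0))) {i s : M}
    (hi : i ∈ K) (hs : Sb s i) (hf : Fi s) (hd : Dp K A P (un s (pr i i))) :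
    (∀ᶠ ω in FF K A U, P ω) ↔
      ∀ᶠ ω in FF K A U, Ae (ap U i) (ap A i) fun a => P (up K ω i a) := by
  refine ⟨fun h => ?_, ev_of_step S hP hi hs hd⟩
  have hPP : ∀ {n : ℕ} {t : (Fin n → M) → M}, DT t → Dfn (fun v => P (t v)) :=
    fun ht => dfn1 hP ht
  have hsK : Sb s K := fun x hx => S.ord.sb hi x (hs x hx)
  have hstep : Dfn (fun w : Fin 1 → M => Ae (ap U i) (ap A i) fun a => P (up K (w 0) i a)) := by
    simp (maxDischargeDepth := 50) [hPP]
  by_contra hcon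
  rw [← ev_not S hstep hsK hf (Dp.step S hi hs hd)] at hcon
  have h1 : ∀ᶠ ω in FF K A U, ¬ P ω := by
    refine ev_of_step S (P := fun ω => ¬ P ω) hP.not hi hs hd.not ?_
    filter_upwards [hcon] with ω hω
    exact (ae_not (S.uf i hi) (P := fun a => P (up K ω i a))
      (by simp (maxDischargeDepth := 50) [hPP])).2 hω
  have hK' : Sb (un s (pr i i)) K := fun x hx => by
    rcases mem_un.1 hx with h | h
    · exact hsK x h
    · have : x = i := by simpa using h
      rw [this]; exact hi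
  rw [ev_not S hP hK' (fi_un S.ord hsK (fun x hx => by
    have : x = i := by simpa using hx
    rw [this]; exact hi) hf (fi_single i)) hd] at h1
  exact h1 h

end

end Pool.Agent.SigB
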