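import Pool.Agent.SigB.Prod

/-!
Reduction of coordinates and Fubini theorems for the iterated product filter inside a model of ZFC.
-/

universe u

set_option linter.unusedSectionVars false

namespace Pool.Agent.SigB

open Filter

variable {M : Type u} [Membership M M] [IsZFC M]

/-- The element of `X` satisfying `P`. -/
noncomputable def the (X : M) (P : M → Prop) : M := sU (sp X P)

@[simp] theorem dt_the {n : ℕ} {s : (Fin n → M) → M} {P : (Fin n → M) → M → Prop} (hs : DT s)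
    (hP : Dfn (fun w : Fin (n + 1) → M => P (fun i => w i.succ) (w 0))) :
    DT (fun v => the (s v) (P v)) := dt_sU (dt_sp hs hP)

theorem the_eq {X y : M} {P : M → Prop} (hP : Dfn (fun w : Fin 1 → M => P (w 0)))
    (hy : y ∈ X) (h : P y) (hu : ∀ z, z ∈ X → P z → z = y) : the X P = y := by
  refine ext' fun z => ?_
  unfold the
  rw [mem_sU]
  constructor
  · rintro ⟨t, ht, hz⟩
    rw [mem_sp hP] at ht
    rwa [hu t ht.1 ht.2] at hz
  · intro hz
    exact ⟨y, (mem_sp hP).2 ⟨hy, h⟩, hz⟩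

open Classical in
theorem fn_pc {K J x y : M} : Fn (pc K J x y) K := by
  unfold pc
  refine fn_lam ?_
  have h : Dfn (fun w : Fin 2 → M => (w 1 ∈ J ∧ w 0 = ap x (w 1)) ∨ (w 1 ∉ J ∧ w 0 = ap y (w 1))) := by
    simp (maxDischargeDepth := 50)
  refine h.congr fun w => ?_
  show _ ↔ w 0 = if w 1 ∈ J then ap x (w 1) else ap y (w 1)
  by_cases hw : w 1 ∈ J
  · simp [hw]
  · simp [hw]

section

variable {K A U : M} (S : Sys K A U)
include S

/-- Elimination of the coordinates for which the set of values is small. -/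
theorem exists_reduce {X J L : M} (hX : ∀ i, i ∈ J → Sm (ap U i) (ap A i) X) (hJ : Sb J K)
    (hL : Sb L K) (hlt : ∀ k j, k ∈ L → j ∈ J → k ∈ j) {s : M} (hs : Sb s (un L J)) (hf : Fi s)
    {f : M} (hfX : f ∈ fs (Om K A) X) (hd : Df K A (ap f) s) :
    ∃ g, g ∈ fs (Om K A) X ∧ Df K A (ap g) (it s L) ∧ ∀ᶠ ω in FF K A U, ap f ω = ap g ω := by
  have hsK : Sb s K := fun x hx => by
    rcases mem_un.1 (hs x hx) with h | h
    · exact hL x h
    · exact hJ x h
  refine Fi.ind S.ord (P := fun s => Sb s (un L J) → ∀ f, f ∈ fs (Om K A) X → Df K A (ap f) s →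
    ∃ g, g ∈ fs (Om K A) X ∧ Df K A (ap g) (it s L) ∧ ∀ᶠ ω in FF K A U, ap f ω = ap g ω)
    ?_ ?_ ?_ s hsK hf hs f hfX hd
  · simp (maxDischargeDepth := 50)
  · intro _ f hfX hd
    refine ⟨f, hfX, ?_, Eventually.of_forall fun _ => rfl⟩
    intro x y hx hy _
    exact hd x y hx hy fun i hi => (not_mem_em i hi).elim
  · clear hsK hfX hd hf hs f s
    intro i s hi hsi hfi IH hs f hfX hd
    have hiu : i ∈ un L J := hs i (by simp)
    by_cases hiL : i ∈ L
    · refine ⟨f, hfX, hd.mono ?_, Eventually.of_forall fun _ => rfl⟩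
      intro j hj
      rw [mem_it]
      refine ⟨hj, ?_⟩
      rcases mem_un.1 (hs j hj) with h | h
      · exact h
      · exfalso
        have h1 := hlt i j hiL h
        rcases mem_un.1 hj with h2 | h2
        · exact not_mem_mem h1 (hsi j h2)
        · have : j = i := by simpa using h2
          subst this
          exact not_mem_self _ h1
    · have hiJ : i ∈ J := (mem_un.1 hiu).resolve_left hiL
      have hsm := hX i hiJ
      have hu := S.uf i hi
      obtain ⟨hfn, hfv⟩ := mem_fs.1 hfX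
      have hup : ∀ ω, ω ∈ Om K A → ∀ a, a ∈ ap A i → up K ω i a ∈ Om K A := fun ω hω a ha =>
        up_mem S.sub hω hi ha
      have hsK' : ∀ j, j ∈ s → j ∈ K := fun j hj => S.ord.trans (hsi j hj) hi
      have hne : ∀ j, j ∈ s → j ≠ i := fun j hj h => not_mem_self i (h ▸ hsi j hj)
      -- the almost everywhere value
      let F : M → M := fun ω => the X fun y => Ae (ap U i) (ap A i) fun a => ap f (up K ω i a) = y
      have hF : DT (fun w : Fin 1 → M => F (w 0)) := by
        simp only [F]; simp (maxDischargeDepth := 50)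
      have hFs : ∀ ω, ω ∈ Om K A → F ω ∈ X ∧
          Ae (ap U i) (ap A i) fun a => ap f (up K ω i a) = F ω := by
        intro ω hω
        obtain ⟨y, hy, hy'⟩ := hsm.const (F := fun a => ap f (up K ω i a))
          (by simp (maxDischargeDepth := 50)) fun a ha => hfv _ (hup ω hω a ha)
        have : F ω = y := by
          refine the_eq (by simp (maxDischargeDepth := 50)) hy hy' fun z _ hz => ?_
          obtain ⟨a, ha, h1, h2⟩ := (Ae.and hu hy' hz).exists hu
          exact h2.symm.trans h1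
        rw [this]
        exact ⟨hy, hy'⟩
      let f' : M := lam (Om K A) F
      have hf'v : ∀ ω, ω ∈ Om K A → ap f' ω = F ω := fun ω hω => ap_lam hF hω
      have hf'X : f' ∈ fs (Om K A) X := lam_mem_fs hF fun ω hω => (hFs ω hω).1
      have hf'd : Df K A (ap f') s := by
        intro x y hx hy hxy
        rw [hf'v x hx, hf'v y hy]
        obtain ⟨a, ha, h1, h2⟩ := (Ae.and hu (hFs x hx).2 (hFs y hy).2).exists hu
        rw [← h1, ← h2]
        refine hd _ _ (hup x hx a ha) (hup y hy a ha) fun j hj => ?_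
        rcases mem_un.1 hj with hj' | hj'
        · rw [ap_up_ne (hsK' j hj') (hne j hj'), ap_up_ne (hsK' j hj') (hne j hj')]
          exact hxy j hj'
        · have : j = i := by simpa using hj'
          subst this
          rw [ap_up_same hi, ap_up_same hi]
      obtain ⟨g, hgX, hgd, hg⟩ := IH (fun j hj => hs j (by simp [hj])) f' hf'X hf'd
      refine ⟨g, hgX, hgd.mono fun j hj => ?_, ?_⟩
      · rw [mem_it] at hj ⊢
        exact ⟨by simp [hj.1], hj.2⟩
      · refine (ev_step_iff S (P := fun ω => ap f ω = ap g ω) (by simp (maxDischargeDepth := 50))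
          hi hsi hfi ?_).2 ?_
        · intro x y hx hy hxy
          have h1 : ap f x = ap f y := hd x y hx hy hxy
          have h2 : ap g x = ap g y := hgd x y hx hy fun j hj => hxy j (by
            rw [mem_it] at hj; simp [hj.1])
          show ap f x = ap g x ↔ ap f y = ap g y
          rw [h1, h2]
        · filter_upwards [hg, ev_Om K A U] with ω h1 hω
          refine (hFs ω hω).2.mono fun a ha h2 => ?_
          rw [h2, ← hf'v ω hω, h1]
          refine hgd _ _ hω (hup ω hω a ha) fun j hj => ?_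
          rw [mem_it] at hj
          rw [ap_up_ne (hsK' j hj.1) (hne j hj.1)]

theorem exists_const {X J : M} (hX : ∀ i, i ∈ J → Sm (ap U i) (ap A i) X) (hJ : Sb J K)
    {s : M} (hs : Sb s J) (hf : Fi s)
    {f : M} (hfX : f ∈ fs (Om K A) X) (hd : Df K A (ap f) s) :
    ∃ b, b ∈ X ∧ ∀ᶠ ω in FF K A U, ap f ω = b := by
  obtain ⟨g, hgX, hgd, hg⟩ := exists_reduce S hX hJ (L := em) (fun x hx => (not_mem_em x hx).elim)
    (fun k j hk => (not_mem_em k hk).elim) (fun j hj => mem_un.2 (Or.inr (hs j hj))) hf hfX hd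
  have := FF_neBot S
  obtain ⟨ω₀, h0⟩ := (ev_Om K A U).exists
  refine ⟨ap g ω₀, (mem_fs.1 hgX).2 ω₀ h0, ?_⟩
  filter_upwards [hg, ev_Om K A U] with ω h1 hω
  rw [h1]
  refine hgd ω ω₀ hω h0 fun j hj => ?_
  rw [mem_it] at hj
  exact (not_mem_em j hj.2).elim

theorem fub_le {J₁ J₂ : M} (hJ₁ : Sb J₁ K) (hJ₂ : Sb J₂ K)
    (hlt : ∀ i j, i ∈ J₁ → j ∈ J₂ → i ∈ j) {P : M → Prop}
    (hP : Dfn (fun w : Fin 1 → M => P (w 0))) {s : M} (hs : Sb s (un J₁ J₂)) (hf : Fi s)
    (hd : Dp K A P s) :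
    (∀ᶠ ω in FF K A U, P ω) ↔ ∀ᶠ ω in FF K A U, ∀ᶠ ω' in FF K A U, P (pc K J₁ ω ω') := by
  have hneb := FF_neBot S
  have hsK : ∀ t, Sb t (un J₁ J₂) → Sb t K := fun t ht x hx => by
    rcases mem_un.1 (ht x hx) with h | h
    · exact hJ₁ x h
    · exact hJ₂ x h
  have key : ∀ s : M, Sb s K → Fi s → Sb s (un J₁ J₂) → ∀ X : M, Dp K A (fun ω => ω ∈ X) s →
      ((∀ᶠ ω in FF K A U, ω ∈ X) ↔
        ∀ᶠ ω in FF K A U, ∀ᶠ ω' in FF K A U, pc K J₁ ω ω' ∈ X) := by
    refine Fi.ind S.ord (P := fun s => Sb s (un J₁ J₂) → ∀ X : M, Dp K A (fun ω => ω ∈ X) s →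
      ((∀ᶠ ω in FF K A U, ω ∈ X) ↔
        ∀ᶠ ω in FF K A U, ∀ᶠ ω' in FF K A U, pc K J₁ ω ω' ∈ X)) ?_ ?_ ?_
    · simp (maxDischargeDepth := 50)
    · intro _ X hd
      have h1 : ∀ x y, x ∈ Om K A → y ∈ Om K A → (x ∈ X ↔ y ∈ X) := fun x y hx hy =>
        hd x y hx hy fun i hi => (not_mem_em i hi).elim
      constructor
      · intro h
        obtain ⟨ω₀, h0, h0'⟩ := (h.and (ev_Om K A U)).exists
        filter_upwards [ev_Om K A U] with ω hω
        filter_upwards [ev_Om K A U] with ω' hω'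
        exact (h1 _ _ h0' (pc_mem hω hω')).1 h0
      · intro h
        obtain ⟨ω₀, h0, h0'⟩ := (h.and (ev_Om K A U)).exists
        obtain ⟨ω₁, h2, h2'⟩ := (h0.and (ev_Om K A U)).exists
        filter_upwards [ev_Om K A U] with ω hω
        exact (h1 _ _ (pc_mem h0' h2') hω).1 h2
    · clear hs hf hd s
      intro i s hi hsi hfi IH hs X hd
      have hs' : Sb s (un J₁ J₂) := fun j hj => hs j (by simp [hj])
      have hsK' : ∀ j, j ∈ s → j ∈ K := fun j hj => S.ord.trans (hsi j hj) hi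
      have hne : ∀ j, j ∈ s → j ≠ i := fun j hj h => not_mem_self i (h ▸ hsi j hj)
      have hiu : i ∈ un J₁ J₂ := hs i (by simp)
      by_cases hi1 : i ∈ J₁
      · have hall : ∀ j, j ∈ un s (pr i i) → j ∈ J₁ := by
          intro j hj
          rcases mem_un.1 (hs j hj) with h | h
          · exact h
          · exfalso
            have h1 := hlt i j hi1 h
            rcases mem_un.1 hj with h2 | h2
            · exact not_mem_mem h1 (hsi j h2)
            · have : j = i := by simpa using h2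
              subst this
              exact not_mem_self _ h1
        have h1 : ∀ x y, x ∈ Om K A → y ∈ Om K A → (pc K J₁ x y ∈ X ↔ x ∈ X) := by
          intro x y hx hy
          refine hd _ _ (pc_mem hx hy) hx fun j hj => ?_
          exact ap_pc_mem (hJ₁ j (hall j hj)) (hall j hj)
        constructor
        · intro h
          filter_upwards [h, ev_Om K A U] with ω h2 hω
          filter_upwards [ev_Om K A U] with ω' hω'
          exact (h1 ω ω' hω hω').2 h2
        · intro h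
          filter_upwards [h, ev_Om K A U] with ω h2 hω
          obtain ⟨ω', h3, hω'⟩ := (h2.and (ev_Om K A U)).exists
          exact (h1 ω ω' hω hω').1 h3
      · have hiJ : i ∈ J₂ := (mem_un.1 hiu).resolve_left hi1
        let Y : M := sp (Om K A) fun ω => Ae (ap U i) (ap A i) fun a => up K ω i a ∈ X
        have hY : ∀ ω, ω ∈ Om K A → (ω ∈ Y ↔ Ae (ap U i) (ap A i) fun a => up K ω i a ∈ X) := by
          intro ω hω
          have : ω ∈ Y ↔ ω ∈ Om K A ∧ Ae (ap U i) (ap A i) fun a => up K ω i a ∈ X :=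
            mem_sp (by simp (maxDischargeDepth := 50))
          rw [this]
          exact ⟨fun h => h.2, fun h => ⟨hω, h⟩⟩
        have hup : ∀ ω, ω ∈ Om K A → ∀ a, a ∈ ap A i → up K ω i a ∈ Om K A := fun ω hω a ha =>
          up_mem S.sub hω hi ha
        have hYd : Dp K A (fun ω => ω ∈ Y) s := by
          intro x y hx hy hxy
          show x ∈ Y ↔ y ∈ Y
          rw [hY x hx, hY y hy]
          have h1 : ∀ a, a ∈ ap A i → (up K x i a ∈ X ↔ up K y i a ∈ X) := by
            intro a ha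
            refine hd _ _ (hup x hx a ha) (hup y hy a ha) fun j hj => ?_
            rcases mem_un.1 hj with hj' | hj'
            · rw [ap_up_ne (hsK' j hj') (hne j hj'), ap_up_ne (hsK' j hj') (hne j hj')]
              exact hxy j hj'
            · have : j = i := by simpa using hj'
              subst this
              rw [ap_up_same hi, ap_up_same hi]
          exact ⟨fun h => h.mono fun a ha => (h1 a ha).1, fun h => h.mono fun a ha => (h1 a ha).2⟩
        rw [ev_step_iff S (P := fun ω => ω ∈ X) (by simp (maxDischargeDepth := 50)) hi hsi hfi hd]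
        have h1 : (∀ᶠ ω in FF K A U, Ae (ap U i) (ap A i) fun a => up K ω i a ∈ X) ↔
            ∀ᶠ ω in FF K A U, ω ∈ Y := by
          constructor
          · intro h
            filter_upwards [h, ev_Om K A U] with ω h2 hω using (hY ω hω).2 h2
          · intro h
            filter_upwards [h, ev_Om K A U] with ω h2 hω using (hY ω hω).1 h2
        rw [h1, IH hs' Y hYd]
        -- compare the inner quantifiers
        have h2 : ∀ ω, ω ∈ Om K A → ((∀ᶠ ω' in FF K A U, pc K J₁ ω ω' ∈ Y) ↔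
            ∀ᶠ ω' in FF K A U, pc K J₁ ω ω' ∈ X) := by
          intro ω hω
          have hd' : Dp K A (fun ω' => pc K J₁ ω ω' ∈ X) (un s (pr i i)) := by
            intro x y hx hy hxy
            refine hd _ _ (pc_mem hω hx) (pc_mem hω hy) fun j hj => ?_
            have hjK : j ∈ K := hsK _ hs j hj
            by_cases hj1 : j ∈ J₁
            · rw [ap_pc_mem hjK hj1, ap_pc_mem hjK hj1]
            · rw [ap_pc_not hjK hj1, ap_pc_not hjK hj1]
              exact hxy j hj
          rw [ev_step_iff S (P := fun ω' => pc K J₁ ω ω' ∈ X) (by simp (maxDischargeDepth := 50))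
            hi hsi hfi hd']
          have h3 : ∀ ω', ω' ∈ Om K A → ∀ a, a ∈ ap A i →
              (up K (pc K J₁ ω ω') i a ∈ X ↔ pc K J₁ ω (up K ω' i a) ∈ X) := by
            intro ω' hω' a ha
            refine hd _ _ (hup _ (pc_mem hω hω') a ha) (pc_mem hω (hup _ hω' a ha)) fun j hj => ?_
            rcases mem_un.1 hj with hj' | hj'
            · have hjK := hsK' j hj'
              rw [ap_up_ne hjK (hne j hj')]
              by_cases hj1 : j ∈ J₁
              · rw [ap_pc_mem hjK hj1, ap_pc_mem hjK hj1]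
              · rw [ap_pc_not hjK hj1, ap_pc_not hjK hj1, ap_up_ne hjK (hne j hj')]
            · have : j = i := by simpa using hj'
              subst this
              rw [ap_up_same hi, ap_pc_not hi hi1, ap_up_same hi]
          constructor
          · intro h
            filter_upwards [h, ev_Om K A U] with ω' h4 hω'
            exact ((hY _ (pc_mem hω hω')).1 h4).mono fun a ha => (h3 ω' hω' a ha).1
          · intro h
            filter_upwards [h, ev_Om K A U] with ω' h4 hω'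
            exact (hY _ (pc_mem hω hω')).2 (h4.mono fun a ha => (h3 ω' hω' a ha).2)
        constructor
        · intro h
          filter_upwards [h, ev_Om K A U] with ω h4 hω using (h2 ω hω).1 h4
        · intro h
          filter_upwards [h, ev_Om K A U] with ω h4 hω using (h2 ω hω).2 h4
  let X : M := sp (Om K A) P
  have hX : ∀ ω, ω ∈ Om K A → (ω ∈ X ↔ P ω) := by
    intro ω hω
    have : ω ∈ X ↔ ω ∈ Om K A ∧ P ω := mem_sp hP
    rw [this]
    exact ⟨fun h => h.2, fun h => ⟨hω, h⟩⟩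
  have h1 := key s (hsK s hs) hf hs X fun x y hx hy hxy => by
    show x ∈ X ↔ y ∈ X
    rw [hX x hx, hX y hy]
    exact hd x y hx hy hxy
  constructor
  · intro h
    have h2 : ∀ᶠ ω in FF K A U, ω ∈ X := by
      filter_upwards [h, ev_Om K A U] with ω h2 hω using (hX ω hω).2 h2
    filter_upwards [h1.1 h2, ev_Om K A U] with ω h3 hω
    filter_upwards [h3, ev_Om K A U] with ω' h4 hω' using (hX _ (pc_mem hω hω')).1 h4
  · intro h
    have h2 : ∀ᶠ ω in FF K A U, ∀ᶠ ω' in FF K A U, pc K J₁ ω ω' ∈ X := by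
      filter_upwards [h, ev_Om K A U] with ω h3 hω
      filter_upwards [h3, ev_Om K A U] with ω' h4 hω' using (hX _ (pc_mem hω hω')).2 h4
    filter_upwards [h1.2 h2, ev_Om K A U] with ω h3 hω using (hX ω hω).1 h3

/-- Fubini in the other order: the inner coordinates (in `J₁`) and the set `J₁` itself are small
with respect to the ultrafilters of the outer coordinates (in `J₂`). -/
theorem fub_ge {J₁ J₂ B : M} (hJ₁ : Sb J₁ K) (hJ₂ : Sb J₂ K)
    (hlt : ∀ i j, i ∈ J₁ → j ∈ J₂ → i ∈ j) (hB : ∀ i, i ∈ J₁ → Sb (ap A i) B)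
    (hsm : ∀ j, j ∈ J₂ → Sm (ap U j) (ap A j) B) (hsm' : ∀ j, j ∈ J₂ → Sm (ap U j) (ap A j) J₁)
    {P : M → Prop} (hP : Dfn (fun w : Fin 1 → M => P (w 0))) {s : M} (hs : Sb s (un J₁ J₂))
    (hf : Fi s) (hd : Dp K A P s) :
    (∀ᶠ ω in FF K A U, P ω) ↔ ∀ᶠ ω' in FF K A U, ∀ᶠ ω in FF K A U, P (pc K J₁ ω ω') := by
  have hneb := FF_neBot S
  let s₁ : M := it s J₁
  let s₂ : M := df s J₁
  have hsK : Sb s K := fun x hx => by
    rcases mem_un.1 (hs x hx) with h | h
    · exact hJ₁ x h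
    · exact hJ₂ x h
  have hs₁ : ∀ j, j ∈ s₁ ↔ j ∈ s ∧ j ∈ J₁ := fun j => mem_it
  have hs₂ : ∀ j, j ∈ s₂ ↔ j ∈ s ∧ j ∉ J₁ := fun j => mem_df
  have hs₂J : Sb s₂ J₂ := fun j hj => by
    rw [hs₂] at hj
    exact (mem_un.1 (hs j hj.1)).resolve_left hj.2
  have hs₁K : Sb s₁ K := fun j hj => hsK j ((hs₁ j).1 hj).1
  let X : M := pw (fs s₁ B)
  have hX : ∀ j, j ∈ J₂ → Sm (ap U j) (ap A j) X := by
    intro j hj
    have hu := S.uf j (hJ₂ j hj)
    exact sm_pw hu (sm_fs hu ((hsm' j hj).sub hu fun i hi => ((hs₁ i).1 hi).2) (hsm j hj))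
  let Q : M → M → Prop := fun ω' t => pc K s₁ t ω' ∈ Om K A ∧ P (pc K s₁ t ω')
  have hQ : Dfn (fun w : Fin 2 → M => Q (w 0) (w 1)) := by
    simp only [Q]
    exact Dfn.and (by simp (maxDischargeDepth := 50)) (dfn1 hP (by simp (maxDischargeDepth := 50)))
  let G : M → M := fun ω' => sp (fs s₁ B) (Q ω')
  have hG : DT (fun w : Fin 1 → M => G (w 0)) := by
    refine dt_sp (P := fun (w : Fin 1 → M) t => Q (w 0) t) (by simp (maxDischargeDepth := 50)) ?_
    exact dfn2 hQ (DT.var 1) (DT.var 0)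
  have hGm : ∀ ω' t, t ∈ G ω' ↔ t ∈ fs s₁ B ∧ Q ω' t := fun ω' t =>
    mem_sp (dfn2 hQ (DT.const ω') (DT.var 0))
  let T : M := lam (Om K A) G
  have hTv : ∀ ω', ω' ∈ Om K A → ap T ω' = G ω' := fun ω' h => ap_lam hG h
  have hTX : T ∈ fs (Om K A) X := lam_mem_fs hG fun ω' _ => mem_pw.2 fun t ht => ((hGm ω' t).1 ht).1
  have hpcm : ∀ t x, x ∈ Om K A → (pc K s₁ t x ∈ Om K A ↔ ∀ j, j ∈ s₁ → ap t j ∈ ap A j) := by
    intro t x hx
    constructor
    · intro h j hj
      have := (mem_Om.1 h).2 j (hs₁K j hj)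
      rwa [ap_pc_mem (hs₁K j hj) hj] at this
    · intro h
      have hval : ∀ j, j ∈ K → ap (pc K s₁ t x) j ∈ ap A j := by
        intro j hj
        by_cases hj1 : j ∈ s₁
        · rw [ap_pc_mem hj hj1]; exact h j hj1
        · rw [ap_pc_not hj hj1]; exact (mem_Om.1 hx).2 j hj
      refine mem_Om.2 ⟨mem_fs.2 ⟨?_, fun j hj => S.sub j hj _ (hval j hj)⟩, hval⟩
      exact fn_pc
  have hTd : Df K A (ap T) s₂ := by
    intro x y hx hy hxy
    rw [hTv x hx, hTv y hy]
    refine ext' fun t => ?_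
    rw [hGm, hGm]
    refine and_congr_right fun ht => ?_
    have h1 : pc K s₁ t x ∈ Om K A ↔ pc K s₁ t y ∈ Om K A := by rw [hpcm t x hx, hpcm t y hy]
    constructor
    · rintro ⟨h2, h3⟩
      refine ⟨h1.1 h2, (hd _ _ h2 (h1.1 h2) fun j hj => ?_).1 h3⟩
      by_cases hj1 : j ∈ s₁
      · rw [ap_pc_mem (hsK j hj) hj1, ap_pc_mem (hsK j hj) hj1]
      · rw [ap_pc_not (hsK j hj) hj1, ap_pc_not (hsK j hj) hj1]
        exact hxy j ((hs₂ j).2 ⟨hj, fun h => hj1 ((hs₁ j).2 ⟨hj, h⟩)⟩)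
    · rintro ⟨h2, h3⟩
      refine ⟨h1.2 h2, (hd _ _ (h1.2 h2) h2 fun j hj => ?_).2 h3⟩
      by_cases hj1 : j ∈ s₁
      · rw [ap_pc_mem (hsK j hj) hj1, ap_pc_mem (hsK j hj) hj1]
      · rw [ap_pc_not (hsK j hj) hj1, ap_pc_not (hsK j hj) hj1]
        exact hxy j ((hs₂ j).2 ⟨hj, fun h => hj1 ((hs₁ j).2 ⟨hj, h⟩)⟩)
  obtain ⟨T₀, -, hT₀⟩ := exists_const S hX hJ₂ hs₂J (hf.mono fun j hj => ((hs₂ j).1 hj).1) hTX hTd
  have hr : ∀ ω ω', ω ∈ Om K A → ω' ∈ Om K A → (P (pc K J₁ ω ω') ↔ rs ω s₁ ∈ ap T ω') := by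
    intro ω ω' hω hω'
    have hfn : Fn ω K := (mem_fs.1 (mem_Om.1 hω).1).1
    have hv : ∀ j, j ∈ s₁ → ap (rs ω s₁) j = ap ω j := fun j hj => ap_rs hfn hs₁K hj
    have h1 : rs ω s₁ ∈ fs s₁ B := by
      refine mem_fs.2 ⟨fn_rs hfn hs₁K, fun j hj => ?_⟩
      rw [hv j hj]
      exact hB j ((hs₁ j).1 hj).2 _ ((mem_Om.1 hω).2 j (hs₁K j hj))
    have h2 : pc K s₁ (rs ω s₁) ω' ∈ Om K A := by
      rw [hpcm _ _ hω']
      intro j hj
      rw [hv j hj]
      exact (mem_Om.1 hω).2 j (hs₁K j hj)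
    rw [hTv ω' hω', hGm]
    have h3 : P (pc K J₁ ω ω') ↔ P (pc K s₁ (rs ω s₁) ω') := by
      refine hd _ _ (pc_mem hω hω') h2 fun j hj => ?_
      by_cases hj1 : j ∈ J₁
      · have : j ∈ s₁ := (hs₁ j).2 ⟨hj, hj1⟩
        rw [ap_pc_mem (hsK j hj) hj1, ap_pc_mem (hsK j hj) this, hv j this]
      · have : j ∉ s₁ := fun h => hj1 ((hs₁ j).1 h).2
        rw [ap_pc_not (hsK j hj) hj1, ap_pc_not (hsK j hj) this]
    rw [h3]
    exact ⟨fun h => ⟨h1, h2, h⟩, fun h => h.2.2⟩
  rw [fub_le S hJ₁ hJ₂ hlt hP hs hf hd]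
  have hA : (∀ᶠ ω in FF K A U, ∀ᶠ ω' in FF K A U, P (pc K J₁ ω ω')) ↔
      ∀ᶠ ω in FF K A U, rs ω s₁ ∈ T₀ := by
    constructor
    · intro h
      filter_upwards [h, ev_Om K A U] with ω h1 hω
      obtain ⟨ω', ⟨h2, h3⟩, hω'⟩ := ((h1.and hT₀).and (ev_Om K A U)).exists
      rw [← h3]
      exact (hr ω ω' hω hω').1 h2
    · intro h
      filter_upwards [h, ev_Om K A U] with ω h1 hω
      filter_upwards [hT₀, ev_Om K A U] with ω' h2 hω'
      rw [hr ω ω' hω hω', h2]
      exact h1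
  have hB' : (∀ᶠ ω' in FF K A U, ∀ᶠ ω in FF K A U, P (pc K J₁ ω ω')) ↔
      ∀ᶠ ω in FF K A U, rs ω s₁ ∈ T₀ := by
    constructor
    · intro h
      obtain ⟨ω', ⟨h2, h3⟩, hω'⟩ := ((h.and hT₀).and (ev_Om K A U)).exists
      filter_upwards [h2, ev_Om K A U] with ω h1 hω
      rw [← h3]
      exact (hr ω ω' hω hω').1 h1
    · intro h
      filter_upwards [hT₀, ev_Om K A U] with ω' h2 hω'
      filter_upwards [h, ev_Om K A U] with ω h1 hω
      rw [hr ω ω' hω hω', h2]
      exact h1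
  rw [hA, hB']

end

end Pool.Agent.SigB
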