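import Pool.Agent.SigB.Ord

/-!
The recursion theorem in a model of ZFC.
-/

universe u

set_option linter.unusedSectionVars false

namespace Pool.Agent.SigB

variable {M : Type u} [Membership M M] [IsZFC M]

/-- The relation `r` is well-founded on the set `X`. -/
def Wf (X r : M) : Prop :=
  ∀ S, Sb S X → (∃ x, x ∈ S) → ∃ m, m ∈ S ∧ ∀ y, y ∈ S → op y m ∉ r

theorem Wf.dfn : Dfn (fun w : Fin 2 → M => Wf (w 0) (w 1)) := by
  unfold Wf; simp (maxDischargeDepth := 50)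

@[simp] theorem dfn_Wf {n : ℕ} {s t : (Fin n → M) → M} (hs : DT s) (ht : DT t) :
    Dfn (fun v => Wf (s v) (t v)) := dfn2 Wf.dfn hs ht

/-- The set of predecessors of `x` in `X` with respect to `r`. -/
noncomputable def prd (X r x : M) : M := sp X fun y => op y x ∈ r

@[simp] theorem mem_prd {X r x y : M} : y ∈ prd X r x ↔ y ∈ X ∧ op y x ∈ r := by
  unfold prd
  exact mem_sp (by simp (maxDischargeDepth := 50))

theorem prd.dt : DT (fun w : Fin 3 → M => prd (w 0) (w 1) (w 2)) := by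
  unfold prd; simp (maxDischargeDepth := 50)

@[simp] theorem dt_prd {n : ℕ} {s t r : (Fin n → M) → M} (hs : DT s) (ht : DT t) (hr : DT r) :
    DT (fun v => prd (s v) (t v) (r v)) := dt3 prd.dt hs ht hr

/-- Induction along a well-founded relation. -/
theorem Wf.ind {X r : M} (hwf : Wf X r) {P : M → Prop}
    (hP : Dfn (fun w : Fin 1 → M => P (w 0)))
    (h : ∀ x, x ∈ X → (∀ y, y ∈ X → op y x ∈ r → P y) → P x) : ∀ x, x ∈ X → P x := by
  intro x hx
  by_contra hn
  have hN : Dfn (fun w : Fin 1 → M => ¬ P (w 0)) := hP.not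
  obtain ⟨m, hm, hmin⟩ := hwf (sp X fun x => ¬ P x) (fun z hz => ((mem_sp hN).1 hz).1)
    ⟨x, (mem_sp hN).2 ⟨hx, hn⟩⟩
  rw [mem_sp hN] at hm
  refine hm.2 (h m hm.1 fun y hy hyr => ?_)
  by_contra hny
  exact hmin y ((mem_sp hN).2 ⟨hy, hny⟩) hyr

/-! ### The recursion theorem -/

/-- `f` is an attempt with domain `d`. -/
def Att (X r : M) (G : M → M → M) (f d : M) : Prop :=
  Sb d X ∧ (∀ x, x ∈ d → Sb (prd X r x) d) ∧ Fn f d ∧
    ∀ x, x ∈ d → ap f x = G x (rs f (prd X r x))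

theorem Att.dfn {X r : M} {G : M → M → M} (hG : DT (fun w : Fin 2 → M => G (w 0) (w 1))) :
    Dfn (fun w : Fin 2 → M => Att X r G (w 0) (w 1)) := by
  have hG' : ∀ {n : ℕ} {s t : (Fin n → M) → M}, DT s → DT t → DT fun v => G (s v) (t v) :=
    fun hs ht => dt2 hG hs ht
  unfold Att
  simp (maxDischargeDepth := 50) [hG']

theorem Att.unique {X r : M} (hwf : Wf X r) {G : M → M → M} {f d g e : M}
    (hf : Att X r G f d) (hg : Att X r G g e) : ∀ x, x ∈ d → x ∈ e → ap f x = ap g x := by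
  have key := hwf.ind (P := fun x => x ∈ d → x ∈ e → ap f x = ap g x)
    (by simp (maxDischargeDepth := 50)) (by
    intro x hx ih hxd hxe
    rw [hf.2.2.2 x hxd, hg.2.2.2 x hxe]
    congr 1
    refine rs_congr hf.2.2.1 hg.2.2.1 (hf.2.1 x hxd) (hg.2.1 x hxe) fun y hy => ?_
    exact ih y (mem_prd.1 hy).1 (mem_prd.1 hy).2 (hf.2.1 x hxd y hy) (hg.2.1 x hxe y hy))
  intro x hxd hxe
  exact key x (hf.1 x hxd) hxd hxe

/-- The recursion theorem. -/
theorem recursion {X r : M} (hwf : Wf X r) {G : M → M → M}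
    (hG : DT (fun w : Fin 2 → M => G (w 0) (w 1))) :
    ∃ f, Fn f X ∧ ∀ x, x ∈ X → ap f x = G x (rs f (prd X r x)) := by
  have hG' : ∀ {n : ℕ} {s t : (Fin n → M) → M}, DT s → DT t → DT fun v => G (s v) (t v) :=
    fun hs ht => dt2 hG hs ht
  have hA : ∀ {n : ℕ} {s t : (Fin n → M) → M}, DT s → DT t → Dfn fun v => Att X r G (s v) (t v) :=
    fun hs ht => dfn2 (Att.dfn hG) hs ht
  -- the values
  let F : M → M := fun x => cp fun z => ∃ f d, Att X r G f d ∧ x ∈ d ∧ z ∈ ap f x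
  have hF : DT (fun w : Fin 1 → M => F (w 0)) := by
    simp (maxDischargeDepth := 50) [F, hA]
  have hF' : ∀ {n : ℕ} {s : (Fin n → M) → M}, DT s → DT fun v => F (s v) :=
    fun hs => dt1 hF hs
  have hFv : ∀ {f d x : M}, Att X r G f d → x ∈ d → F x = ap f x := by
    intro f d x hf hx
    have h1 : ∀ z, z ∈ ap f x ↔ ∃ f d, Att X r G f d ∧ x ∈ d ∧ z ∈ ap f x := by
      intro z
      constructor
      · intro hz
        exact ⟨f, d, hf, hx, hz⟩
      · rintro ⟨g, e, hg, hxe, hz⟩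
        rwa [Att.unique hwf hf hg x hx hxe]
    exact ext' fun z => by rw [h1 z]; exact mem_cp ⟨ap f x, h1⟩
  have hD : Dfn (fun w : Fin 1 → M => ∃ f d, Att X r G f d ∧ w 0 ∈ d) := by
    simp (maxDischargeDepth := 50) [hA]
  let D : M := sp X fun x => ∃ f d, Att X r G f d ∧ x ∈ d
  have hmD : ∀ x, x ∈ D ↔ x ∈ X ∧ ∃ f d, Att X r G f d ∧ x ∈ d := fun x => mem_sp hD
  have hDX : Sb D X := fun x hx => ((hmD x).1 hx).1
  have hDcl : ∀ x, x ∈ D → Sb (prd X r x) D := by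
    intro x hx y hy
    obtain ⟨-, f, d, hf, hxd⟩ := (hmD x).1 hx
    exact (hmD y).2 ⟨(mem_prd.1 hy).1, f, d, hf, hf.2.1 x hxd y hy⟩
  let φ : M := lam D F
  have hφ : Fn φ D := fn_lam hF
  have hφv : ∀ x, x ∈ D → ap φ x = F x := fun x hx => ap_lam hF hx
  have hφr : ∀ x, x ∈ D → ap φ x = G x (rs φ (prd X r x)) := by
    intro x hx
    obtain ⟨-, f, d, hf, hxd⟩ := (hmD x).1 hx
    rw [hφv x hx, hFv hf hxd, hf.2.2.2 x hxd]
    congr 1
    refine rs_congr hf.2.2.1 hφ (hf.2.1 x hxd) (hDcl x hx) fun y hy => ?_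
    rw [hφv y (hDcl x hx y hy), hFv hf (hf.2.1 x hxd y hy)]
  -- the attempt is total
  have hall : ∀ x, x ∈ X → x ∈ D := by
    refine hwf.ind (P := fun x => x ∈ D) (by simp) fun m hm ih => ?_
    have hsub : Sb (prd X r m) D := fun y hy => ih y (mem_prd.1 hy).1 (mem_prd.1 hy).2
    let e : M := un D (pr m m)
    have hme : ∀ x, x ∈ e ↔ x ∈ D ∨ x = m := fun x => by simp [e]
    have hpe : ∀ x, x ∈ e → Sb (prd X r x) D := by
      intro x hx
      rcases (hme x).1 hx with h | rfl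
      · exact hDcl x h
      · exact hsub
    have hDe : Sb D e := fun x hx => (hme x).2 (Or.inl hx)
    let H : M → M := fun x => G x (rs φ (prd X r x))
    have hH : DT (fun w : Fin 1 → M => H (w 0)) := by
      simp (maxDischargeDepth := 50) [H, hG']
    have hg : Fn (lam e H) e := fn_lam hH
    have hgv : ∀ x, x ∈ e → ap (lam e H) x = G x (rs φ (prd X r x)) := fun x hx => ap_lam hH hx
    have hatt : Att X r G (lam e H) e := by
      refine ⟨?_, fun x hx => (hpe x hx).trans hDe, hg, fun x hx => ?_⟩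
      · intro x hx
        rcases (hme x).1 hx with h | rfl
        · exact hDX x h
        · exact hm
      · rw [hgv x hx]
        congr 1
        refine rs_congr hφ hg (hpe x hx) ((hpe x hx).trans hDe) fun y hy => ?_
        have hyD := hpe x hx y hy
        rw [hgv y (hDe y hyD), hφr y hyD]
    exact (hmD m).2 ⟨hm, lam e H, e, hatt, (hme m).2 (Or.inr rfl)⟩
  have hDeq : D = X := Sb.antisymm hDX hall
  exact ⟨φ, hDeq ▸ hφ, fun x hx => hφr x (hall x hx)⟩

/-- Recursion on the elements of an ordinal. -/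
theorem ord_recursion {K : M} (hK : Ord K) {G : M → M → M}
    (hG : DT (fun w : Fin 2 → M => G (w 0) (w 1))) :
    ∃ f, Fn f K ∧ ∀ x, x ∈ K → ap f x = G x (rs f x) := by
  let r : M := sp (pd K K) fun z => ∃ x y, z = op y x ∧ y ∈ x
  have hr : ∀ x y, op y x ∈ r ↔ (y ∈ K ∧ x ∈ K) ∧ y ∈ x := by
    intro x y
    show op y x ∈ sp (pd K K) (fun z => ∃ x y, z = op y x ∧ y ∈ x) ↔ _
    rw [mem_sp (by simp (maxDischargeDepth := 50)), op_mem_pd]
    refine and_congr_right fun _ => ?_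
    constructor
    · rintro ⟨x', y', h, h'⟩
      obtain ⟨rfl, rfl⟩ := op_inj.1 h
      exact h'
    · intro h
      exact ⟨x, y, rfl, h⟩
  have hwf : Wf K r := by
    intro S hS hne
    obtain ⟨m, hm, hmin⟩ := IsZFC.found S hne
    refine ⟨m, hm, fun y hy h => ?_⟩
    exact hmin y ((hr m y).1 h).2 hy
  obtain ⟨f, hf, hfr⟩ := recursion hwf hG
  refine ⟨f, hf, fun x hx => ?_⟩
  have : prd K r x = x := by
    refine ext' fun y => ?_
    rw [mem_prd, hr]
    constructor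
    · rintro ⟨-, -, h⟩
      exact h
    · intro h
      have hyK := hK.1 x hx y h
      exact ⟨hyK, ⟨hyK, hx⟩, h⟩
  rw [hfr x hx, this]

theorem sU_sc_of_ord {x : M} (hx : Ord x) : sU (sc x) = x := by
  refine ext' fun z => ?_
  rw [mem_sU]
  constructor
  · rintro ⟨y, hy, hz⟩
    rcases mem_sc.1 hy with h | rfl
    · exact hx.1 y h z hz
    · exact hz
  · intro hz
    exact ⟨x, mem_sc.2 (Or.inr rfl), hz⟩

/-- Recursion on the natural numbers. -/
theorem om_recursion (a : M) {G : M → M} (hG : DT (fun w : Fin 1 → M => G (w 0))) :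
    ∃ f, Fn f (om : M) ∧ ap f em = a ∧ ∀ n, n ∈ (om : M) → ap f (sc n) = G (ap f n) := by
  classical
  have hG' : ∀ {n : ℕ} {s : (Fin n → M) → M}, DT s → DT fun v => G (s v) :=
    fun hs => dt1 hG hs
  obtain ⟨f, hf, hfr⟩ := ord_recursion (K := (om : M)) om_ord
    (G := fun x h => if x = em then a else G (ap h (sU x))) (by
      refine DT.ite (P := fun w : Fin 2 → M => w 0 = em) (by simp) (by simp) ?_
      exact hG' (by simp (maxDischargeDepth := 50)))
  refine ⟨f, hf, ?_, fun n hn => ?_⟩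
  · rw [hfr em em_mem_om, if_pos rfl]
  · have hne : sc n ≠ em := by
      intro h
      have : n ∈ sc n := mem_sc.2 (Or.inr rfl)
      rw [h] at this
      exact not_mem_em n this
    have hsn := sc_mem_om hn
    rw [hfr (sc n) hsn, if_neg hne, sU_sc_of_ord (om_ord.mem hn)]
    rw [ap_rs hf (om_ord.1 _ hsn) (mem_sc.2 (Or.inr rfl))]

/-- Every set is an element of a transitive set. -/
theorem exists_tr (x : M) : ∃ t : M, Tr t ∧ x ∈ t := by
  obtain ⟨f, -, h0, h1⟩ := om_recursion (pr x x) (G := sU) (by simp (maxDischargeDepth := 50))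
  have hd : DT (fun w : Fin 1 → M => ap f (w 0)) := by simp (maxDischargeDepth := 50)
  refine ⟨sU (im om (ap f)), ?_, ?_⟩
  · intro y hy z hz
    obtain ⟨u, hu, hyu⟩ := mem_sU.1 hy
    obtain ⟨n, hn, rfl⟩ := (mem_im hd).1 hu
    refine mem_sU.2 ⟨ap f (sc n), (mem_im hd).2 ⟨sc n, sc_mem_om hn, rfl⟩, ?_⟩
    rw [h1 n hn]
    exact mem_sU.2 ⟨y, hyu, hz⟩
  · refine mem_sU.2 ⟨ap f em, (mem_im hd).2 ⟨em, em_mem_om, rfl⟩, ?_⟩
    rw [h0]
    simp

/-- If a relation is not well-founded then there is a descending sequence. -/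
theorem exists_desc {X r : M} (h : ¬ Wf X r) :
    ∃ f : M, f ∈ fs (om : M) X ∧ ∀ n, n ∈ (om : M) → op (ap f (sc n)) (ap f n) ∈ r := by
  unfold Wf at h
  push Not at h
  obtain ⟨S, hSX, ⟨x₀, hx₀⟩, hS⟩ := h
  obtain ⟨c, hc, hcr⟩ := choice' (a := S) (b := S) (P := fun x y => op y x ∈ r)
    (by simp (maxDischargeDepth := 50)) (fun x hx => by
      obtain ⟨y, hy, hyr⟩ := hS x hx
      exact ⟨y, hy, hyr⟩)
  obtain ⟨f, hf, h0, h1⟩ := om_recursion x₀ (G := ap c) (by simp (maxDischargeDepth := 50))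
  have hmem : ∀ n, n ∈ (om : M) → ap f n ∈ S := by
    refine om_ind (P := fun n => ap f n ∈ S) (by simp (maxDischargeDepth := 50)) ?_ ?_
    · rw [h0]; exact hx₀
    · intro n hn ih
      rw [h1 n hn]
      exact (mem_fs.1 hc).2 _ ih
  refine ⟨f, mem_fs.2 ⟨hf, fun n hn => hSX _ (hmem n hn)⟩, fun n hn => ?_⟩
  rw [h1 n hn]
  exact hcr _ (hmem n hn)

/-- There is no descending sequence for membership. -/
theorem no_desc (f : M) (h : ∀ n : M, n ∈ (om : M) → ap f (sc n) ∈ ap f n) : False := by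
  have hd : DT (fun w : Fin 1 → M => ap f (w 0)) := by simp (maxDischargeDepth := 50)
  obtain ⟨m, hm, hmin⟩ := IsZFC.found (im om (ap f)) ⟨ap f em, (mem_im hd).2 ⟨em, em_mem_om, rfl⟩⟩
  obtain ⟨n, hn, rfl⟩ := (mem_im hd).1 hm
  exact hmin _ (h n hn) ((mem_im hd).2 ⟨sc n, sc_mem_om hn, rfl⟩)

/-- The collapse of a well-founded relation on a set. -/
theorem exists_collapse {X r : M} (hwf : Wf X r) :
    ∃ c, Fn c X ∧ ∀ x, x ∈ X → ∀ z, z ∈ ap c x ↔ ∃ y, y ∈ X ∧ op y x ∈ r ∧ z = ap c y := by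
  obtain ⟨c, hc, hcr⟩ := recursion hwf (G := fun x h => im (prd X r x) (ap h)) (by
    refine dt_im (F := fun (w : Fin 2 → M) y => ap (w 1) y) (by simp (maxDischargeDepth := 50)) ?_
    exact dt_ap (DT.var 2) (DT.var 0))
  refine ⟨c, hc, fun x hx z => ?_⟩
  have hsub : Sb (prd X r x) X := fun y hy => (mem_prd.1 hy).1
  rw [hcr x hx, mem_im (by simp (maxDischargeDepth := 50))]
  constructor
  · rintro ⟨y, hy, rfl⟩
    exact ⟨y, (mem_prd.1 hy).1, (mem_prd.1 hy).2, ap_rs hc hsub hy⟩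
  · rintro ⟨y, hy, hyr, rfl⟩
    have hy' : y ∈ prd X r x := mem_prd.2 ⟨hy, hyr⟩
    exact ⟨y, hy', (ap_rs hc hsub hy').symm⟩

theorem collapse_unique {X r c c' : M} (hwf : Wf X r) (hc : Fn c X) (hc' : Fn c' X)
    (h : ∀ x, x ∈ X → ∀ z, z ∈ ap c x ↔ ∃ y, y ∈ X ∧ op y x ∈ r ∧ z = ap c y)
    (h' : ∀ x, x ∈ X → ∀ z, z ∈ ap c' x ↔ ∃ y, y ∈ X ∧ op y x ∈ r ∧ z = ap c' y) : c = c' := by
  refine hc.ext hc' (hwf.ind (P := fun x => ap c x = ap c' x)
    (by simp (maxDischargeDepth := 50)) fun x hx ih => ?_)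
  refine ext' fun z => ?_
  rw [h x hx, h' x hx]
  refine exists_congr fun y => and_congr_right fun hy => and_congr_right fun hyr => ?_
  rw [ih y hy hyr]

end Pool.Agent.SigB
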