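import Pool.Agent.SigB.ProdB

/-!
The limit ultrapower of a transitive set inside a model of ZFC, its collapse, and the theorem of
Los for formulas with bounded quantifiers.
-/

universe u

set_option linter.unusedSectionVars false

namespace Pool.Agent.SigB

open Filter

variable {M : Type u} [Membership M M] [IsZFC M]

/-- Formulas with bounded quantifiers are definable. -/
theorem dfn_sat {n m : ℕ} (φ : D0 n) {v : (Fin m → M) → Fin n → M}
    (hv : ∀ i, DT (fun w => v w i)) : Dfn (fun w => φ.Holds (v w)) := by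
  induction φ generalizing m with
  | mem i j => exact Dfn.mem (hv i) (hv j)
  | eq i j => exact Dfn.eq (hv i) (hv j)
  | neg φ ih => exact (ih hv).not
  | and φ ψ ih1 ih2 => exact (ih1 hv).and (ih2 hv)
  | bex i φ ih =>
    refine Dfn.ex (P := fun w z => z ∈ v w i ∧ φ.Holds (Fin.cons z (v w))) (Dfn.and ?_ ?_)
    · exact Dfn.mem (DT.var 0) ((hv i).ren Fin.succ)
    · refine ih (v := fun (w : Fin (m + 1) → M) => Fin.cons (w 0) (v fun i => w i.succ)) ?_
      intro k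
      refine Fin.cases ?_ (fun k => ?_) k
      · simpa using DT.var (M := M) (n := m + 1) 0
      · simpa using (hv k).ren Fin.succ

/-- The functions on the product with values in `T` and with finite support contained in `J`. -/
noncomputable def FS (K A T J : M) : M :=
  sp (fs (Om K A) T) fun f => ∃ s, Sb s J ∧ Fi s ∧ Df K A (ap f) s

theorem FS.dt : DT (fun w : Fin 4 → M => FS (w 0) (w 1) (w 2) (w 3)) := by
  unfold FS
  refine dt_sp (P := fun (v : Fin 4 → M) f => ∃ s, Sb s (v 3) ∧ Fi s ∧ Df (v 0) (v 1) (ap f) s)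
    (by simp (maxDischargeDepth := 50)) ?_
  refine Dfn.ex (P := fun (w : Fin 5 → M) s => Sb s (w 4) ∧ Fi s ∧
    Df (w 1) (w 2) (ap (w 0)) s) ?_
  refine Dfn.and (by simp) (Dfn.and (by simp) ?_)
  exact dfn_Df (F := fun (w : Fin 6 → M) x => ap (w 1) x) (by simp) (by simp) (by simp)
    (by simp)

@[simp] theorem dt_FS {n : ℕ} {s t r q : (Fin n → M) → M} (hs : DT s) (ht : DT t) (hr : DT r)
    (hq : DT q) : DT (fun v => FS (s v) (t v) (r v) (q v)) := dt4 FS.dt hs ht hr hq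

theorem mem_FS {K A T J f : M} : f ∈ FS K A T J ↔ f ∈ fs (Om K A) T ∧
    ∃ s, Sb s J ∧ Fi s ∧ Df K A (ap f) s := by
  unfold FS
  refine mem_sp ?_
  refine Dfn.ex (P := fun (w : Fin 1 → M) s => Sb s J ∧ Fi s ∧ Df K A (ap (w 0)) s) ?_
  refine Dfn.and (by simp) (Dfn.and (by simp) ?_)
  exact dfn_Df (F := fun (w : Fin 2 → M) x => ap (w 1) x) (by simp) (by simp) (by simp)
    (by simp)

/-- The membership relation of the limit ultrapower. -/
noncomputable def RR (K A U T J : M) : M :=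
  cp fun z => ∃ g, g ∈ FS K A T J ∧ ∃ f, f ∈ FS K A T J ∧
    (∀ᶠ ω in FF K A U, ap g ω ∈ ap f ω) ∧ z = op g f

theorem op_mem_RR {K A U T J g f : M} : op g f ∈ RR K A U T J ↔ g ∈ FS K A T J ∧
    f ∈ FS K A T J ∧ ∀ᶠ ω in FF K A U, ap g ω ∈ ap f ω := by
  unfold RR
  rw [mem_cp' (by simp (maxDischargeDepth := 50)) ⟨pd (FS K A T J) (FS K A T J), by
    rintro z ⟨g, hg, f, hf, -, rfl⟩
    exact op_mem_pd.2 ⟨hg, hf⟩⟩]
  constructor
  · rintro ⟨g', hg, f', hf, h, he⟩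
    obtain ⟨rfl, rfl⟩ := op_inj.1 he
    exact ⟨hg, hf, h⟩
  · rintro ⟨hg, hf, h⟩
    exact ⟨g, hg, f, hf, h, rfl⟩

theorem RR.dt : DT (fun w : Fin 5 → M => RR (w 0) (w 1) (w 2) (w 3) (w 4)) := by
  unfold RR
  simp (maxDischargeDepth := 50)

/-- The collapse function of the limit ultrapower of `T`. -/
noncomputable def Co (K A U T J : M) : M :=
  cp fun z => ∃ c, (Fn c (FS K A T J) ∧ ∀ f, f ∈ FS K A T J → ∀ y, y ∈ ap c f ↔
    ∃ g, g ∈ FS K A T J ∧ op g f ∈ RR K A U T J ∧ y = ap c g) ∧ z ∈ c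

theorem Co.dt : DT (fun w : Fin 5 → M => Co (w 0) (w 1) (w 2) (w 3) (w 4)) := by
  unfold Co RR
  simp (maxDischargeDepth := 50)

/-- The constant function. -/
noncomputable def cst (K A t : M) : M := lam (Om K A) fun _ => t

theorem cst.dt : DT (fun w : Fin 3 → M => cst (w 0) (w 1) (w 2)) := by
  unfold cst
  simp (maxDischargeDepth := 50)

@[simp] theorem dt_cst {n : ℕ} {s t r : (Fin n → M) → M} (hs : DT s) (ht : DT t) (hr : DT r) :
    DT (fun v => cst (s v) (t v) (r v)) := dt3 cst.dt hs ht hr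

theorem ap_cst {K A t ω : M} (hω : ω ∈ Om K A) : ap (cst K A t) ω = t := by
  unfold cst
  exact ap_lam (DT.const t) hω

theorem cst_mem {K A T J t : M} (ht : t ∈ T) : cst K A t ∈ FS K A T J := by
  refine mem_FS.2 ⟨lam_mem_fs (DT.const t) fun _ _ => ht, em, fun z hz => ?_, fi_em, ?_⟩
  · exact absurd hz (not_mem_em z)
  · intro x y hx hy _
    rw [ap_cst hx, ap_cst hy]

section

variable {K A U : M} (S : Sys K A U) {T J : M}
include S

theorem RR_wf (hJ : Sb J K) : Wf (FS K A T J) (RR K A U T J) := by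
  by_contra hcon
  obtain ⟨f, hf, hfr⟩ := exists_desc hcon
  have h1 : ∀ n, n ∈ (om : M) → ∀ᶠ ω in FF K A U, ap (ap f (sc n)) ω ∈ ap (ap f n) ω :=
    fun n hn => (op_mem_RR.1 (hfr n hn)).2.2
  have h2 := ev_inter S (X := om) S.cc (P := fun n ω => ap (ap f (sc n)) ω ∈ ap (ap f n) ω)
    (by simp (maxDischargeDepth := 50)) h1
  have := FF_neBot S
  obtain ⟨ω, hω⟩ := h2.exists
  have hd : DT (fun w : Fin 1 → M => ap (ap f (w 0)) ω) := by simp (maxDischargeDepth := 50)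
  refine no_desc (lam om fun n => ap (ap f n) ω) fun n hn => ?_
  rw [ap_lam hd hn, ap_lam hd (sc_mem_om hn)]
  exact hω n hn

theorem Co_eq_of (hJ : Sb J K) {c : M} (hc : Fn c (FS K A T J))
    (h : ∀ f, f ∈ FS K A T J → ∀ y, y ∈ ap c f ↔ ∃ g, g ∈ FS K A T J ∧
      op g f ∈ RR K A U T J ∧ y = ap c g) : Co K A U T J = c := by
  have h1 : ∀ z, z ∈ c ↔ ∃ c, (Fn c (FS K A T J) ∧ ∀ f, f ∈ FS K A T J → ∀ y, y ∈ ap c f ↔
      ∃ g, g ∈ FS K A T J ∧ op g f ∈ RR K A U T J ∧ y = ap c g) ∧ z ∈ c := by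
    intro z
    constructor
    · intro hz
      exact ⟨c, ⟨hc, h⟩, hz⟩
    · rintro ⟨c', ⟨hc', h'⟩, hz⟩
      rwa [collapse_unique (RR_wf S hJ) hc hc' h h']
  exact ext' fun z => by rw [h1 z]; exact mem_cp ⟨c, h1⟩

theorem Co_spec (hJ : Sb J K) : Fn (Co K A U T J) (FS K A T J) ∧
    ∀ f, f ∈ FS K A T J → ∀ y, y ∈ ap (Co K A U T J) f ↔ ∃ g, g ∈ FS K A T J ∧
      op g f ∈ RR K A U T J ∧ y = ap (Co K A U T J) g := by
  obtain ⟨c, hc, h⟩ := exists_collapse (RR_wf S (T := T) hJ)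
  rw [Co_eq_of S hJ hc h]
  exact ⟨hc, h⟩

theorem fn_Co (hJ : Sb J K) : Fn (Co K A U T J) (FS K A T J) := (Co_spec S hJ).1

theorem mem_Co (hJ : Sb J K) {f z : M} (hf : f ∈ FS K A T J) : z ∈ ap (Co K A U T J) f ↔
    ∃ g, g ∈ FS K A T J ∧ (∀ᶠ ω in FF K A U, ap g ω ∈ ap f ω) ∧ z = ap (Co K A U T J) g := by
  rw [(Co_spec S hJ).2 f hf z]
  refine exists_congr fun g => and_congr_right fun hg => ?_
  rw [op_mem_RR]
  exact ⟨fun h => ⟨h.1.2.2, h.2⟩, fun h => ⟨⟨hg, hf, h.1⟩, h.2⟩⟩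

/-- Uniqueness of the collapse. -/
theorem Co_unique (hJ : Sb J K) {c : M} (hc : Fn c (FS K A T J))
    (h : ∀ f, f ∈ FS K A T J → ∀ y, y ∈ ap c f ↔ ∃ g, g ∈ FS K A T J ∧
      (∀ᶠ ω in FF K A U, ap g ω ∈ ap f ω) ∧ y = ap c g) : c = Co K A U T J := by
  refine (Co_eq_of S hJ hc fun f hf y => ?_).symm
  rw [h f hf y]
  refine exists_congr fun g => and_congr_right fun hg => ?_
  rw [op_mem_RR]
  exact ⟨fun h => ⟨⟨hg, hf, h.1⟩, h.2⟩, fun h => ⟨h.1.2.2, h.2⟩⟩

/-- Choice of values by a function with finite support. The predicate is given by a function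
`q` (with finite support) whose value at `ω` is the set of the allowed values. -/
theorem exists_choice {s : M} (hT : ∃ t, t ∈ T) (hs : Sb s J) (hf : Fi s) {Q : M → M → Prop}
    (hQ : Dfn (fun w : Fin 2 → M => Q (w 0) (w 1)))
    (hd : ∀ x y, x ∈ Om K A → y ∈ Om K A → (∀ i, i ∈ s → ap x i = ap y i) →
      ∀ z, z ∈ T → (Q x z ↔ Q y z)) :
    ∃ g, g ∈ FS K A T J ∧ Df K A (ap g) s ∧
      ∀ ω, ω ∈ Om K A → (∃ z, z ∈ T ∧ Q ω z) → Q ω (ap g ω) := by
  classical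
  obtain ⟨t, ht⟩ := hT
  have hne : Dfn (fun w : Fin 1 → M => ∃ z, z ∈ w 0) := by simp (maxDischargeDepth := 50)
  obtain ⟨c, hc, hcr⟩ := choice' (a := sp (pw T) fun u => ∃ z, z ∈ u) (b := T)
    (P := fun u z => z ∈ u) (by simp (maxDischargeDepth := 50)) (by
      intro u hu
      obtain ⟨hu, z, hz⟩ := (mem_sp hne).1 hu
      exact ⟨z, mem_pw.1 hu z hz, hz⟩)
  have hQ' : ∀ {n : ℕ} {a b : (Fin n → M) → M}, DT a → DT b → Dfn fun v => Q (a v) (b v) :=
    fun ha hb => dfn2 hQ ha hb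
  have hQ1 : ∀ ω, Dfn (fun w : Fin 1 → M => Q ω (w 0)) := fun ω => hQ' (DT.const ω) (DT.var 0)
  let G : M → M := fun ω => if (∃ z, z ∈ T ∧ Q ω z) then ap c (sp T (Q ω)) else t
  have hG : DT (fun w : Fin 1 → M => G (w 0)) := by
    refine DT.ite (P := fun w : Fin 1 → M => ∃ z, z ∈ T ∧ Q (w 0) z) ?_ ?_ (DT.const t)
    · refine Dfn.ex (P := fun (w : Fin 1 → M) z => z ∈ T ∧ Q (w 0) z) ?_
      exact Dfn.and (by simp) (hQ' (DT.var 1) (DT.var 0))
    · refine dt_ap (DT.const c) ?_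
      exact dt_sp (P := fun (w : Fin 1 → M) z => Q (w 0) z) (DT.const T)
        (hQ' (DT.var 1) (DT.var 0))
  have hsel : ∀ ω, (∃ z, z ∈ T ∧ Q ω z) → G ω ∈ T ∧ Q ω (G ω) := by
    intro ω hω
    obtain ⟨z, hz, hQz⟩ := hω
    have h1 : sp T (Q ω) ∈ sp (pw T) fun u => ∃ z, z ∈ u := by
      rw [mem_sp hne, mem_pw]
      exact ⟨fun y hy => ((mem_sp (hQ1 ω)).1 hy).1, z, (mem_sp (hQ1 ω)).2 ⟨hz, hQz⟩⟩
    have h2 := hcr _ h1
    rw [mem_sp (hQ1 ω)] at h2
    have h3 : G ω = ap c (sp T (Q ω)) := if_pos ⟨z, hz, hQz⟩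
    rw [h3]
    exact h2
  have hGT : ∀ ω, G ω ∈ T := by
    intro ω
    by_cases hω : ∃ z, z ∈ T ∧ Q ω z
    · exact (hsel ω hω).1
    · have h3 : G ω = t := if_neg hω
      rw [h3]; exact ht
  have hap : ∀ ω, ω ∈ Om K A → ap (lam (Om K A) G) ω = G ω := fun ω hω => ap_lam hG hω
  have hdep : Df K A (ap (lam (Om K A) G)) s := by
    intro x y hx hy hxy
    rw [hap x hx, hap y hy]
    have h1 : ∀ z, z ∈ T → (Q x z ↔ Q y z) := hd x y hx hy hxy
    have h2 : sp T (Q x) = sp T (Q y) := by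
      refine ext' fun z => ?_
      rw [mem_sp (hQ1 x), mem_sp (hQ1 y)]
      exact and_congr_right fun hz => h1 z hz
    have h3 : (∃ z, z ∈ T ∧ Q x z) ↔ ∃ z, z ∈ T ∧ Q y z :=
      exists_congr fun z => and_congr_right fun hz => h1 z hz
    show (if (∃ z, z ∈ T ∧ Q x z) then ap c (sp T (Q x)) else t) =
      if (∃ z, z ∈ T ∧ Q y z) then ap c (sp T (Q y)) else t
    rw [h2]
    by_cases h4 : ∃ z, z ∈ T ∧ Q x z
    · rw [if_pos h4, if_pos (h3.1 h4)]
    · rw [if_neg h4, if_neg fun h => h4 (h3.2 h)]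
  refine ⟨lam (Om K A) G, mem_FS.2 ⟨lam_mem_fs hG fun ω _ => hGT ω, s, hs, hf, hdep⟩, hdep, ?_⟩
  intro ω hω h
  rw [hap ω hω]
  exact (hsel ω h).2

/-- Change of a function on a null set. -/
theorem exists_modify {T' : M} {g : M} (hg : g ∈ FS K A T' J)
    (h : ∀ᶠ ω in FF K A U, ap g ω ∈ T) :
    ∃ g', g' ∈ FS K A T J ∧ ∀ᶠ ω in FF K A U, ap g ω = ap g' ω := by
  classical
  have := FF_neBot S
  obtain ⟨ω₀, hω₀⟩ := h.exists
  obtain ⟨hgf, s, hs, hf, hd⟩ := mem_FS.1 hg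
  let G : M → M := fun ω => if ap g ω ∈ T then ap g ω else ap g ω₀
  have hG : DT (fun w : Fin 1 → M => G (w 0)) := by
    refine DT.ite (P := fun w : Fin 1 → M => ap g (w 0) ∈ T) ?_ ?_ (DT.const _)
    · simp (maxDischargeDepth := 50)
    · simp (maxDischargeDepth := 50)
  have hap : ∀ ω, ω ∈ Om K A → ap (lam (Om K A) G) ω = G ω := fun ω hω => ap_lam hG hω
  have hGT : ∀ ω, G ω ∈ T := by
    intro ω
    by_cases hω : ap g ω ∈ T
    · have h3 : G ω = ap g ω := if_pos hω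
      rw [h3]; exact hω
    · have h3 : G ω = ap g ω₀ := if_neg hω
      rw [h3]; exact hω₀
  refine ⟨lam (Om K A) G, mem_FS.2 ⟨lam_mem_fs hG fun ω _ => hGT ω, s, hs, hf, ?_⟩, ?_⟩
  · intro x y hx hy hxy
    rw [hap x hx, hap y hy]
    show (if ap g x ∈ T then ap g x else ap g ω₀) = if ap g y ∈ T then ap g y else ap g ω₀
    rw [hd x y hx hy hxy]
  · filter_upwards [h, ev_Om K A U] with ω h1 h2
    rw [hap ω h2]
    exact (if_pos h1).symm

/-- A common support of two functions. -/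
theorem FS_two (hJ : Sb J K) {f g : M} (hf : f ∈ FS K A T J) (hg : g ∈ FS K A T J) :
    ∃ s, Sb s J ∧ Fi s ∧ Df K A (ap f) s ∧ Df K A (ap g) s := by
  obtain ⟨-, s, hs, hs', hd⟩ := mem_FS.1 hf
  obtain ⟨-, t, ht, ht', hd'⟩ := mem_FS.1 hg
  refine ⟨un s t, ?_, fi_un S.ord (hs.trans hJ) (ht.trans hJ) hs' ht', ?_, ?_⟩
  · intro z hz
    rcases mem_un.1 hz with h | h
    · exact hs z h
    · exact ht z h
  · intro x y hx hy hxy
    exact hd x y hx hy fun i hi => hxy i (mem_un.2 (Or.inl hi))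
  · intro x y hx hy hxy
    exact hd' x y hx hy fun i hi => hxy i (mem_un.2 (Or.inr hi))

theorem Co_congr (hJ : Sb J K) (hT : Tr T) {f g : M} (hf : f ∈ FS K A T J)
    (hg : g ∈ FS K A T J) (h : ∀ᶠ ω in FF K A U, ap f ω = ap g ω) :
    ap (Co K A U T J) f = ap (Co K A U T J) g := by
  refine ext' fun z => ?_
  rw [mem_Co S hJ hf, mem_Co S hJ hg]
  refine exists_congr fun k => and_congr_right fun _ => and_congr_left fun _ => ?_
  constructor
  · intro h1
    filter_upwards [h, h1] with ω a b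
    rwa [← a]
  · intro h1
    filter_upwards [h, h1] with ω a b
    rwa [a]

/-- One half of the next theorem. -/
theorem Co_inj_aux (hJ : Sb J K) (hT : Tr T) {f g : M} (hf : f ∈ FS K A T J)
    (hg : g ∈ FS K A T J)
    (ih : ∀ f', f' ∈ FS K A T J → op f' f ∈ RR K A U T J → ∀ g', g' ∈ FS K A T J →
      ap (Co K A U T J) f' = ap (Co K A U T J) g' → ∀ᶠ ω in FF K A U, ap f' ω = ap g' ω)
    (he : ap (Co K A U T J) f = ap (Co K A U T J) g) :
    (∀ᶠ ω in FF K A U, ∀ z, z ∈ ap f ω → z ∈ ap g ω) ∧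
      ∀ᶠ ω in FF K A U, ∀ z, z ∈ ap g ω → z ∈ ap f ω := by
  have hneb := FF_neBot S
  obtain ⟨ω₀, hω₀⟩ := exists_Om S
  have hTne : ∃ t, t ∈ T := ⟨ap f ω₀, (mem_fs.1 (mem_FS.1 hf).1).2 ω₀ hω₀⟩
  obtain ⟨s, hs, hs', hdf, hdg⟩ := FS_two S hJ hf hg
  constructor
  · rcases ultra S (P := fun ω => ∀ z, z ∈ ap f ω → z ∈ ap g ω)
      (by simp (maxDischargeDepth := 50)) (hs.trans hJ) hs' (by
        intro x y hx hy hxy
        beta_reduce
        rw [hdf x y hx hy hxy, hdg x y hx hy hxy]) with h1 | h1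
    · exact h1
    · exfalso
      obtain ⟨k, hk, -, hkQ⟩ := exists_choice S hTne hs hs'
        (Q := fun ω z => z ∈ ap f ω ∧ z ∉ ap g ω) (by simp (maxDischargeDepth := 50)) (by
          intro x y hx hy hxy z _
          rw [hdf x y hx hy hxy, hdg x y hx hy hxy])
      have h2 : ∀ᶠ ω in FF K A U, ap k ω ∈ ap f ω ∧ ap k ω ∉ ap g ω := by
        filter_upwards [h1, ev_Om K A U] with ω a b
        refine hkQ ω b ?_
        push Not at a
        obtain ⟨z, hz, hz'⟩ := a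
        exact ⟨z, hT _ ((mem_fs.1 (mem_FS.1 hf).1).2 ω b) z hz, hz, hz'⟩
      have h3 : ∀ᶠ ω in FF K A U, ap k ω ∈ ap f ω := h2.mono fun ω h => h.1
      have h4 : ap (Co K A U T J) k ∈ ap (Co K A U T J) g := by
        rw [← he]
        exact (mem_Co S hJ hf).2 ⟨k, hk, h3, rfl⟩
      obtain ⟨k', hk', h5, h6⟩ := (mem_Co S hJ hg).1 h4
      have h7 := ih k hk (op_mem_RR.2 ⟨hk, hf, h3⟩) k' hk' h6
      obtain ⟨ω, a, b, c⟩ := (h2.and (h5.and h7)).exists
      exact a.2 (by rw [c]; exact b)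
  · rcases ultra S (P := fun ω => ∀ z, z ∈ ap g ω → z ∈ ap f ω)
      (by simp (maxDischargeDepth := 50)) (hs.trans hJ) hs' (by
        intro x y hx hy hxy
        beta_reduce
        rw [hdf x y hx hy hxy, hdg x y hx hy hxy]) with h1 | h1
    · exact h1
    · exfalso
      obtain ⟨k, hk, -, hkQ⟩ := exists_choice S hTne hs hs'
        (Q := fun ω z => z ∈ ap g ω ∧ z ∉ ap f ω) (by simp (maxDischargeDepth := 50)) (by
          intro x y hx hy hxy z _
          rw [hdf x y hx hy hxy, hdg x y hx hy hxy])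
      have h2 : ∀ᶠ ω in FF K A U, ap k ω ∈ ap g ω ∧ ap k ω ∉ ap f ω := by
        filter_upwards [h1, ev_Om K A U] with ω a b
        refine hkQ ω b ?_
        push Not at a
        obtain ⟨z, hz, hz'⟩ := a
        exact ⟨z, hT _ ((mem_fs.1 (mem_FS.1 hg).1).2 ω b) z hz, hz, hz'⟩
      have h3 : ∀ᶠ ω in FF K A U, ap k ω ∈ ap g ω := h2.mono fun ω h => h.1
      have h4 : ap (Co K A U T J) k ∈ ap (Co K A U T J) f := by
        rw [he]
        exact (mem_Co S hJ hg).2 ⟨k, hk, h3, rfl⟩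
      obtain ⟨k', hk', h5, h6⟩ := (mem_Co S hJ hf).1 h4
      have h7 := ih k' hk' (op_mem_RR.2 ⟨hk', hf, h5⟩) k hk h6.symm
      obtain ⟨ω, a, b, c⟩ := (h2.and (h5.and h7)).exists
      exact a.2 (by rw [← c]; exact b)

theorem Co_eq_iff (hJ : Sb J K) (hT : Tr T) {f g : M} (hf : f ∈ FS K A T J)
    (hg : g ∈ FS K A T J) : ap (Co K A U T J) f = ap (Co K A U T J) g ↔
    ∀ᶠ ω in FF K A U, ap f ω = ap g ω := by
  refine ⟨?_, Co_congr S hJ hT hf hg⟩
  have key := (RR_wf S (T := T) hJ).ind (P := fun f => ∀ g, g ∈ FS K A T J →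
    ap (Co K A U T J) f = ap (Co K A U T J) g → ∀ᶠ ω in FF K A U, ap f ω = ap g ω)
    (by simp (maxDischargeDepth := 50)) (by
      intro f hf ih g hg he
      obtain ⟨h1, h2⟩ := Co_inj_aux S hJ hT hf hg ih he
      filter_upwards [h1, h2] with ω a b
      exact ext' fun z => ⟨a z, b z⟩)
  exact key f hf g hg

theorem Co_mem_iff (hJ : Sb J K) (hT : Tr T) {f g : M} (hf : f ∈ FS K A T J)
    (hg : g ∈ FS K A T J) : ap (Co K A U T J) f ∈ ap (Co K A U T J) g ↔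
    ∀ᶠ ω in FF K A U, ap f ω ∈ ap g ω := by
  rw [mem_Co S hJ hg]
  constructor
  · rintro ⟨k, hk, h1, h2⟩
    rw [Co_eq_iff S hJ hT hf hk] at h2
    filter_upwards [h1, h2] with ω a b
    rwa [b]
  · intro h
    exact ⟨f, hf, h, rfl⟩

/-- A common support of finitely many functions. -/
theorem FS_all (hJ : Sb J K) {n : ℕ} (v : Fin n → M) (hv : ∀ i, v i ∈ FS K A T J) :
    ∃ s, Sb s J ∧ Fi s ∧ ∀ i, Df K A (ap (v i)) s := by
  induction n with
  | zero => exact ⟨em, fun z hz => absurd hz (not_mem_em z), fi_em, fun i => i.elim0⟩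
  | succ n ih =>
    obtain ⟨s, hs, hs', hd⟩ := ih (fun i => v i.succ) fun i => hv _
    obtain ⟨-, t, ht, ht', hd'⟩ := mem_FS.1 (hv 0)
    refine ⟨un s t, ?_, fi_un S.ord (hs.trans hJ) (ht.trans hJ) hs' ht', ?_⟩
    · intro z hz
      rcases mem_un.1 hz with h | h
      · exact hs z h
      · exact ht z h
    · intro i x y hx hy hxy
      refine Fin.cases ?_ (fun i => ?_) i
      · exact hd' x y hx hy fun i hi => hxy i (mem_un.2 (Or.inr hi))
      · exact hd i x y hx hy fun i hi => hxy i (mem_un.2 (Or.inl hi))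

/-- The theorem of Los for formulas with bounded quantifiers. -/
theorem los (hJ : Sb J K) (hT : Tr T) {n : ℕ} (φ : D0 n) (v : Fin n → M)
    (hv : ∀ i, v i ∈ FS K A T J) :
    φ.Holds (fun i => ap (Co K A U T J) (v i)) ↔
      ∀ᶠ ω in FF K A U, φ.Holds (fun i => ap (v i) ω) := by
  induction φ with
  | mem i j => exact Co_mem_iff S hJ hT (hv i) (hv j)
  | eq i j => exact Co_eq_iff S hJ hT (hv i) (hv j)
  | neg φ ih =>
    obtain ⟨s, hs, hs', hd⟩ := FS_all S hJ v hv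
    show ¬ φ.Holds (fun i => ap (Co K A U T J) (v i)) ↔
      ∀ᶠ ω in FF K A U, ¬ φ.Holds (fun i => ap (v i) ω)
    rw [ih v hv, ev_not S (P := fun ω => φ.Holds (fun i => ap (v i) ω))
      (dfn_sat φ fun i => dt_ap (DT.const (v i)) (DT.var 0)) (hs.trans hJ) hs' ?_]
    intro x y hx hy hxy
    have : (fun i => ap (v i) x) = fun i => ap (v i) y := by
      funext i
      exact hd i x y hx hy hxy
    beta_reduce
    rw [this]
  | and φ ψ ih1 ih2 =>
    show (φ.Holds (fun i => ap (Co K A U T J) (v i)) ∧ ψ.Holds (fun i => ap (Co K A U T J) (v i))) ↔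
      ∀ᶠ ω in FF K A U, φ.Holds (fun i => ap (v i) ω) ∧ ψ.Holds (fun i => ap (v i) ω)
    rw [ih1 v hv, ih2 v hv, eventually_and]
  | bex i φ ih =>
    show (∃ z, z ∈ ap (Co K A U T J) (v i) ∧
        φ.Holds (Fin.cons z fun i => ap (Co K A U T J) (v i))) ↔
      ∀ᶠ ω in FF K A U, ∃ z, z ∈ ap (v i) ω ∧ φ.Holds (Fin.cons z fun i => ap (v i) ω)
    have key : ∀ g, g ∈ FS K A T J →
        (φ.Holds (Fin.cons (ap (Co K A U T J) g) fun i => ap (Co K A U T J) (v i)) ↔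
        ∀ᶠ ω in FF K A U, φ.Holds (Fin.cons (ap g ω) fun i => ap (v i) ω)) := by
      intro g hg
      have h1 : (Fin.cons (ap (Co K A U T J) g) fun i => ap (Co K A U T J) (v i) :
          Fin _ → M) = fun k => ap (Co K A U T J) ((Fin.cons g v : Fin _ → M) k) := by
        funext k
        refine Fin.cases ?_ (fun k => ?_) k <;> simp
      have h2 : ∀ ω, (Fin.cons (ap g ω) fun i => ap (v i) ω : Fin _ → M) =
          fun k => ap ((Fin.cons g v : Fin _ → M) k) ω := by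
        intro ω
        funext k
        refine Fin.cases ?_ (fun k => ?_) k <;> simp
      rw [h1, ih (Fin.cons g v) fun k => by
        refine Fin.cases ?_ (fun k => ?_) k
        · simpa using hg
        · simpa using hv k]
      simp only [h2]
    constructor
    · rintro ⟨z, hz, hφ⟩
      obtain ⟨g, hg, hgi, rfl⟩ := (mem_Co S hJ (hv i)).1 hz
      have := (key g hg).1 hφ
      filter_upwards [hgi, this] with ω a b using ⟨_, a, b⟩
    · intro h
      obtain ⟨s, hs, hs', hd⟩ := FS_all S hJ v hv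
      obtain ⟨ω₀, hω₀⟩ := exists_Om S
      have hTne : ∃ t, t ∈ T := ⟨ap (v i) ω₀, (mem_fs.1 (mem_FS.1 (hv i)).1).2 ω₀ hω₀⟩
      obtain ⟨g, hg, -, hgQ⟩ := exists_choice S hTne hs hs'
        (Q := fun ω z => z ∈ ap (v i) ω ∧ φ.Holds (Fin.cons z fun i => ap (v i) ω)) (by
          refine Dfn.and (by simp (maxDischargeDepth := 50)) ?_
          refine dfn_sat φ (v := fun w : Fin 2 → M => Fin.cons (w 1) fun i => ap (v i) (w 0)) ?_
          intro k
          refine Fin.cases ?_ (fun k => ?_) k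
          · simp
          · simp (maxDischargeDepth := 50)) (by
          intro x y hx hy hxy z _
          have h1 : ∀ k, ap (v k) x = ap (v k) y := fun k => hd k x y hx hy hxy
          simp only [h1])
      have h3 : ∀ᶠ ω in FF K A U, ap g ω ∈ ap (v i) ω ∧
          φ.Holds (Fin.cons (ap g ω) fun i => ap (v i) ω) := by
        filter_upwards [h, ev_Om K A U] with ω a b
        refine hgQ ω b ?_
        obtain ⟨z, hz, hz'⟩ := a
        exact ⟨z, hT _ ((mem_fs.1 (mem_FS.1 (hv i)).1).2 ω b) z hz, hz, hz'⟩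
      refine ⟨ap (Co K A U T J) g, (mem_Co S hJ (hv i)).2 ⟨g, hg, h3.mono fun ω h => h.1, rfl⟩,
        (key g hg).2 (h3.mono fun ω h => h.2)⟩

theorem sat_cst (hJ : Sb J K) (hT : Tr T) {n : ℕ} (φ : D0 n) (v : Fin n → M)
    (hv : ∀ i, v i ∈ T) :
    φ.Holds (fun i => ap (Co K A U T J) (cst K A (v i))) ↔ φ.Holds v := by
  rw [los S hJ hT φ (fun i => cst K A (v i)) fun i => cst_mem (hv i)]
  have hneb := FF_neBot S
  have h1 : ∀ ω, ω ∈ Om K A → (fun i => ap (cst K A (v i)) ω) = v := fun ω hω => by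
    funext i
    exact ap_cst hω
  constructor
  · intro h
    obtain ⟨ω, a, b⟩ := (h.and (ev_Om K A U)).exists
    rwa [h1 ω b] at a
  · intro h
    filter_upwards [ev_Om K A U] with ω b
    rwa [h1 ω b]

/-- The collapse does not depend on the transitive set. -/
theorem Co_coh (hJ : Sb J K) {T' : M} (hT : Tr T) (hT' : Tr T') (hTT' : Sb T T') {f : M}
    (hf : f ∈ FS K A T J) : ap (Co K A U T' J) f = ap (Co K A U T J) f := by
  have hsub : ∀ f, f ∈ FS K A T J → f ∈ FS K A T' J := by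
    intro f hf
    obtain ⟨h1, h2⟩ := mem_FS.1 hf
    refine mem_FS.2 ⟨mem_fs.2 ⟨(mem_fs.1 h1).1, fun x hx => hTT' _ ((mem_fs.1 h1).2 x hx)⟩, h2⟩
  refine (RR_wf S (T := T) hJ).ind (P := fun f => ap (Co K A U T' J) f = ap (Co K A U T J) f)
    (by simp (maxDischargeDepth := 50)) (fun f hf ih => ?_) f hf
  refine ext' fun z => ?_
  rw [mem_Co S hJ (hsub f hf), mem_Co S hJ hf]
  constructor
  · rintro ⟨g, hg, h1, rfl⟩
    have h2 : ∀ᶠ ω in FF K A U, ap g ω ∈ T := by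
      filter_upwards [h1, ev_Om K A U] with ω a b
      exact hT _ ((mem_fs.1 (mem_FS.1 hf).1).2 ω b) _ a
    obtain ⟨g', hg', h3⟩ := exists_modify S hg h2
    have h4 : ∀ᶠ ω in FF K A U, ap g' ω ∈ ap f ω := by
      filter_upwards [h1, h3] with ω a b
      rwa [← b]
    refine ⟨g', hg', h4, ?_⟩
    rw [Co_congr S hJ hT' hg (hsub g' hg') h3]
    exact ih g' hg' (op_mem_RR.2 ⟨hg', hf, h4⟩)
  · rintro ⟨g, hg, h1, rfl⟩
    exact ⟨g, hsub g hg, h1, (ih g hg (op_mem_RR.2 ⟨hg, hf, h1⟩)).symm⟩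

end

/-- The embedding on the subsets of `K`. -/
noncomputable def Emb (K A U J x : M) : M :=
  cp fun z => ∃ g, g ∈ FS K A K J ∧ (∀ᶠ ω in FF K A U, ap g ω ∈ x) ∧
    z = ap (Co K A U K J) g

theorem Emb.dt : DT (fun w : Fin 5 → M => Emb (w 0) (w 1) (w 2) (w 3) (w 4)) := by
  unfold Emb
  refine dt_cp (P := fun (v : Fin 5 → M) z => ∃ g, g ∈ FS (v 0) (v 1) (v 0) (v 3) ∧
    (∀ᶠ ω in FF (v 0) (v 1) (v 2), ap g ω ∈ v 4) ∧
    z = ap (Co (v 0) (v 1) (v 2) (v 0) (v 3)) g) ?_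
  refine Dfn.ex (P := fun (v : Fin 6 → M) g => g ∈ FS (v 1) (v 2) (v 1) (v 4) ∧
    (∀ᶠ ω in FF (v 1) (v 2) (v 3), ap g ω ∈ v 5) ∧
    v 0 = ap (Co (v 1) (v 2) (v 3) (v 1) (v 4)) g) ?_
  refine Dfn.and (by simp (maxDischargeDepth := 50)) (Dfn.and ?_ ?_)
  · simp (maxDischargeDepth := 50)
  · refine Dfn.eq (by simp) (dt_ap ?_ (DT.var 0))
    exact DT.ren Co.dt (m := 7) ![2, 3, 4, 2, 5]

theorem mem_Emb {K A U J x z : M} : z ∈ Emb K A U J x ↔ ∃ g, g ∈ FS K A K J ∧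
    (∀ᶠ ω in FF K A U, ap g ω ∈ x) ∧ z = ap (Co K A U K J) g := by
  unfold Emb
  have hd : DT (fun w : Fin 1 → M => ap (Co K A U K J) (w 0)) := by
    simp (maxDischargeDepth := 50)
  refine mem_cp' (by simp (maxDischargeDepth := 50))
    ⟨im (FS K A K J) (ap (Co K A U K J)), ?_⟩
  rintro z ⟨g, hg, -, rfl⟩
  exact (mem_im hd).2 ⟨g, hg, rfl⟩

section

variable {K A U : M} (S : Sys K A U) {T J : M}
include S

/-- The value of the collapse of `T` at a constant subset of `K`. -/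
theorem Co_cst (hJ : Sb J K) (hT : Tr T) (hKT : Sb K T) {x : M} (hx : Sb x K) (hxT : x ∈ T) :
    ap (Co K A U T J) (cst K A x) = Emb K A U J x := by
  refine ext' fun z => ?_
  rw [mem_Co S hJ (cst_mem hxT), mem_Emb]
  have hKtr : Tr K := S.ord.1
  have hiff : ∀ g, (∀ᶠ ω in FF K A U, ap g ω ∈ ap (cst K A x) ω) ↔
      ∀ᶠ ω in FF K A U, ap g ω ∈ x := by
    intro g
    constructor
    · intro h
      filter_upwards [h, ev_Om K A U] with ω a b
      rwa [ap_cst b] at a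
    · intro h
      filter_upwards [h, ev_Om K A U] with ω a b
      rwa [ap_cst b]
  have hsub : ∀ f, f ∈ FS K A K J → f ∈ FS K A T J := by
    intro f hf
    obtain ⟨h1, h2⟩ := mem_FS.1 hf
    refine mem_FS.2 ⟨mem_fs.2 ⟨(mem_fs.1 h1).1, fun x hx => hKT _ ((mem_fs.1 h1).2 x hx)⟩, h2⟩
  constructor
  · rintro ⟨g, hg, h1, rfl⟩
    rw [hiff] at h1
    obtain ⟨g', hg', h3⟩ := exists_modify S (T := K) hg (h1.mono fun ω h => hx _ h)
    refine ⟨g', hg', ?_, ?_⟩
    · filter_upwards [h1, h3] with ω a b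
      rwa [← b]
    · rw [Co_congr S hJ hT hg (hsub g' hg') h3]
      exact Co_coh S hJ hKtr hT hKT hg'
  · rintro ⟨g, hg, h1, rfl⟩
    exact ⟨g, hsub g hg, (hiff g).2 h1, (Co_coh S hJ hKtr hT hKT hg).symm⟩

end

end Pool.Agent.SigB
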